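import Pool.Agent.K4H40.TF.Plat
import Pool.Agent.W619.PQ.Rat

/-!
Coverings of the projective line with prescribed multiplicities.
-/

set_option autoImplicit false
set_option linter.unusedSectionVars false
set_option linter.overlappingInstances false

open FF Pool.Agent.W619.PQ IntermediateField Polynomial

namespace Pool.Agent.K4H40.TF

section

variable {E : Type} [Field E] [Algebra ℂ E] [IsFF ℂ E]

theorem ord_unique_pole {y : E} (hy : ℂ⟮y⟯ = ⊤) {p q : Place ℂ E} (hp : p.ord y < 0)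
    (hq : q.ord y < 0) : p = q := by
  obtain ⟨P, -, hP⟩ := pole_unique hy
  rw [hP p hp, hP q hq]

theorem ord_unique_zero {y : E} (hy : ℂ⟮y⟯ = ⊤) {p q : Place ℂ E} (hp : 0 < p.ord y)
    (hq : 0 < q.ord y) : p = q := by
  obtain ⟨P, -, hP⟩ := zero_unique hy
  rw [hP p hp, hP q hq]

theorem ord_pole {y : E} (hy : ℂ⟮y⟯ = ⊤) {p : Place ℂ E} (hp : p.ord y < 0) : p.ord y = -1 := by
  obtain ⟨P, h1, hP⟩ := pole_unique hy
  rw [hP p hp, h1]

theorem ord_zero {y : E} (hy : ℂ⟮y⟯ = ⊤) {p : Place ℂ E} (hp : 0 < p.ord y) : p.ord y = 1 := by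
  obtain ⟨P, h1, hP⟩ := zero_unique hy
  rw [hP p hp, h1]

theorem finite_value {y : E} (hy : ℂ⟮y⟯ = ⊤) {q : Place ℂ E} (hq : 0 ≤ q.ord y) :
    ∃ a : ℂ, q.ord (y - algebraMap ℂ E a) = 1 := by
  obtain ⟨D, hD, hDy⟩ := exists_ddx (transcendental_of_top hy)
  obtain ⟨-, a, ha, -⟩ := vo_finite_place hy hD hDy q hq
  exact ⟨a, ha⟩

theorem top_inv {x : E} (hx : ℂ⟮x⟯ = ⊤) : ℂ⟮x⁻¹⟯ = ⊤ := by rw [adjoin_inv, hx]

theorem top_mul {x : E} (hx : ℂ⟮x⟯ = ⊤) {a : ℂ} (ha : a ≠ 0) : ℂ⟮algebraMap ℂ E a * x⟯ = ⊤ := by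
  rw [eq_top_iff, ← hx, adjoin_simple_le_iff]
  have h1 := mem_adjoin_simple_self ℂ (algebraMap ℂ E a * x)
  have h2 := mul_mem (_root_.algebraMap_mem ℂ⟮algebraMap ℂ E a * x⟯ a⁻¹) h1
  rwa [← mul_assoc, ← map_mul, inv_mul_cancel₀ ha, map_one, one_mul] at h2

theorem mob1 {x : E} (hx : ℂ⟮x⟯ = ⊤) (q : Place ℂ E) : ∃ y : E, ℂ⟮y⟯ = ⊤ ∧ q.ord y = -1 := by
  by_cases h : q.ord x < 0
  · exact ⟨x, hx, ord_pole hx h⟩
  · obtain ⟨a, ha⟩ := finite_value hx (not_lt.1 h)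
    exact ⟨(x - algebraMap ℂ E a)⁻¹, top_inv (top_sub hx a), by rw [q.ord_inv, ha]⟩

theorem ord_sub_pole {y : E} {q : Place ℂ E} (hq : q.ord y < 0) (a : ℂ) :
    q.ord (y - algebraMap ℂ E a) = q.ord y := by
  by_cases ha : a = 0
  · simp [ha]
  · have hy : y ≠ 0 := by rintro rfl; rw [q.ord_zero] at hq; omega
    have h1 : q.ord (algebraMap ℂ E a) = 0 := q.ord_const ha
    have h2 : q.ord (-(algebraMap ℂ E a)) = 0 := by rw [q.ord_neg, h1]
    rw [sub_eq_add_neg]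
    have hne : -(algebraMap ℂ E a) ≠ 0 := by simpa using ha
    exact (q.ord_add_eq hy hne (by rw [h2]; exact hq)).2

theorem mob2 {x : E} (hx : ℂ⟮x⟯ = ⊤) {q1 q2 : Place ℂ E} (h12 : q1 ≠ q2) :
    ∃ y : E, ℂ⟮y⟯ = ⊤ ∧ q1.ord y = 1 ∧ q2.ord y = -1 := by
  obtain ⟨y, hy, hyq⟩ := mob1 hx q2
  have h1 : 0 ≤ q1.ord y := by
    by_contra h
    exact h12 (ord_unique_pole hy (not_le.1 h) (by omega))
  obtain ⟨a, ha⟩ := finite_value hy h1
  refine ⟨y - algebraMap ℂ E a, top_sub hy a, ha, ?_⟩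
  rw [ord_sub_pole (by omega), hyq]

theorem mob3 {x : E} (hx : ℂ⟮x⟯ = ⊤) {q1 q2 q3 : Place ℂ E} (h12 : q1 ≠ q2) (h13 : q1 ≠ q3)
    (h23 : q2 ≠ q3) :
    ∃ y : E, ℂ⟮y⟯ = ⊤ ∧ q1.ord y = 1 ∧ q2.ord (y - 1) = 1 ∧ q3.ord y = -1 := by
  obtain ⟨y, hy, h1, h3⟩ := mob2 hx h13
  have h2 : 0 ≤ q2.ord y := by
    by_contra h
    exact h23 (ord_unique_pole hy (not_le.1 h) (by omega))
  obtain ⟨a, ha⟩ := finite_value hy h2
  have ha0 : a ≠ 0 := by
    rintro rfl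
    rw [map_zero, sub_zero] at ha
    exact h12 (ord_unique_zero hy (by omega) (by omega))
  have hy0 : y ≠ 0 := by rintro rfl; rw [q1.ord_zero] at h1; omega
  have hai : (a⁻¹ : ℂ) ≠ 0 := inv_ne_zero ha0
  have hai' : algebraMap ℂ E a⁻¹ ≠ 0 := by simpa using ha0
  refine ⟨algebraMap ℂ E a⁻¹ * y, top_mul hy hai, ?_, ?_, ?_⟩
  · rw [q1.ord_mul hai' hy0, q1.ord_const hai, h1, zero_add]
  · have h4 : algebraMap ℂ E a⁻¹ * y - 1 = algebraMap ℂ E a⁻¹ * (y - algebraMap ℂ E a) := by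
      rw [mul_sub, ← map_mul, inv_mul_cancel₀ ha0, map_one]
    have h5 : y - algebraMap ℂ E a ≠ 0 := by
      intro h; rw [h, q2.ord_zero] at ha; omega
    rw [h4, q2.ord_mul hai' h5, q2.ord_const hai, ha, zero_add]
  · rw [q3.ord_mul hai' hy0, q3.ord_const hai, h3, zero_add]

theorem no_root_one (N : ℂ[X]) (z : ℂ) : ¬ (N.eval z = 0 ∧ (1 : ℂ[X]).eval z = 0) := by
  rintro ⟨-, h⟩
  rw [eval_one] at h
  exact one_ne_zero h

theorem value_eq {y : E} (hy : ℂ⟮y⟯ = ⊤) {q : Place ℂ E} {a b : ℂ}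
    (ha : q.ord (y - algebraMap ℂ E a) = 1) (hb : 0 < q.ord (y - algebraMap ℂ E b)) : a = b := by
  by_contra hne
  have h1 : q.ord (algebraMap ℂ E (a - b)) = 0 := q.ord_const (sub_ne_zero.2 hne)
  have h2 : algebraMap ℂ E (a - b) = (y - algebraMap ℂ E b) - (y - algebraMap ℂ E a) := by
    rw [map_sub]; ring
  have h3 : y - algebraMap ℂ E a ≠ 0 := by intro h; rw [h, q.ord_zero] at ha; omega
  have h4 : y - algebraMap ℂ E b ≠ 0 := by intro h; rw [h, q.ord_zero] at hb; omega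
  have h5 : Pool.Agent.W603.LV.Ge q 1 ((y - algebraMap ℂ E b) - (y - algebraMap ℂ E a)) :=
    Pool.Agent.W603.LV.Ge.sub (Or.inr (by omega)) (Or.inr (by omega))
  rw [← h2] at h5
  rcases h5 with h5 | h5
  · exact (map_ne_zero (algebraMap ℂ E)).2 (sub_ne_zero.2 hne) h5
  · omega

/-- **Covers of the projective line.** -/
theorem cover {x : E} (hx : ℂ⟮x⟯ = ⊤) (μ : Place ℂ E → ℕ) (A : Finset (Place ℂ E))
    (hA : ∀ q, q ∉ A → μ q = 1) (hsum : ∑ q ∈ A, (1 - 1 / (μ q : ℚ)) < 2) :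
    ∃ (y : E) (qi : Place ℂ E) (N D : ℂ[X]) (R : Place ℂ E → ℂ[X]), ℂ⟮y⟯ = ⊤ ∧ qi.ord y = -1 ∧
      (∀ z, ¬ (N.eval z = 0 ∧ D.eval z = 0)) ∧ ¬ (N.natDegree = 0 ∧ D.natDegree = 0) ∧
      R qi ^ (μ qi) = D ∧
      ∀ q, q ≠ qi → ∃ a : ℂ, q.ord (y - algebraMap ℂ E a) = 1 ∧ R q ^ (μ q) = N - C a * D := by
  classical
  set B := A.filter (fun q => μ q ≠ 1) with hB
  have hBμ : ∀ q, q ∉ B → μ q = 1 := by
    intro q hq
    by_contra h
    by_cases h2 : q ∈ A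
    · exact hq (Finset.mem_filter.2 ⟨h2, h⟩)
    · exact h (hA q h2)
  have hBs : ∑ q ∈ B, (1 - 1 / (μ q : ℚ)) < 2 := by
    refine lt_of_le_of_lt (le_of_eq ?_) hsum
    rw [hB, Finset.sum_filter]
    refine Finset.sum_congr rfl fun q _ => ?_
    by_cases h : μ q = 1
    · simp [h]
    · simp [h]
  have hterm : ∀ q ∈ B, (1 / 2 : ℚ) ≤ 1 - 1 / (μ q : ℚ) := by
    intro q hq
    have h1 := (Finset.mem_filter.1 hq).2
    by_cases h0 : μ q = 0
    · simp [h0]; norm_num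
    · have h2 : (2 : ℚ) ≤ μ q := by exact_mod_cast (by omega : 2 ≤ μ q)
      have h3 : (1 : ℚ) / μ q ≤ 1 / 2 := one_div_le_one_div_of_le (by norm_num) h2
      linarith
  have hcard : B.card ≤ 3 := by
    have h1 : (B.card : ℚ) * (1 / 2) ≤ ∑ q ∈ B, (1 - 1 / (μ q : ℚ)) := by
      rw [← nsmul_eq_mul]
      exact Finset.card_nsmul_le_sum _ _ _ hterm
    have h2 : (B.card : ℚ) < 4 := by linarith
    have h3 : B.card < 4 := by exact_mod_cast h2
    omega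
  have hfin : ∀ (y : E) (hy : ℂ⟮y⟯ = ⊤) (qi : Place ℂ E) (hqi : qi.ord y = -1) (q : Place ℂ E),
      q ≠ qi → ∃ a : ℂ, q.ord (y - algebraMap ℂ E a) = 1 := by
    intro y hy qi hqi q hq
    refine finite_value hy ?_
    by_contra h
    exact hq (ord_unique_pole hy (not_le.1 h) (by omega))
  rcases Nat.lt_or_ge B.card 2 with hc | hc
  · -- at most one special place
    obtain ⟨qi, hqi⟩ : ∃ qi : Place ℂ E, ∀ q, q ≠ qi → μ q = 1 := by
      rcases B.eq_empty_or_nonempty with h | ⟨q1, h1⟩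
      · obtain ⟨P, -, -⟩ := pole_unique hx
        exact ⟨P, fun q _ => hBμ q (by rw [h]; simp)⟩
      · refine ⟨q1, fun q hq => hBμ q fun h2 => hq ?_⟩
        exact Finset.card_le_one.1 (by omega) q h2 q1 h1
    obtain ⟨y, hy, hyq⟩ := mob1 hx qi
    choose! a ha using hfin y hy qi hyq
    refine ⟨y, qi, X, 1, fun q => if q = qi then 1 else X - C (a q), hy, hyq, no_root_one _, ?_, ?_,
      ?_⟩
    · rintro ⟨h, -⟩
      rw [natDegree_X] at h
      exact one_ne_zero h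
    · simp
    · intro q hq
      refine ⟨a q, ha q hq, ?_⟩
      simp [hq, hqi q hq]
  rcases Nat.lt_or_ge B.card 3 with hc2 | hc2
  · -- two special places
    obtain ⟨q1, q2, h12, hBe⟩ := Finset.card_eq_two.1 (by omega : B.card = 2)
    obtain ⟨p, qi, hpq, hBp, hp0⟩ : ∃ p qi : Place ℂ E, p ≠ qi ∧ B = {p, qi} ∧ μ p ≠ 0 := by
      by_cases h1 : μ q1 = 0
      · refine ⟨q2, q1, h12.symm, by rw [hBe, Finset.pair_comm], fun h2 => ?_⟩
        rw [hBe, Finset.sum_pair h12, h1, h2] at hBs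
        norm_num at hBs
      · exact ⟨q1, q2, h12, hBe, h1⟩
    obtain ⟨y, hy, hy1, hy2⟩ := mob2 hx hpq
    choose! a ha using hfin y hy qi hy2
    have hap : a p = 0 := by
      refine value_eq hy (ha p hpq) ?_
      rw [map_zero, sub_zero, hy1]
      exact one_pos
    refine ⟨y, qi, X ^ μ p, 1, fun q => if q = qi then 1 else if q = p then X else
      X ^ μ p - C (a q), hy, hy2, no_root_one _, ?_, ?_, ?_⟩
    · rintro ⟨h, -⟩
      rw [natDegree_X_pow] at h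
      exact hp0 h
    · simp
    · intro q hq
      refine ⟨a q, ha q hq, ?_⟩
      by_cases h : q = p
      · subst h
        simp [hq, hap]
      · have : μ q = 1 := hBμ q (by rw [hBp]; simp [h, hq])
        simp [hq, h, this]
  · -- three special places
    obtain ⟨q1, q2, q3, h12, h13, h23, hBe⟩ := Finset.card_eq_three.1 (by omega : B.card = 3)
    have hm : ∀ q ∈ B, μ q ≠ 1 := fun q hq => (Finset.mem_filter.1 hq).2
    have hs : (1 - 1 / (μ q1 : ℚ)) + ((1 - 1 / (μ q2 : ℚ)) + (1 - 1 / (μ q3 : ℚ))) < 2 := by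
      rw [hBe, Finset.sum_insert (by simp [h12, h13]), Finset.sum_pair h23] at hBs
      exact hBs
    have t1 := hterm q1 (by rw [hBe]; simp)
    have t2 := hterm q2 (by rw [hBe]; simp)
    have t3 := hterm q3 (by rw [hBe]; simp)
    have h01 : (1 : ℚ) - 1 / ((0 : ℕ) : ℚ) = 1 := by norm_num
    have n1 : μ q1 ≠ 0 := by intro h; rw [h, h01] at hs; linarith
    have n2 : μ q2 ≠ 0 := by intro h; rw [h, h01] at hs; linarith
    have n3 : μ q3 ≠ 0 := by intro h; rw [h, h01] at hs; linarith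
    have m1 := hm q1 (by rw [hBe]; simp)
    have m2 := hm q2 (by rw [hBe]; simp)
    have m3 := hm q3 (by rw [hBe]; simp)
    obtain ⟨A', B', C', h1, h2, h3⟩ := sph_of_lt (a := μ q1) (b := μ q2) (c := μ q3)
      (by omega) (by omega) (by omega) (by linarith)
    obtain ⟨y, hy, hy1, hy2, hy3⟩ := mob3 hx h12 h13 h23
    choose! a ha using hfin y hy q3 hy3
    have ha1 : a q1 = 0 := by
      refine value_eq hy (ha q1 h13) ?_
      rw [map_zero, sub_zero, hy1]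
      exact one_pos
    have ha2 : a q2 = 1 := by
      refine value_eq hy (ha q2 h23) ?_
      rw [map_one, hy2]
      exact one_pos
    refine ⟨y, q3, A' ^ μ q1, C' ^ μ q3, fun q => if q = q3 then C' else if q = q1 then A' else
      if q = q2 then B' else A' ^ μ q1 - C (a q) * C' ^ μ q3, hy, hy3, ?_, ?_, ?_, ?_⟩
    · rintro z ⟨h4, h5⟩
      rw [eval_pow] at h4 h5
      exact h2 z ⟨(pow_eq_zero_iff n1).1 h4, (pow_eq_zero_iff n3).1 h5⟩
    · rintro ⟨h4, h5⟩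
      exact h3 ⟨natDegree_pow_zero n1 h4, natDegree_pow_zero n3 h5⟩
    · simp
    · intro q hq
      refine ⟨a q, ha q hq, ?_⟩
      by_cases hq1 : q = q1
      · subst hq1
        simp [hq, ha1]
      by_cases hq2 : q = q2
      · subst hq2
        simp only [if_neg hq, if_neg hq1, if_true, ha2, map_one, one_mul]
        rw [← h1]; ring
      · have : μ q = 1 := hBμ q (by rw [hBe]; simp [hq, hq1, hq2])
        simp [hq, hq1, hq2, this]

end

end Pool.Agent.K4H40.TF
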