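import Pool.Agent.W602.GT.KDefs
import Pool.Agent.Helper386.D5V.Helper399_OverDefs

/-!
Toric fibrations: definitions.
-/

set_option autoImplicit false

open FF Pool.Agent.W602.GT

namespace Pool.Agent.K4H40.TF

variable {K : Type} [Field K] [Algebra ℂ K]

/-- Let `y` be the generic point of a closed subvariety `V` of `P ^ N` and `Q l` forms. The place `P`
has a centre on the open subvariety `X` of `V` where one of the `Q l` is not zero: some `Q l` does not
vanish at the centre of `P` on `V`. -/
def HasCentre {N : ℕ} {ι : Type} (y : Fin (N + 1) → K) (Q : ι → MvPolynomial (Fin (N + 1)) ℂ)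
    (P : Place ℂ K) : Prop :=
  ∃ l, MvPolynomial.aeval y (Q l) ≠ 0 ∧ ∃ j, y j ≠ 0 ∧ (∀ i, y i ≠ 0 → P.ord (y j) ≤ P.ord (y i)) ∧
    P.ord (MvPolynomial.aeval y (Q l)) = (Q l).totalDegree * P.ord (y j)

/-- The place `P` is trivial on the subfield `F`. -/
def TrivialOn (F : IntermediateField ℂ K) (P : Place ℂ K) : Prop :=
  ∀ f : F, f ≠ 0 → P.ord (f : K) = 0

/-- The order at `P` of the term with the exponents `m` of the polynomial `g` in the `t i` with
coefficients in `F`. -/
noncomputable def termOrd (F : IntermediateField ℂ K) {r : ℕ} (t : Fin r → K) (P : Place ℂ K)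
    (g : MvPolynomial (Fin r) F) (m : Fin r →₀ ℕ) : ℤ :=
  P.ord ((g.coeff m : F) : K) + ∑ i, (m i : ℤ) * P.ord (t i)

/-- The place `P` is toric with respect to `F` and `t`: the order of a polynomial in the `t i` with
coefficients in `F` is the least of the orders of its terms. -/
def IsToric (F : IntermediateField ℂ K) {r : ℕ} (t : Fin r → K) (P : Place ℂ K) : Prop :=
  ∀ g : MvPolynomial (Fin r) F, g ≠ 0 → ∃ m ∈ g.support,
    P.ord (MvPolynomial.aeval t g) = termOrd F t P g m ∧
    ∀ m' ∈ g.support, termOrd F t P g m ≤ termOrd F t P g m'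

/-- The multiplicity of the fibre over the point `q` of the curve with the function field `F`: the
least ramification index over `q` of a toric place which is not in the boundary `Bd`. It is `0`
(this stands for infinity) if there is no such place. -/
noncomputable def mult (F : IntermediateField ℂ K) {r : ℕ} (t : Fin r → K)
    (Bd : Place ℂ K → Prop) (q : Place ℂ F) : ℕ :=
  sInf {e : ℕ | ∃ P : Place ℂ K, Over P q e ∧ IsToric F t P ∧ ¬ Bd P}

end Pool.Agent.K4H40.TF
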