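import Pool.Agent.K4H40.TF.Vert2

/-!
Toric fibrations: the main theorem.
-/

set_option autoImplicit false
set_option linter.unusedSectionVars false
set_option linter.overlappingInstances false

open FF Pool.Agent.W602.GT Pool.Agent.W603.LV Pool.Agent.W619.PQ IntermediateField
open Pool.Agent.W619.PL (IsA1Uniruled LogKodairaNeg)

namespace Pool.Agent.K4H40.TF

theorem not_a1_of_kodGe {K : Type} [Field K] [Algebra ℂ K] [Algebra.EssFiniteType ℂ K] {n : ℕ}
    (htr : Algebra.trdeg ℂ K = n) {Bd : Place ℂ K → Prop} (h : KodGe ℂ K n Bd 0) :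
    ¬ IsA1Uniruled ℂ K n Bd := by
  intro hA
  obtain ⟨N0, hN0, ω, hω, D, hD, -⟩ := h
  refine hD (Pool.Agent.Y199.NN.neg_of_a1 htr hA N0 hN0 (ω 0) (hω 0).1 ?_ ?_ D)
  · intro v hv hb D' hD'
    exact (hω 0).2.2 v hv hb D' hD'
  · intro v hv _ D' hD'
    exact (hω 0).2.1 v hv D' hD'

/-- a function on a curve has finitely many zeros and poles -/
theorem finite_ord {F : Type} [Field F] [Algebra ℂ F] [IsFF ℂ F] {f : F} (hf : f ≠ 0) :
    ∃ S : Finset (Place ℂ F), ∀ q, q ∉ S → q.ord f = 0 := by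
  classical
  by_cases h : Transcendental ℂ f
  · have h' : Transcendental ℂ f⁻¹ := by
      intro h1
      apply h
      have := h1.inv
      rwa [inv_inv] at this
    obtain ⟨S, hS, -⟩ := zeros (k := ℂ) (K := F) h
    obtain ⟨S', hS', -⟩ := zeros (k := ℂ) (K := F) h'
    refine ⟨S ∪ S', fun q hq => ?_⟩
    rw [Finset.mem_union, not_or, hS, hS', q.ord_inv] at hq
    omega
  · refine ⟨∅, fun q _ => ?_⟩
    have h1 : IsAlgebraic ℂ f := by
      by_contra h2
      exact h h2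
    by_contra h2
    exact (q.transcendental_of_ord_ne h2) h1

section

variable {K : Type} [Field K] [Algebra ℂ K] {F : IntermediateField ℂ K} [IsFF ℂ F] {r : ℕ}
  {t : Fin r → K}

/-- the Gauss places over almost all points have order zero at a given function -/
theorem gauss_ord (htop : IntermediateField.adjoin F (Set.range t) = ⊤) {z : K} (hz : z ≠ 0) :
    ∃ S : Finset (Place ℂ F), ∀ q, q ∉ S → ∀ P : Place ℂ K, Over P q 1 → IsToric F t P →
      (∀ i, P.ord (t i) = 0) → P.ord z = 0 := by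
  classical
  obtain ⟨a, b, ha, hb, rfl⟩ := exists_quot htop hz
  have key : ∀ g : MvPolynomial (Fin r) F, MvPolynomial.aeval t g ≠ 0 →
      ∃ S : Finset (Place ℂ F), ∀ q, q ∉ S → ∀ P : Place ℂ K, Over P q 1 → IsToric F t P →
      (∀ i, P.ord (t i) = 0) → P.ord (MvPolynomial.aeval t g) = 0 := by
    intro g hg
    have hg0 : g ≠ 0 := by rintro rfl; exact hg (map_zero _)
    have h1 : ∀ m ∈ g.support, ∃ S : Finset (Place ℂ F), ∀ q, q ∉ S → q.ord (g.coeff m) = 0 :=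
      fun m hm => finite_ord (MvPolynomial.mem_support_iff.1 hm)
    choose! S hS using h1
    refine ⟨g.support.biUnion S, fun q hq P hPq hP hPt => ?_⟩
    obtain ⟨m, hm, h2, -⟩ := hP g hg0
    rw [h2, termOrd, Finset.sum_eq_zero (fun i _ => by rw [hPt i, mul_zero]), add_zero]
    have h3 : P.ord ((g.coeff m : F) : K) = (1 : ℕ) * q.ord (g.coeff m) := hPq.2 _
    rw [h3, hS m hm q (fun h4 => hq (Finset.mem_biUnion.2 ⟨m, hm, h4⟩)), mul_zero]
  obtain ⟨S1, h1⟩ := key a ha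
  obtain ⟨S2, h2⟩ := key b hb
  refine ⟨S1 ∪ S2, fun q hq P hPq hP hPt => ?_⟩
  rw [Finset.mem_union, not_or] at hq
  rw [P.ord_div ha hb, h1 q hq.1 P hPq hP hPt, h2 q hq.2 P hPq hP hPt, sub_zero]

/-- the Gauss places over almost all points have a centre -/
theorem gauss_centre (htop : IntermediateField.adjoin F (Set.range t) = ⊤) {N : ℕ} {ι : Type}
    {y : Fin (N + 1) → K} {Q : ι → MvPolynomial (Fin (N + 1)) ℂ} (hy : y ≠ 0)
    (hQ : ∃ l, MvPolynomial.aeval y (Q l) ≠ 0) :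
    ∃ S : Finset (Place ℂ F), ∀ q, q ∉ S → ∀ P : Place ℂ K, Over P q 1 → IsToric F t P →
      (∀ i, P.ord (t i) = 0) → HasCentre y Q P := by
  classical
  obtain ⟨l, hl⟩ := hQ
  obtain ⟨j, hj⟩ := Function.ne_iff.1 hy
  obtain ⟨S0, h0⟩ := gauss_ord htop hl
  have h1 : ∀ i, ∃ S : Finset (Place ℂ F), y i ≠ 0 → ∀ q, q ∉ S → ∀ P : Place ℂ K, Over P q 1 →
      IsToric F t P → (∀ i, P.ord (t i) = 0) → P.ord (y i) = 0 := by
    intro i
    by_cases hi : y i = 0
    · exact ⟨∅, fun h => absurd hi h⟩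
    · obtain ⟨S, hS⟩ := gauss_ord htop hi
      exact ⟨S, fun _ => hS⟩
  choose S hS using h1
  refine ⟨S0 ∪ Finset.univ.biUnion S, fun q hq P hPq hP hPt => ?_⟩
  rw [Finset.mem_union, not_or] at hq
  have h2 : ∀ i, y i ≠ 0 → P.ord (y i) = 0 := fun i hi =>
    hS i hi q (fun h3 => hq.2 (Finset.mem_biUnion.2 ⟨i, Finset.mem_univ _, h3⟩)) P hPq hP hPt
  refine ⟨l, hl, j, hj, fun i hi => ?_, ?_⟩
  · rw [h2 i hi, h2 j hj]
  · rw [h0 q hq.1 P hPq hP hPt, h2 j hj, mul_zero]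

/-- **Toric fibrations over curves.** -/
theorem main_tfae (ht : AlgebraicIndependent F t)
    (htop : IntermediateField.adjoin F (Set.range t) = ⊤) {N : ℕ} {ι : Type}
    {y : Fin (N + 1) → K} {Q : ι → MvPolynomial (Fin (N + 1)) ℂ} (hy : y ≠ 0)
    (hQ : ∃ l, MvPolynomial.aeval y (Q l) ≠ 0)
    {S : Set (Fin r → ℤ)} (hS0 : (0 : Fin r → ℤ) ∈ S)
    (hS : ∀ (k : ℕ) (u : Fin r → ℤ), 0 < k → (k • u ∈ S ↔ u ∈ S))
    (hH : ∀ P : Place ℂ K, TrivialOn F P → (HasCentre y Q P ↔ (fun i => P.ord (t i)) ∈ S)) :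
    [¬ KodGe ℂ K (r + 1) (fun P => ¬ HasCentre y Q P) 0,
      ¬ Psef ℂ K (r + 1) (fun P => ¬ HasCentre y Q P),
      IsA1Uniruled ℂ K (r + 1) (fun P => ¬ HasCentre y Q P),
      S ≠ {0} ∨ ((∃ x : F, ℂ⟮x⟯ = ⊤) ∧
        ∑ᶠ q : Place ℂ F, (1 - 1 / (mult F t (fun P => ¬ HasCentre y Q P) q : ℚ)) < 2)].TFAE := by
  classical
  set Bd : Place ℂ K → Prop := fun P => ¬ HasCentre y Q P with hBd
  have hess := ess_K (F := F) (t := t) htop
  have hhor0 : ∀ P : Place ℂ K, TrivialOn F P → (∀ i, P.ord (t i) = 0) → ¬ Bd P := by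
    intro P hP hPt
    rw [hBd]
    simp only [not_not]
    rw [hH P hP]
    have : (fun i => P.ord (t i)) = 0 := by
      funext i; exact hPt i
    rw [this]
    exact hS0
  -- the sum of the multiplicities is a finite sum for rational `F`
  have hsumA : ∀ x : F, ℂ⟮x⟯ = ⊤ → ∃ A : Finset (Place ℂ F),
      (∀ q, q ∉ A → ∀ P : Place ℂ K, Over P q 1 → IsToric F t P → (∀ i, P.ord (t i) = 0) → ¬ Bd P) ∧
      (∀ q, q ∉ A → mult F t Bd q = 1) ∧
      ∑ᶠ q : Place ℂ F, (1 - 1 / (mult F t Bd q : ℚ)) = ∑ q ∈ A, (1 - 1 / (mult F t Bd q : ℚ)) := by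
    intro x hx
    obtain ⟨A, hA⟩ := gauss_centre (F := F) (t := t) htop hy hQ
    have hA' : ∀ q, q ∉ A → ∀ P : Place ℂ K, Over P q 1 → IsToric F t P →
        (∀ i, P.ord (t i) = 0) → ¬ Bd P := by
      intro q hq P h1 h2 h3
      rw [hBd]
      simp only [not_not]
      exact hA q hq P h1 h2 h3
    have hA1 : ∀ q, q ∉ A → mult F t Bd q = 1 := by
      intro q hq
      obtain ⟨P, h1, h2, h3⟩ := gauss_exists ht htop hx q
      have := mult_le h1 h2 (hA' q hq P h1 h2 h3)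
      omega
    refine ⟨A, hA', hA1, ?_⟩
    apply finsum_eq_sum_of_support_subset
    intro q hq
    by_contra h1
    rw [Function.mem_support] at hq
    apply hq
    rw [hA1 q (by simpa using h1)]
    norm_num
  have h4 : (S ≠ {0} ∨ ((∃ x : F, ℂ⟮x⟯ = ⊤) ∧
      ∑ᶠ q : Place ℂ F, (1 - 1 / (mult F t Bd q : ℚ)) < 2)) →
      ¬ Psef ℂ K (r + 1) Bd ∧ IsA1Uniruled ℂ K (r + 1) Bd := by
    intro h
    by_cases hS1 : S = {0}
    · obtain ⟨⟨x, hx⟩, hsum⟩ := h.resolve_left (fun h => h hS1)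
      obtain ⟨A, hA, hA1, hA2⟩ := hsumA x hx
      rw [hA2] at hsum
      exact vertical ht htop hhor0 hx A hA hA1 hsum
    · obtain ⟨u, huS, hu⟩ : ∃ u ∈ S, u ≠ 0 := by
        by_contra hcon
        push Not at hcon
        apply hS1
        ext u
        rw [Set.mem_singleton_iff]
        exact ⟨hcon u, fun h => by rw [h]; exact hS0⟩
      refine horizontal ht htop hu (fun P a w hP hPt => ?_)
      rintro ⟨g, hg, hgw⟩
      rw [hBd]
      simp only [not_not]
      rw [hH P hP]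
      have hw : w ∈ S := by
        rw [← hS g w hg]
        have : g • w = u := by
          funext i
          rw [Pi.smul_apply, hgw i, nsmul_eq_mul]
        rw [this]
        exact huS
      have h1 : (fun i => P.ord (t i)) = a • w := by
        funext i
        rw [Pi.smul_apply, hPt i, nsmul_eq_mul]
      rw [h1]
      rcases Nat.eq_zero_or_pos a with rfl | ha
      · rw [zero_smul]; exact hS0
      · exact (hS a w ha).2 hw
  have h1 : ¬ KodGe ℂ K (r + 1) Bd 0 → (S ≠ {0} ∨ ((∃ x : F, ℂ⟮x⟯ = ⊤) ∧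
      ∑ᶠ q : Place ℂ F, (1 - 1 / (mult F t Bd q : ℚ)) < 2)) := by
    intro hk
    by_contra hcon
    rw [not_or, not_not] at hcon
    obtain ⟨hS1, hcon⟩ := hcon
    apply hk
    have hhor : ∀ P : Place ℂ K, TrivialOn F P → ¬ Bd P → ∀ i, P.ord (t i) = 0 := by
      intro P hP hb i
      rw [hBd] at hb
      simp only [not_not] at hb
      rw [hH P hP, hS1, Set.mem_singleton_iff] at hb
      exact congrFun hb i
    by_cases hF : ∃ x : F, ℂ⟮x⟯ = ⊤
    · obtain ⟨x, hx⟩ := hF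
      obtain ⟨A, hA, hA1, hA2⟩ := hsumA x hx
      refine kod_rational ht htop hhor hx A hA1 ?_
      rw [← hA2]
      by_contra h3
      exact hcon ⟨⟨x, hx⟩, not_le.1 h3⟩
    · exact kod_irrational ht htop hhor hF
  tfae_have 4 → 2 := fun h => (h4 h).1
  tfae_have 4 → 3 := fun h => (h4 h).2
  tfae_have 2 → 1 := fun h hk => h (psef_of_kodGe hk)
  tfae_have 3 → 1 := fun h hk => not_a1_of_kodGe (trdeg_K ht htop) hk h
  tfae_have 1 → 4 := h1
  tfae_finish

end

end Pool.Agent.K4H40.TF
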