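import Pool.Agent.K4H40.TF.Toric
import Pool.Agent.W619.PL.LCurve
import Pool.Agent.W602.GT.KDefs

/-!
Toric fibrations: construction of logarithmic pluricanonical forms. (The theorem `exists_restrict` is
taken from the starting file `Pool/Agent/W619/Y/LRes`.)
-/

set_option autoImplicit false
set_option linter.unusedSectionVars false
set_option linter.overlappingInstances false

open FF Pool.Agent.W603.LV Pool.Agent.W619.PQ Pool.Agent.W619.TW Pool.Agent.W602.GT IntermediateField

namespace Pool.Agent.K4H40.TF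

theorem exists_restrict {k k' E L : Type*} [Field k] [Field k'] [Field E] [Algebra k' E] [Field L]
    [Algebra k L] (w : Place k' E) (φ : L →+* E)
    (hk : ∀ c : k, c ≠ 0 → w.ord (φ (algebraMap k L c)) = 0) {f0 : L} (h0 : w.ord (φ f0) ≠ 0) :
    ∃ (v : Place k L) (a : ℕ), 0 < a ∧ ∀ f, w.ord (φ f) = a * v.ord f := by
  classical
  have hφ : ∀ {f : L}, f ≠ 0 → φ f ≠ 0 := fun hf => (map_ne_zero_iff φ φ.injective).2 hf
  have hf0 : f0 ≠ 0 := by rintro rfl; rw [map_zero, w.ord_zero] at h0; exact h0 rfl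
  have hz : ∀ (f : L) (q : ℤ), f ≠ 0 → w.ord (φ (f ^ q)) = q * w.ord (φ f) := by
    intro f q hf
    have h1 : w.ord (1 : E) = 0 := by
      have := w.ord_mul (one_ne_zero (α := E)) one_ne_zero
      rw [mul_one] at this
      omega
    have hpow : ∀ (z : E), z ≠ 0 → ∀ m : ℕ, w.ord (z ^ m) = m * w.ord z := by
      intro z hz m
      induction m with
      | zero => rw [pow_zero, h1]; simp
      | succ m ih => rw [pow_succ, w.ord_mul (pow_ne_zero _ hz) hz, ih]; push_cast; ring
    rw [map_zpow₀]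
    rcases q with q | q
    · change w.ord ((φ f) ^ ((q : ℕ) : ℤ)) = _
      rw [zpow_natCast, hpow _ (hφ hf)]
      simp
    · rw [zpow_negSucc]
      have h2 := w.ord_mul (pow_ne_zero (q + 1) (hφ hf)) (inv_ne_zero (pow_ne_zero (q + 1) (hφ hf)))
      rw [mul_inv_cancel₀ (pow_ne_zero _ (hφ hf)), h1, hpow _ (hφ hf)] at h2
      rw [Int.negSucc_eq]
      push_cast at h2 ⊢
      linarith
  let P : ℕ → Prop := fun a => 0 < a ∧ ∃ f : L, f ≠ 0 ∧ w.ord (φ f) = a
  have hP : ∃ a, P a := by
    refine ⟨(w.ord (φ f0)).natAbs, Int.natAbs_pos.2 h0, ?_⟩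
    rcases le_total 0 (w.ord (φ f0)) with h | h
    · exact ⟨f0, hf0, by omega⟩
    · refine ⟨f0 ^ (-1 : ℤ), zpow_ne_zero _ hf0, ?_⟩
      rw [hz f0 (-1) hf0]
      omega
  obtain ⟨ha, g, hg0, hg⟩ : P (Nat.find hP) := Nat.find_spec hP
  have hmin : ∀ b : ℕ, P b → Nat.find hP ≤ b := fun b hb => Nat.find_min' hP hb
  generalize Nat.find hP = a at ha hg hmin
  have ha' : (0 : ℤ) < a := by exact_mod_cast ha
  have hdvd : ∀ f : L, (a : ℤ) ∣ w.ord (φ f) := by
    intro f
    by_cases hf : f = 0
    · rw [hf, map_zero, w.ord_zero]; exact dvd_zero _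
    by_contra hnd
    have h1 : w.ord (φ f) % a ≠ 0 := fun h => hnd (Int.dvd_of_emod_eq_zero h)
    have h2 : 0 ≤ w.ord (φ f) % a := Int.emod_nonneg _ ha'.ne'
    have h3 : w.ord (φ f) % a < a := Int.emod_lt_of_pos _ ha'
    have h4 := hmin (w.ord (φ f) % a).toNat ⟨by omega, f * g ^ (-(w.ord (φ f) / a)),
      mul_ne_zero hf (zpow_ne_zero _ hg0), by
        rw [map_mul, w.ord_mul (hφ hf) (hφ (zpow_ne_zero _ hg0)), hz g _ hg0, hg]
        have h5 := Int.emod_add_mul_ediv (w.ord (φ f)) a
        rw [Int.toNat_of_nonneg h2]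
        linarith⟩
    omega
  choose o ho using hdvd
  have hcan : ∀ {x y : ℤ}, (a : ℤ) * x = a * y → x = y := fun h => mul_left_cancel₀ ha'.ne' h
  refine ⟨{ ord := o
            ord_zero := ?_
            ord_mul := ?_
            ord_add := ?_
            ord_const := ?_
            surj := ?_ }, a, ha, ho⟩
  · apply hcan
    rw [← ho, map_zero, w.ord_zero, mul_zero]
  · intro f f' hf hf'
    apply hcan
    rw [← ho, map_mul, w.ord_mul (hφ hf) (hφ hf'), ho, ho]
    ring
  · intro f f' hf hf' hff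
    have h1 := w.ord_add (hφ hf) (hφ hf') (by rw [← map_add]; exact hφ hff)
    rw [← map_add, ho, ho, ho] at h1
    have h2 : min ((a : ℤ) * o f) (a * o f') = a * min (o f) (o f') :=
      (mul_min_of_nonneg _ _ ha'.le).symm
    rw [h2] at h1
    exact le_of_mul_le_mul_left h1 ha'
  · intro c hc
    apply hcan
    rw [← ho, hk c hc, mul_zero]
  · refine ⟨g, hg0, hcan ?_⟩
    rw [← ho, hg, mul_one]

/-- the transcendence basis of `K` over `F` -/
theorem basis_F {K : Type} [Field K] [Algebra ℂ K] {F : IntermediateField ℂ K} {r : ℕ}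
    {t : Fin r → K} (ht : AlgebraicIndependent F t)
    (htop : IntermediateField.adjoin F (Set.range t) = ⊤) : IsTranscendenceBasis F t := by
  rw [ht.isTranscendenceBasis_iff_isAlgebraic]
  refine alg_adjoin fun z => ?_
  have h1 : z ∈ IntermediateField.adjoin F (Set.range t) := by rw [htop]; trivial
  exact isAlgebraic_algebraMap (⟨z, h1⟩ : IntermediateField.adjoin F (Set.range t))

/-- the transcendence basis of `K` over `ℂ` -/
theorem basis_K {K : Type} [Field K] [Algebra ℂ K] {F : IntermediateField ℂ K} [IsFF ℂ F] {r : ℕ}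
    {t : Fin r → K} (ht : AlgebraicIndependent F t)
    (htop : IntermediateField.adjoin F (Set.range t) = ⊤) {x : F} (hx : Transcendental ℂ x) :
    IsTranscendenceBasis ℂ (Fin.cons (x : K) t : Fin (r + 1) → K) := by
  have h1 := (IsFF.basis hx).sumElim_comp (basis_F ht htop)
  let e : Fin (r + 1) ≃ Fin r ⊕ Unit :=
    (finSuccEquiv r).trans (Equiv.optionEquivSumPUnit (Fin r))
  refine (isTranscendenceBasis_equiv' e ?_).2 h1
  funext i
  refine Fin.cases ?_ (fun j => ?_) i
  · simp [e]
  · simp [e]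

section

variable {K : Type} [Field K] [Algebra ℂ K] {F : IntermediateField ℂ K} {r : ℕ}
  {t : Fin r → K}

/-- a place is trivial on `F` or lies over a place of `F` -/
theorem trivial_or_over (F : IntermediateField ℂ K) (P : Place ℂ K) :
    TrivialOn F P ∨ ∃ (q : Place ℂ F) (e : ℕ), Over P q e := by
  by_cases h : TrivialOn F P
  · exact Or.inl h
  right
  unfold TrivialOn at h
  push Not at h
  obtain ⟨f, hf0, hf⟩ := h
  obtain ⟨v, a, ha, hv⟩ := exists_restrict (k := ℂ) P (algebraMap F K) (fun c hc => by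
    have : algebraMap F K (algebraMap ℂ F c) = algebraMap ℂ K c := rfl
    rw [this]
    exact P.ord_const hc) (f0 := f) hf
  exact ⟨v, a, ha, hv⟩

variable [IsFF ℂ F]

/-- a derivation of `K` on the curve `F` -/
theorem der_on_F {x : F} (hx : Transcendental ℂ x) {D0 : Derivation ℂ F F} (hD0 : D0 x = 1)
    (D : Derivation ℂ K K) (f : F) : D (f : K) = (D0 f : K) * D (x : K) := by
  have h1 := der_zero ((D.compAlgebraMap F) -
    (D (x : K)) • ((Algebra.linearMap F K).compDer D0)) (fun _ : Unit => x) (IsFF.basis hx)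
    (fun _ => by
      change D (x : K) - D (x : K) * ((D0 x : F) : K) = 0
      rw [hD0]
      change D (x : K) - D (x : K) * 1 = 0
      ring) f
  change D (f : K) - D (x : K) * ((D0 f : F) : K) = 0 at h1
  rw [sub_eq_zero.1 h1]
  ring

/-- the matrix of the form -/
noncomputable def mat (x : K) (t : Fin r → K) (D : Fin (r + 1) → Derivation ℂ K K) :
    Matrix (Fin (r + 1)) (Fin (r + 1)) K :=
  Matrix.of fun j i => (Fin.cons (D j x) (fun l => D j (t l) / t l) : Fin (r + 1) → K) i

/-- the matrix at a place over `q` -/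
theorem mat_eq {x : F} (hx : Transcendental ℂ x) {D0 : Derivation ℂ F F} (hD0 : D0 x = 1)
    {u : F} (hu0 : u ≠ 0) (hDu : D0 u ≠ 0) (D : Fin (r + 1) → Derivation ℂ K K)
    {z : Fin (r + 1) → K} (hz : z = Fin.cons (u : K) t) :
    (mat (x : K) t D).det = (u : K) / (D0 u : K) *
      (Matrix.of fun j i => D j (z i) / z i).det := by
  classical
  have h1 : mat (x : K) t D = (Matrix.of fun j i => D j (z i) / z i) *
      Matrix.diagonal (Fin.cons ((u : K) / (D0 u : K)) (fun _ => 1) : Fin (r + 1) → K) := by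
    ext j i
    rw [Matrix.mul_diagonal, mat, Matrix.of_apply, Matrix.of_apply, hz]
    refine Fin.cases ?_ (fun l => ?_) i
    · simp only [Fin.cons_zero]
      rw [der_on_F hx hD0 (D j) u]
      have h2 : (u : K) ≠ 0 := fun h => hu0 (Subtype.ext h)
      have h3 : (D0 u : K) ≠ 0 := fun h => hDu (Subtype.ext h)
      field_simp
    · simp only [Fin.cons_succ, mul_one]
  rw [h1, Matrix.det_mul, Matrix.det_diagonal, Fin.prod_univ_succ]
  simp only [Fin.cons_zero, Fin.cons_succ, Finset.prod_const_one, mul_one]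
  ring

/-- **Logarithmic forms.** -/
theorem kod_of_form {x : F} (hx : Transcendental ℂ x) {D0 : Derivation ℂ F F} (hD0 : D0 x = 1)
    (ht : AlgebraicIndependent F t) (htop : IntermediateField.adjoin F (Set.range t) = ⊤)
    {Bd : Place ℂ K → Prop} {m : ℕ} (hm : 0 < m) {c : F} (hc : c ≠ 0)
    (hβ : ∀ q : Place ℂ F, 0 ≤ q.ord c + m * (1 - vo q D0))
    (hβ2 : ∀ (q : Place ℂ F) (P : Place ℂ K) (e : ℕ), Over P q e → IsToric F t P → ¬ Bd P →
      (m : ℤ) ≤ e * (q.ord c + m * (1 - vo q D0)))
    (hhor : ∀ P : Place ℂ K, TrivialOn F P → ¬ Bd P → ∀ i, P.ord (t i) = 0) :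
    KodGe ℂ K (r + 1) Bd 0 := by
  classical
  have ht0 : ∀ i, t i ≠ 0 := fun i => ht.ne_zero i
  have hD0ne : D0 ≠ 0 := by
    rintro rfl
    simp at hD0
  have hcK : (c : K) ≠ 0 := fun h => hc (Subtype.ext h)
  have hx0 : x ≠ 0 := by
    rintro rfl
    exact hx isAlgebraic_zero
  let ω : (Fin (r + 1) → Derivation ℂ K K) → K := fun D => (c : K) * (mat (x : K) t D).det ^ m
  -- the basic estimate over a place of `F`
  have key : ∀ (P : Place ℂ K) (q : Place ℂ F) (e : ℕ), Over P q e → ∀ (δ : ℤ)
      (D : Fin (r + 1) → Derivation ℂ K K) (z : Fin (r + 1) → K),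
      z = Fin.cons ((unif q : F) : K) t →
      Ge P δ (Matrix.of fun j i => D j (z i) / z i).det →
      Ge P (e * (q.ord c + m * (1 - vo q D0)) + m * δ) (ω D) := by
    intro P q e hPq δ D z hz hge
    have hu0 : unif q ≠ 0 := by
      intro h
      have := ord_unif q
      rw [h, q.ord_zero] at this
      omega
    have hDu : D0 (unif q) ≠ 0 := der_pi_ne_zero hD0ne q (ord_unif q)
    have h1 : ω D = (c : K) * ((unif q : F) / (D0 (unif q)) : F) ^ m *
        (Matrix.of fun j i => D j (z i) / z i).det ^ m := by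
      change (c : K) * (mat (x : K) t D).det ^ m = _
      rw [mat_eq hx hD0 hu0 hDu D hz, mul_pow]
      push_cast
      ring
    have h2 : Ge P (e * (q.ord c + m * (1 - vo q D0)))
        ((c : K) * (((unif q : F) / (D0 (unif q)) : F) : K) ^ m) := by
      have h3 : Ge q (q.ord c + m * (1 - vo q D0)) (c * ((unif q : F) / (D0 (unif q))) ^ m) := by
        right
        rw [q.ord_mul hc (pow_ne_zero _ (div_ne_zero hu0 hDu)), q.ord_pow, q.ord_div hu0 hDu,
          ord_unif]
        rfl
      have h4 := over_ge hPq h3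
      push_cast at h4 ⊢
      exact h4
    rw [h1]
    exact h2.mul (hge.pow m)
  have hlogz : ∀ (P : Place ℂ K) (D : Fin (r + 1) → Derivation ℂ K K), (∀ j, DerLog P (D j)) →
      ∀ z : Fin (r + 1) → K, Ge P 0 (Matrix.of fun j i => D j (z i) / z i).det := by
    intro P D hD z
    exact ge_det P _ fun j i => hD j (z i)
  -- the estimate at the places which are trivial on `F`
  have keyH : ∀ (P : Place ℂ K), TrivialOn F P → ∀ (D : Fin (r + 1) → Derivation ℂ K K),
      (∀ j, Ge P 0 (D j (x : K))) → (∀ j l, Ge P 0 (D j (t l) / t l)) → Ge P 0 (ω D) := by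
    intro P hP D h1 h2
    have h3 : Ge P 0 (mat (x : K) t D).det := by
      refine ge_det P _ fun j i => ?_
      rw [mat, Matrix.of_apply]
      refine Fin.cases ?_ (fun l => ?_) i
      · simp only [Fin.cons_zero]; exact h1 j
      · simp only [Fin.cons_succ]; exact h2 j l
    have h4 : Ge P 0 (c : K) := Or.inr (hP c hc).ge
    have := h4.mul (h3.pow m)
    simpa using this
  have hpluri : IsPluri m ω := by
    intro A D
    have h1 : mat (x : K) t (fun i => ∑ j, A i j • D j) = A * mat (x : K) t D := by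
      have happ : ∀ (i : Fin (r + 1)) (f : K), (∑ j, A i j • D j) f = ∑ j, A i j * D j f := by
        intro i f
        have : ∀ s : Finset (Fin (r + 1)), (∑ j ∈ s, A i j • D j) f =
            ∑ j ∈ s, A i j * D j f := by
          intro s
          induction s using Finset.induction_on with
          | empty => simp
          | insert a s ha ih =>
            rw [Finset.sum_insert ha, Finset.sum_insert ha, ← ih]
            rfl
        exact this _
      ext i l
      rw [Matrix.mul_apply]
      simp only [mat, Matrix.of_apply]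
      refine Fin.cases ?_ (fun l' => ?_) l
      · simp only [Fin.cons_zero]
        rw [happ]
      · simp only [Fin.cons_succ]
        rw [happ, Finset.sum_div]
        refine Finset.sum_congr rfl fun j _ => ?_
        ring
    change (c : K) * (mat (x : K) t (fun i => ∑ j, A i j • D j)).det ^ m = A.det ^ m * _
    rw [h1, Matrix.det_mul, mul_pow]
    change _ = A.det ^ m * ((c : K) * (mat (x : K) t D).det ^ m)
    ring
  have hlog : ∀ P : Place ℂ K, LogAt P ω := by
    intro P D hD
    rcases trivial_or_over F P with hP | ⟨q, e, hPq⟩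
    · refine keyH P hP D (fun j => ?_) (fun j l => hD j (t l))
      have hxK : (x : K) ≠ 0 := fun h => hx0 (Subtype.ext h)
      have h1 : D j (x : K) = (x : K) * (D j (x : K) / (x : K)) := by field_simp
      rw [h1]
      have h2 : Ge P 0 (x : K) := Or.inr (hP x hx0).ge
      have := h2.mul (hD j (x : K))
      simpa using this
    · have h1 := key P q e hPq 0 D _ rfl (hlogz P D hD _)
      refine h1.mono ?_
      have h2 := hβ q
      have h3 : (0 : ℤ) ≤ e := by positivity
      have h4 := mul_nonneg h3 h2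
      simpa using h4
  have hreg : ∀ P : Place ℂ K, ¬ Bd P → RegAt P ω := by
    intro P hBd D hD
    rcases trivial_or_over F P with hP | ⟨q, e, hPq⟩
    · refine keyH P hP D (fun j => hD j _ (Or.inr (hP x hx0).ge)) (fun j l => ?_)
      exact der_unit (hD j) (hhor P hP hBd l)
    · have hz0 : ∀ i, (Fin.cons ((unif q : F) : K) t : Fin (r + 1) → K) i ≠ 0 := by
        intro i
        refine Fin.cases ?_ (fun j => ?_) i
        · intro h
          have h1 : unif q = 0 := Subtype.ext h
          have h2 := ord_unif q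
          rw [h1, q.ord_zero] at h2
          omega
        · exact ht0 j
      have h2 := hβ q
      have h3 : (0 : ℤ) ≤ e := by positivity
      by_cases hdet : Ge P 0 (Matrix.of fun j i => D j
          ((Fin.cons ((unif q : F) : K) t : Fin (r + 1) → K) i) /
            (Fin.cons ((unif q : F) : K) t : Fin (r + 1) → K) i).det
      · have h1 := key P q e hPq 0 D _ rfl hdet
        refine h1.mono ?_
        have h4 := mul_nonneg h3 h2
        simpa using h4
      · have htor := toric_of_not_reg hPq ht0 (ord_unif q) D hD rfl hdet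
        have h1 := key P q e hPq (-1) D _ rfl (det_log P D hD _ hz0)
        refine h1.mono ?_
        have h4 := hβ2 q P e hPq htor hBd
        linarith
  -- a nonzero value
  have hbasis : IsTranscendenceBasis ℂ (Fin.cons (x : K) t : Fin (r + 1) → K) :=
    basis_K ht htop hx
  obtain ⟨E, hE⟩ : ∃ E : Fin (r + 1) → Derivation ℂ K K, ∀ j i,
      E j ((Fin.cons (x : K) t : Fin (r + 1) → K) i) = if i = j then 1 else 0 := by
    choose E hE using fun j => exists_dual (k := ℂ) (Fin.cons (x : K) t : Fin (r + 1) → K) hbasis j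
    exact ⟨E, hE⟩
  have hne : ω E ≠ 0 := by
    refine mul_ne_zero hcK (pow_ne_zero _ ?_)
    have h1 : mat (x : K) t E = Matrix.diagonal (Fin.cons 1 (fun l => (t l)⁻¹) : Fin (r + 1) → K) := by
      ext j i
      simp only [mat, Matrix.of_apply, Matrix.diagonal_apply]
      refine Fin.cases ?_ (fun l => ?_) i
      · simp only [Fin.cons_zero]
        have := hE j 0
        rw [Fin.cons_zero] at this
        rw [this]
        by_cases h : j = 0
        · subst h; simp
        · rw [if_neg (fun h' => h h'.symm), if_neg h]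
      · simp only [Fin.cons_succ]
        have := hE j l.succ
        rw [Fin.cons_succ] at this
        rw [this]
        by_cases h : j = l.succ
        · subst h; simp
        · rw [if_neg (fun h' => h h'.symm), if_neg h, zero_div]
    rw [h1, Matrix.det_diagonal]
    refine Finset.prod_ne_zero_iff.2 fun i _ => ?_
    refine Fin.cases ?_ (fun l => ?_) i
    · simp
    · simpa using ht0 l
  exact ⟨m, hm, fun _ => ω, fun _ => ⟨hpluri, fun P _ => hlog P, fun P _ h => hreg P h⟩, E, hne,
    algebraicIndependent_empty_type⟩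

/-- the multiplicity is a lower bound for the ramification of the toric places which are not in
the boundary -/
theorem mult_le {Bd : Place ℂ K → Prop} {q : Place ℂ F} {P : Place ℂ K} {e : ℕ}
    (h : Over P q e) (hP : IsToric F t P) (hB : ¬ Bd P) : 1 ≤ mult F t Bd q ∧ mult F t Bd q ≤ e := by
  have h1 : mult F t Bd q ∈ {e : ℕ | ∃ P : Place ℂ K, Over P q e ∧ IsToric F t P ∧ ¬ Bd P} :=
    Nat.sInf_mem ⟨e, P, h, hP, hB⟩
  refine ⟨?_, Nat.sInf_le ⟨P, h, hP, hB⟩⟩
  obtain ⟨P', h2, -, -⟩ := h1
  exact h2.1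

/-- irrational base curve -/
theorem kod_irrational (ht : AlgebraicIndependent F t)
    (htop : IntermediateField.adjoin F (Set.range t) = ⊤) {Bd : Place ℂ K → Prop}
    (hhor : ∀ P : Place ℂ K, TrivialOn F P → ¬ Bd P → ∀ i, P.ord (t i) = 0)
    (hF : ¬ ∃ x : F, ℂ⟮x⟯ = ⊤) : KodGe ℂ K (r + 1) Bd 0 := by
  obtain ⟨x, hx⟩ := IsFF.exists_transcendental (k := ℂ) (K := F)
  obtain ⟨D0, hD0, hD0x⟩ := exists_ddx hx
  obtain ⟨f, hf0, hf⟩ := exists_regular hF hD0
  refine kod_of_form hx hD0x ht htop (m := 1) one_pos hf0 (fun q => ?_) (fun q P e h1 _ _ => ?_) hhor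
  · have := hf q
    push_cast
    linarith
  · have h2 := hf q
    have h3 : (1 : ℤ) ≤ e := by exact_mod_cast h1.1
    have h4 : (1 : ℤ) ≤ q.ord f + (1 : ℕ) * (1 - vo q D0) := by push_cast; linarith
    push_cast at h4 ⊢
    nlinarith

/-- rational base curve -/
theorem kod_rational (ht : AlgebraicIndependent F t)
    (htop : IntermediateField.adjoin F (Set.range t) = ⊤) {Bd : Place ℂ K → Prop}
    (hhor : ∀ P : Place ℂ K, TrivialOn F P → ¬ Bd P → ∀ i, P.ord (t i) = 0)
    {x : F} (hx : ℂ⟮x⟯ = ⊤) (A : Finset (Place ℂ F)) (hA : ∀ q, q ∉ A → mult F t Bd q = 1)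
    (hsum : (2 : ℚ) ≤ ∑ q ∈ A, (1 - 1 / (mult F t Bd q : ℚ))) : KodGe ℂ K (r + 1) Bd 0 := by
  classical
  obtain ⟨D0, hD0, hD0x⟩ := exists_ddx (transcendental_of_top hx)
  set μ : Place ℂ F → ℕ := mult F t Bd with hμ
  set m : ℕ := ∏ q ∈ A.filter (fun q => μ q ≠ 0), μ q with hm
  have hm1 : 0 < m := Finset.prod_pos fun q hq => Nat.pos_of_ne_zero (Finset.mem_filter.1 hq).2
  have hdvd : ∀ q ∈ A, μ q ≠ 0 → μ q ∣ m := fun q hq h =>
    Finset.dvd_prod_of_mem _ (Finset.mem_filter.2 ⟨hq, h⟩)
  let ρ : Place ℂ F → ℤ := fun q => if μ q = 0 then m else m - (m / μ q : ℕ)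
  have hρ : ∀ q ∈ A, ((ρ q : ℤ) : ℚ) = m * (1 - 1 / (μ q : ℚ)) := by
    intro q hq
    by_cases h : μ q = 0
    · simp [ρ, h]
    · obtain ⟨a, ha⟩ := hdvd q hq h
      have h1 : m / μ q = a := by rw [ha, Nat.mul_div_cancel_left _ (Nat.pos_of_ne_zero h)]
      have h2 : (μ q : ℚ) ≠ 0 := by exact_mod_cast h
      simp only [ρ, if_neg h, h1]
      push_cast
      rw [ha]
      push_cast
      field_simp
  obtain ⟨c, hc, hcq⟩ := Pool.Agent.W619.PL.exists_form_gen hx A ρ m 0 (by
    have h1 : ((2 * m : ℤ) : ℚ) ≤ ((∑ q ∈ A, ρ q : ℤ) : ℚ) := by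
      push_cast
      rw [Finset.sum_congr rfl hρ, ← Finset.mul_sum]
      have h2 : (0 : ℚ) ≤ m := by positivity
      nlinarith
    have h3 : (2 * m : ℤ) ≤ ∑ q ∈ A, ρ q := by exact_mod_cast h1
    simpa using h3) hD0 hD0x
  have hcq' : ∀ q : Place ℂ F, (m : ℤ) - (if q ∈ A then ρ q else 0) ≤
      q.ord c + m * (1 - vo q D0) := by
    intro q
    have := hcq 0 le_rfl q
    simpa using this
  have hβ : ∀ q : Place ℂ F, 0 ≤ q.ord c + m * (1 - vo q D0) := by
    intro q
    refine le_trans ?_ (hcq' q)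
    by_cases hq : q ∈ A
    · rw [if_pos hq]
      by_cases h : μ q = 0
      · simp [ρ, h]
      · simp only [ρ, if_neg h]
        have : (0 : ℤ) ≤ ((m / μ q : ℕ) : ℤ) := by positivity
        linarith
    · rw [if_neg hq]
      simp
  refine kod_of_form (transcendental_of_top hx) hD0x ht htop hm1 hc hβ
    (fun q P e h1 h2 h3 => ?_) hhor
  obtain ⟨h4, h5⟩ := mult_le h1 h2 h3
  have h6 : (1 : ℤ) ≤ e := by exact_mod_cast h1.1
  by_cases hq : q ∈ A
  · have h7 := hcq' q
    rw [if_pos hq] at h7
    have h8 : μ q ≠ 0 := by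
      have : 1 ≤ μ q := h4
      omega
    obtain ⟨a, ha⟩ := hdvd q hq h8
    have h9 : m / μ q = a := by rw [ha, Nat.mul_div_cancel_left _ (Nat.pos_of_ne_zero h8)]
    simp only [ρ, if_neg h8, h9] at h7
    have h10 : (a : ℤ) ≤ q.ord c + m * (1 - vo q D0) := by linarith
    have h11 : (m : ℤ) = μ q * a := by exact_mod_cast ha
    have h12 : (μ q : ℤ) ≤ e := by exact_mod_cast h5
    have h13 : (0 : ℤ) ≤ a := by positivity
    calc (m : ℤ) = μ q * a := h11
      _ ≤ e * a := mul_le_mul_of_nonneg_right h12 h13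
      _ ≤ _ := mul_le_mul_of_nonneg_left h10 (by positivity)
  · have h7 := hcq' q
    rw [if_neg hq, sub_zero] at h7
    nlinarith

end

end Pool.Agent.K4H40.TF
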