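import Pool.Agent.K4H40.TF.Ruled

/-!
Toric fibrations: if the generic fibre has a toric divisor, the variety is `A¹`-uniruled.
-/

set_option autoImplicit false
set_option linter.unusedSectionVars false
set_option linter.overlappingInstances false

open FF Pool.Agent.W602.GT Pool.Agent.W603.LV IntermediateField
open Pool.Agent.W619.PL (IsA1Uniruled LogKodairaNeg)

namespace Pool.Agent.K4H40.TF

/-- images of `A¹`-ruled varieties -/
theorem of_ruled {K E : Type} [Field K] [Field E] [Algebra ℂ K] [Algebra ℂ E] [Algebra K E]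
    [IsScalarTower ℂ K E] [FiniteDimensional K E] [Algebra.EssFiniteType ℂ K]
    [Algebra.EssFiniteType ℂ E] {n : ℕ} (hE : Algebra.trdeg ℂ E = n) (hK : Algebra.trdeg ℂ K = n)
    {BE : Place ℂ E → Prop} {Bd : Place ℂ K → Prop}
    (hB : ∀ (P : Place ℂ K) (Q : Place ℂ E) (e : ℕ), Over Q P e → Bd P → BE Q)
    (h : A1Ruled BE) : ¬ Psef ℂ K n Bd ∧ IsA1Uniruled ℂ K n Bd := by
  refine ⟨a1_not_psef hE hK hB h, a1_down' hB ?_⟩
  obtain ⟨δ, σ, M, h1, h2, h3, h4, h5, h6⟩ := h
  exact a1_of_delta hE δ h1 h2 M h3 h4 h5 h6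

/-- a common divisor of an integral vector -/
theorem exists_primitive {r : ℕ} (u : Fin r → ℤ) (hu : u ≠ 0) :
    ∃ (g : ℕ) (w v : Fin r → ℤ), 0 < g ∧ (∀ i, u i = g * w i) ∧ ∑ i, v i * w i = 1 := by
  classical
  obtain ⟨g, hg⟩ := (IsPrincipalIdealRing.principal (Ideal.span (Set.range u))).principal
  have h1 : ∀ i, g ∣ u i := fun i => by
    have h2 : u i ∈ Ideal.span (Set.range u) := Ideal.subset_span ⟨i, rfl⟩
    rw [hg] at h2
    exact Ideal.mem_span_singleton.1 h2
  have hg0 : g ≠ 0 := by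
    rintro rfl
    apply hu
    funext i
    exact zero_dvd_iff.1 (h1 i)
  have h2 : g ∈ Ideal.span (Set.range u) := by
    rw [hg]; exact Ideal.mem_span_singleton_self g
  obtain ⟨c, hc⟩ := Ideal.mem_span_range_iff_exists_fun.1 h2
  choose w hw using h1
  have h3 : ∑ i, c i * w i = 1 := by
    have h4 : g * ∑ i, c i * w i = g * 1 := by
      rw [Finset.mul_sum, mul_one]
      conv_rhs => rw [← hc]
      refine Finset.sum_congr rfl fun i _ => ?_
      rw [hw i]; ring
    exact mul_left_cancel₀ hg0 h4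
  refine ⟨g.natAbs, fun i => g.sign * w i, fun i => g.sign * c i, Int.natAbs_pos.2 hg0, fun i => ?_,
    ?_⟩
  · rw [hw i, ← mul_assoc, mul_comm ((g.natAbs : ℕ) : ℤ), Int.sign_mul_natAbs]
  · have h5 : g.sign * g.sign = 1 := by
      rcases lt_or_gt_of_ne hg0 with h | h
      · rw [Int.sign_eq_neg_one_of_neg h]; norm_num
      · rw [Int.sign_eq_one_of_pos h]; norm_num
    calc ∑ i, g.sign * c i * (g.sign * w i) = ∑ i, c i * w i * (g.sign * g.sign) :=
          Finset.sum_congr rfl fun i _ => by ring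
      _ = 1 := by rw [h5]; simpa using h3

section

variable {K : Type} [Field K] [Algebra ℂ K] {F : IntermediateField ℂ K} [IsFF ℂ F] {r : ℕ}
  {t : Fin r → K}

theorem trdeg_K (ht : AlgebraicIndependent F t)
    (htop : IntermediateField.adjoin F (Set.range t) = ⊤) : Algebra.trdeg ℂ K = ((r + 1 : ℕ) : Cardinal) := by
  obtain ⟨x, hx⟩ := IsFF.exists_transcendental (k := ℂ) (K := F)
  rw [← (basis_K ht htop hx).cardinalMk_eq_trdeg]
  simp

theorem ess_K (htop : IntermediateField.adjoin F (Set.range t) = ⊤) :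
    Algebra.EssFiniteType ℂ K := by
  classical
  have h1 : Algebra.EssFiniteType ℂ F := IsFF.ess
  have h2 : Algebra.EssFiniteType F (⊤ : IntermediateField F K) := by
    rw [← htop]
    refine IntermediateField.essFiniteType_iff.2 ?_
    exact ⟨Finset.univ.image t, by simp⟩
  have h3 : Algebra.EssFiniteType F K :=
    (Algebra.EssFiniteType.iff_of_algEquiv (IntermediateField.topEquiv (F := F) (E := K))).1 h2
  exact Algebra.EssFiniteType.comp ℂ F K

/-- **Horizontal divisors.** -/
theorem horizontal (ht : AlgebraicIndependent F t)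
    (htop : IntermediateField.adjoin F (Set.range t) = ⊤) {Bd : Place ℂ K → Prop}
    {u : Fin r → ℤ} (hu : u ≠ 0)
    (hS : ∀ (P : Place ℂ K) (a : ℕ) (w : Fin r → ℤ), TrivialOn F P → (∀ i, P.ord (t i) = a * w i) →
      (∃ g : ℕ, 0 < g ∧ ∀ i, u i = g * w i) → ¬ Bd P) :
    ¬ Psef ℂ K (r + 1) Bd ∧ IsA1Uniruled ℂ K (r + 1) Bd := by
  classical
  obtain ⟨g, w, v, hg, hgw, hvw⟩ := exists_primitive u hu
  have hess := ess_K htop
  have ht0 : ∀ i, t i ≠ 0 := fun i => ht.ne_zero i
  have hb := basis_F ht htop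
  have hcz : CharZero F := charZero_of_injective_algebraMap (algebraMap ℂ F).injective
  obtain ⟨D, hD⟩ := Pool.Agent.W602.GT.exists_der (L := F) t hb (fun i => (w i : K) * t i)
  let δ : Derivation ℂ K K := D.restrictScalars ℂ
  have hδt : ∀ i, δ (t i) = algebraMap ℂ K ((w i : ℤ) : ℂ) * t i := by
    intro i
    change D (t i) = _
    rw [hD, map_intCast]
  have hδF : ∀ f : F, δ (f : K) = 0 := fun f => D.map_algebraMap f
  set σ : K := ∏ i, t i ^ v i with hσ
  have hσ0 : σ ≠ 0 := Finset.prod_ne_zero_iff.2 fun i _ => zpow_ne_zero _ (ht0 i)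
  have hσδ : δ σ = σ := by
    rw [hσ, der_mono ht0 hδt v]
    have h1 : (∑ i, (v i : ℂ) * ((w i : ℤ) : ℂ)) = 1 := by exact_mod_cast hvw
    rw [h1, map_one, one_mul]
  -- the constants
  have hwi : ∀ i, δ (t i * σ ^ (-(w i))) = 0 := by
    intro i
    have h1 : σ ^ (-(w i)) ≠ 0 := zpow_ne_zero _ hσ0
    have h2 : t i * σ ^ (-(w i)) ≠ 0 := mul_ne_zero (ht0 i) h1
    have h3 := Pool.Agent.W619.PQ.dlog_mul δ (ht0 i) h1
    rw [Pool.Agent.W619.PQ.dlog_zpow δ hσ0, hσδ, div_self hσ0, hδt, mul_div_cancel_right₀ _ (ht0 i),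
      map_intCast] at h3
    push_cast at h3
    rw [mul_one, add_neg_cancel, div_eq_zero_iff] at h3
    exact h3.resolve_right h2
  obtain ⟨s, hs⟩ : F.FG := IntermediateField.essFiniteType_iff.1 IsFF.ess
  let M : IntermediateField ℂ K := IntermediateField.adjoin ℂ
    ((s ∪ Finset.univ.image (fun i => t i * σ ^ (-(w i))) : Finset K) : Set K)
  have hFM : F ≤ M := by
    rw [← hs]
    apply IntermediateField.adjoin.mono
    intro a ha
    simp only [Finset.coe_union, Set.mem_union]
    exact Or.inl ha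
  have hwM : ∀ i, t i * σ ^ (-(w i)) ∈ M := by
    intro i
    apply IntermediateField.subset_adjoin
    simp only [Finset.coe_union, Set.mem_union]
    right
    simp
  have hMc : M ≤ consts δ := by
    rw [IntermediateField.adjoin_le_iff]
    intro a ha
    simp only [Finset.coe_union, Set.mem_union, Finset.coe_image, Finset.coe_univ,
      Set.image_univ] at ha
    rcases ha with ha | ⟨i, rfl⟩
    · have h1 : a ∈ F := by
        rw [← hs]; exact IntermediateField.subset_adjoin _ _ ha
      exact hδF ⟨a, h1⟩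
    · exact hwi i
  have htopM : IntermediateField.adjoin M {σ} = ⊤ := by
    rw [eq_top_iff]
    intro z _
    have hz : z ∈ IntermediateField.adjoin F (Set.range t) := by rw [htop]; trivial
    have hσM : σ ∈ IntermediateField.adjoin M {σ} := IntermediateField.mem_adjoin_simple_self _ _
    induction hz using IntermediateField.adjoin_induction with
    | mem a ha =>
      obtain ⟨i, rfl⟩ := ha
      have h1 : t i = (t i * σ ^ (-(w i))) * σ ^ (w i) := by
        rw [mul_assoc, ← zpow_add₀ hσ0]; simp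
      rw [h1]
      exact mul_mem ((IntermediateField.adjoin M {σ}).algebraMap_mem ⟨_, hwM i⟩)
        (zpow_mem hσM _)
    | algebraMap a => exact (IntermediateField.adjoin M {σ}).algebraMap_mem ⟨_, hFM a.2⟩
    | add a b _ _ ha hb => exact add_mem (ha trivial) (hb trivial)
    | mul a b _ _ ha hb => exact mul_mem (ha trivial) (hb trivial)
    | inv a _ ha => exact inv_mem (ha trivial)
  have hruled : A1Ruled Bd := by
    refine ⟨δ, σ, M, hσ0, hσδ, ⟨_, rfl⟩, hMc, htopM, fun P hP hPσ => ?_⟩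
    refine hS P (P.ord σ).toNat w (fun f hf => hP _ (hδF f) (fun h => hf (Subtype.ext h)))
      (fun i => ?_) ⟨g, hg, hgw⟩
    have h1 := hP _ (hwi i) (mul_ne_zero (ht0 i) (zpow_ne_zero _ hσ0))
    rw [P.ord_mul (ht0 i) (zpow_ne_zero _ hσ0), P.ord_zpow] at h1
    rw [Int.toNat_of_nonneg hPσ]
    linarith
  refine of_ruled (E := K) (trdeg_K ht htop) (trdeg_K ht htop) (BE := Bd) (fun P Q e h hb => ?_)
    hruled
  have h1 : Over Q Q 1 := ⟨one_pos, fun f => by simp⟩
  have h2 := Pool.Agent.W619.PQ.over_unique' h h1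
  rw [← h2.1]
  exact hb

end

end Pool.Agent.K4H40.TF
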