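import Pool.Agent.K4H40.TF.Cover
import Pool.Agent.K4H40.TF.Hor

/-!
Gauss places and toric places.
-/

set_option autoImplicit false
set_option linter.unusedSectionVars false
set_option linter.overlappingInstances false

open FF Pool.Agent.W602.GT Pool.Agent.W603.LV Pool.Agent.W619.PQ IntermediateField

namespace Pool.Agent.K4H40.TF

theorem ge_over {K E : Type} [Field K] [Field E] [Algebra ℂ K] [Algebra ℂ E] [Algebra K E]
    [IsScalarTower ℂ K E] {Q : Place ℂ E} {P : Place ℂ K} {e : ℕ} (h : Over Q P e) {f : K}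
    (hf : Ge P 1 f) : Ge Q 1 (algebraMap K E f) := by
  rcases hf with rfl | hf
  · left; simp
  · right
    rw [h.2]
    have h1 : (1 : ℤ) ≤ e := by exact_mod_cast h.1
    nlinarith

/-- the function field of the line -/
theorem isFF_simple {E : Type} [Field E] [Algebra ℂ E] {s : E} (hs : Transcendental ℂ s) :
    IsFF ℂ ℂ⟮s⟯ := by
  have h1 : Transcendental ℂ (AdjoinSimple.gen ℂ s) := by
    intro h
    apply hs
    have := h.algebraMap (A := E)
    exact this
  refine IsFF.of_finite h1 ?_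
  have h2 : ℂ⟮AdjoinSimple.gen ℂ s⟯ = ⊤ := by
    rw [eq_top_iff]
    rintro ⟨z, hz⟩ -
    obtain ⟨a, b, rfl⟩ := (IntermediateField.mem_adjoin_simple_iff ℂ z).1 hz
    rw [IntermediateField.mem_adjoin_simple_iff]
    refine ⟨a, b, Subtype.ext ?_⟩
    have h5 : ∀ p : Polynomial ℂ, ((Polynomial.aeval (AdjoinSimple.gen ℂ s) p : ℂ⟮s⟯) : E) =
        Polynomial.aeval s p := by
      intro p
      rw [← IntermediateField.aeval_coe, AdjoinSimple.coe_gen]
    rw [IntermediateField.coe_div, h5, h5]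
  have h3 : Module.Finite ℂ⟮AdjoinSimple.gen ℂ s⟯ ℂ⟮s⟯ := by
    refine ⟨⟨{1}, ?_⟩⟩
    rw [eq_top_iff]
    intro z _
    have hz : z ∈ ℂ⟮AdjoinSimple.gen ℂ s⟯ := by rw [h2]; exact mem_top
    rw [Finset.coe_singleton, Submodule.mem_span_singleton]
    exact ⟨⟨z, hz⟩, by rw [Algebra.smul_def, mul_one]; rfl⟩
  exact h3

section

variable {E : Type} [Field E] [Algebra ℂ E]

theorem min_formula (Q : Place ℂ E) {L : IntermediateField ℂ E} [IsFF ℂ L] {q' : Place ℂ L}
    {e' : ℕ} (hQ : Over Q q' e') {r : ℕ} {t' : Fin r → E}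
    (h : ∀ g : MvPolynomial (Fin r) ℂ, g ≠ 0 → MvPolynomial.aeval t' g ≠ 0 ∧
      Q.ord (MvPolynomial.aeval t' g) = 0) (T : Finset (Fin r →₀ ℕ)) (a : (Fin r →₀ ℕ) → L)
    {m1 : Fin r →₀ ℕ} (hm1 : m1 ∈ T) (ha1 : a m1 ≠ 0)
    (hmin : ∀ m ∈ T, Ge q' (q'.ord (a m1)) (a m)) :
    Q.ord (∑ m ∈ T, (a m : E) * ∏ i, t' i ^ m i) = Q.ord (a m1 : E) := by
  classical
  have ha1' : (a m1 : E) ≠ 0 := fun h => ha1 (Subtype.ext h)
  have h1 : ∀ m ∈ T, ∃ c : ℂ, Ge q' 1 (a m / a m1 - algebraMap ℂ L c) := by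
    intro m hm
    refine exists_const q' ?_
    rcases hmin m hm with h2 | h2
    · left; rw [h2, zero_div]
    · by_cases h0 : a m = 0
      · left; rw [h0, zero_div]
      · right
        rw [q'.ord_div h0 ha1]
        omega
  choose! α hα using h1
  have hα1 : α m1 ≠ 0 := by
    intro h0
    have h2 := hα m1 hm1
    rw [h0, map_zero, sub_zero, div_self ha1] at h2
    rcases h2 with h2 | h2
    · exact one_ne_zero h2
    · rw [q'.ord_one] at h2; omega
  set g : MvPolynomial (Fin r) ℂ := ∑ m ∈ T, MvPolynomial.monomial m (α m) with hg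
  have hg0 : g ≠ 0 := by
    intro h0
    have h2 := congrArg (MvPolynomial.coeff m1) h0
    rw [hg, MvPolynomial.coeff_sum, Finset.sum_eq_single m1] at h2
    · rw [MvPolynomial.coeff_monomial, if_pos rfl, MvPolynomial.coeff_zero] at h2
      exact hα1 h2
    · intro b _ hb
      rw [MvPolynomial.coeff_monomial, if_neg hb]
    · intro h3; exact absurd hm1 h3
  have hge : MvPolynomial.aeval t' g = ∑ m ∈ T, algebraMap ℂ E (α m) * ∏ i, t' i ^ m i := by
    rw [hg, map_sum]
    refine Finset.sum_congr rfl fun m _ => ?_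
    rw [MvPolynomial.aeval_monomial, Finsupp.prod_fintype]
    intro i; rw [pow_zero]
  obtain ⟨hg1, hg2⟩ := h g hg0
  -- the orders of the monomials
  have hmono : ∀ m : Fin r →₀ ℕ, Ge Q 0 (∏ i, t' i ^ m i) := by
    intro m
    have h2 := h (MvPolynomial.monomial m 1) (by simp)
    have h3 : MvPolynomial.aeval t' (MvPolynomial.monomial m (1 : ℂ)) = ∏ i, t' i ^ m i := by
      rw [MvPolynomial.aeval_monomial, Finsupp.prod_fintype, map_one, one_mul]
      intro i; rw [pow_zero]
    rw [h3] at h2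
    exact Or.inr h2.2.ge
  set rest : E := ∑ m ∈ T, ((a m / a m1 - algebraMap ℂ L (α m) : L) : E) * ∏ i, t' i ^ m i with hrest
  have hrest1 : Ge Q 1 rest := by
    refine Ge.sum _ _ fun m hm => ?_
    have h2 := ge_over hQ (hα m hm)
    have := h2.mul (hmono m)
    simpa using this
  have htot : (∑ m ∈ T, (a m : E) * ∏ i, t' i ^ m i) = (a m1 : E) * (MvPolynomial.aeval t' g + rest) := by
    rw [hge, hrest, ← Finset.sum_add_distrib, Finset.mul_sum]
    refine Finset.sum_congr rfl fun m _ => ?_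
    push_cast
    field_simp
    ring
  have hsum : MvPolynomial.aeval t' g + rest ≠ 0 ∧ Q.ord (MvPolynomial.aeval t' g + rest) = 0 := by
    rcases hrest1 with h2 | h2
    · rw [h2, add_zero]; exact ⟨hg1, hg2⟩
    · by_cases h0 : rest = 0
      · rw [h0, add_zero]; exact ⟨hg1, hg2⟩
      · have := Q.ord_add_eq hg1 h0 (by omega)
        rw [hg2] at this
        exact this
  rw [htot, Q.ord_mul ha1' hsum.1, hsum.2, add_zero]

end

section

variable {K : Type} [Field K] [Algebra ℂ K] {F : IntermediateField ℂ K} {r : ℕ}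
  {t : Fin r → K}

/-- places below Gauss places are toric -/
theorem toric_below {E : Type} [Field E] [Algebra ℂ E] [Algebra K E] [IsScalarTower ℂ K E]
    {Q : Place ℂ E} {P : Place ℂ K} {e : ℕ} (hQP : Over Q P e)
    {L : IntermediateField ℂ E} [IsFF ℂ L] {q' : Place ℂ L}
    {e' : ℕ} (hQ : Over Q q' e') {t' : Fin r → E}
    (h : ∀ g : MvPolynomial (Fin r) ℂ, g ≠ 0 → MvPolynomial.aeval t' g ≠ 0 ∧
      Q.ord (MvPolynomial.aeval t' g) = 0)
    (hF : ∀ f : F, algebraMap K E (f : K) ∈ L) (τ : Fin r → L) (hτ0 : ∀ i, τ i ≠ 0)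
    (hτ : ∀ i, algebraMap K E (t i) = (τ i : E) * t' i) : IsToric F t P := by
  classical
  intro g hg
  obtain ⟨m1, hm1, hmin⟩ := Finset.exists_min_image g.support (termOrd F t P g)
    (Finset.nonempty_iff_ne_empty.2 (by rwa [Ne, MvPolynomial.support_eq_empty]))
  refine ⟨m1, hm1, ?_, hmin⟩
  have he : (0 : ℤ) < e := by exact_mod_cast hQP.1
  have he' : (0 : ℤ) < e' := by exact_mod_cast hQ.1
  have ht'0 : ∀ i, t' i ≠ 0 ∧ Q.ord (t' i) = 0 := fun i => by
    have := h (MvPolynomial.X i) (MvPolynomial.X_ne_zero i)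
    rwa [MvPolynomial.aeval_X] at this
  have hτE : ∀ i, (τ i : E) ≠ 0 := fun i h => hτ0 i (Subtype.ext h)
  have hτo : ∀ i, Q.ord (τ i : E) = e * P.ord (t i) := by
    intro i
    rw [← hQP.2, hτ, Q.ord_mul (hτE i) (ht'0 i).1, (ht'0 i).2, add_zero]
  let a : (Fin r →₀ ℕ) → L := fun m => ⟨algebraMap K E ((g.coeff m : F) : K), hF _⟩ * ∏ i, τ i ^ m i
  have haE : ∀ m, (a m : E) = algebraMap K E ((g.coeff m : F) : K) * ∏ i, (τ i : E) ^ m i := by
    intro m
    simp only [a]
    push_cast
    rfl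
  have hcoef : ∀ m ∈ g.support, algebraMap K E ((g.coeff m : F) : K) ≠ 0 := by
    intro m hm h0
    have h1 : ((g.coeff m : F) : K) = 0 := by simpa using h0
    exact MvPolynomial.mem_support_iff.1 hm (Subtype.ext h1)
  have hprod : ∀ m : Fin r →₀ ℕ, ∏ i, (τ i : E) ^ m i ≠ 0 ∧ Q.ord (∏ i, (τ i : E) ^ m i) =
      e * ∑ i, (m i : ℤ) * P.ord (t i) := by
    intro m
    refine ⟨Finset.prod_ne_zero_iff.2 fun i _ => pow_ne_zero _ (hτE i), ?_⟩
    have : ∀ s : Finset (Fin r), Q.ord (∏ i ∈ s, (τ i : E) ^ m i) =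
        e * ∑ i ∈ s, (m i : ℤ) * P.ord (t i) := by
      intro s
      induction s using Finset.induction_on with
      | empty => simp [Q.ord_one]
      | insert b s hb ih =>
        rw [Finset.prod_insert hb, Finset.sum_insert hb, Q.ord_mul (pow_ne_zero _ (hτE b))
          (Finset.prod_ne_zero_iff.2 fun i _ => pow_ne_zero _ (hτE i)), ih, Q.ord_pow, hτo]
        ring
    exact this _
  have haord : ∀ m ∈ g.support, (a m : E) ≠ 0 ∧ Q.ord (a m : E) = e * termOrd F t P g m := by
    intro m hm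
    rw [haE]
    refine ⟨mul_ne_zero (hcoef m hm) (hprod m).1, ?_⟩
    rw [Q.ord_mul (hcoef m hm) (hprod m).1, (hprod m).2, hQP.2, termOrd]
    ring
  have haq : ∀ m ∈ g.support, e' * q'.ord (a m) = e * termOrd F t P g m := by
    intro m hm
    rw [← (haord m hm).2]
    exact (hQ.2 (a m)).symm
  have hmain := min_formula Q hQ h g.support a hm1 (fun h0 => (haord m1 hm1).1 (by rw [h0]; rfl))
    (fun m hm => by
      right
      have h1 := haq m hm
      have h2 := haq m1 hm1
      have h3 := hmin m hm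
      have h4 : (e : ℤ) * termOrd F t P g m1 ≤ e * termOrd F t P g m :=
        mul_le_mul_of_nonneg_left h3 he.le
      rw [← h1, ← h2] at h4
      exact le_of_mul_le_mul_left h4 he')
  have hsum : algebraMap K E (MvPolynomial.aeval t g) =
      ∑ m ∈ g.support, (a m : E) * ∏ i, t' i ^ m i := by
    rw [MvPolynomial.aeval_def, MvPolynomial.eval₂_eq', map_sum]
    refine Finset.sum_congr rfl fun m _ => ?_
    rw [map_mul, map_prod, haE, mul_assoc, ← Finset.prod_mul_distrib]
    congr 1
    refine Finset.prod_congr rfl fun i _ => ?_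
    rw [map_pow, hτ, mul_pow]
  rw [← hsum, hQP.2, (haord m1 hm1).2] at hmain
  exact mul_left_cancel₀ he.ne' hmain

/-- every element is a quotient of polynomials in the `t i` -/
theorem exists_quot (htop : IntermediateField.adjoin F (Set.range t) = ⊤) {z : K} (hz : z ≠ 0) :
    ∃ a b : MvPolynomial (Fin r) F, MvPolynomial.aeval t a ≠ 0 ∧ MvPolynomial.aeval t b ≠ 0 ∧
      z = MvPolynomial.aeval t a / MvPolynomial.aeval t b := by
  have h1 : z ∈ IntermediateField.adjoin F (Set.range t) := by rw [htop]; trivial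
  obtain ⟨a, b, rfl⟩ := (IntermediateField.mem_adjoin_range_iff F t z).1 h1
  refine ⟨a, b, ?_, ?_, rfl⟩
  · intro h; rw [h, zero_div] at hz; exact hz rfl
  · intro h; rw [h, div_zero] at hz; exact hz rfl

/-- toric places are determined by the orders on `F` and of the `t i` -/
theorem toric_unique (htop : IntermediateField.adjoin F (Set.range t) = ⊤) {P P' : Place ℂ K}
    (hP : IsToric F t P) (hP' : IsToric F t P') {a b : ℤ} (ha : 0 < a) (hb : 0 < b)
    (hF : ∀ f : F, a * P.ord (f : K) = b * P'.ord (f : K))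
    (ht : ∀ i, a * P.ord (t i) = b * P'.ord (t i)) : P = P' := by
  have hterm : ∀ (g : MvPolynomial (Fin r) F) (m : Fin r →₀ ℕ),
      a * termOrd F t P g m = b * termOrd F t P' g m := by
    intro g m
    unfold termOrd
    rw [mul_add, mul_add, hF, Finset.mul_sum, Finset.mul_sum]
    congr 1
    refine Finset.sum_congr rfl fun i _ => ?_
    have := ht i
    linear_combination (m i : ℤ) * this
  have hpol : ∀ g : MvPolynomial (Fin r) F, MvPolynomial.aeval t g ≠ 0 →
      a * P.ord (MvPolynomial.aeval t g) = b * P'.ord (MvPolynomial.aeval t g) := by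
    intro g hg
    have hg0 : g ≠ 0 := by rintro rfl; exact hg (map_zero _)
    obtain ⟨m, hm, h1, h2⟩ := hP g hg0
    obtain ⟨m', hm', h1', h2'⟩ := hP' g hg0
    rw [h1, h1']
    apply le_antisymm
    · rw [← hterm]
      exact mul_le_mul_of_nonneg_left (h2 m' hm') ha.le
    · rw [hterm]
      exact mul_le_mul_of_nonneg_left (h2' m hm) hb.le
  have hall : ∀ z : K, a * P.ord z = b * P'.ord z := by
    intro z
    by_cases hz : z = 0
    · rw [hz, P.ord_zero, P'.ord_zero, mul_zero, mul_zero]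
    obtain ⟨u, v, hu, hv, rfl⟩ := exists_quot htop hz
    rw [P.ord_div hu hv, P'.ord_div hu hv, mul_sub, mul_sub, hpol u hu, hpol v hv]
  have hab : a = b := by
    obtain ⟨z, -, hz⟩ := P.surj
    obtain ⟨z', -, hz'⟩ := P'.surj
    have h1 := hall z
    have h2 := hall z'
    rw [hz, mul_one] at h1
    rw [hz', mul_one] at h2
    have h3 : 0 < P'.ord z := by
      by_contra h
      have := mul_nonpos_of_nonneg_of_nonpos hb.le (not_lt.1 h)
      omega
    have h4 : 0 < P.ord z' := by
      by_contra h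
      have := mul_nonpos_of_nonneg_of_nonpos ha.le (not_lt.1 h)
      omega
    apply le_antisymm
    · rw [← h2]; nlinarith
    · rw [h1]; nlinarith
  have hord : P.ord = P'.ord := by
    funext z
    have := hall z
    rw [hab] at this
    exact mul_left_cancel₀ hb.ne' this
  exact Place.ext hord

end

end Pool.Agent.K4H40.TF
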