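import Pool.Agent.W619.PQ.Log
import Pool.Agent.W619.TW.Der

/-!
Toric fibrations, local part: at a place where a logarithmic form of toric type is not regular there
are regular derivations with prescribed logarithmic derivatives of the coordinates.
-/

set_option autoImplicit false
set_option linter.unusedSectionVars false

open FF Pool.Agent.W603.LV Pool.Agent.W619.PQ Pool.Agent.W619.TW

namespace Pool.Agent.K4H40.TF

variable {k K : Type*} [Field k] [CharZero k] [Field K] [Algebra k K]

/-- a rank one matrix with simple poles plus a regular matrix -/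
theorem det_rank {n : ℕ} (v : Place k K) {π : K} (hπ0 : π ≠ 0) (hπ : v.ord π = 1)
    (a o : Fin n → K) (B : Fin n → Fin n → K) (ha : ∀ j, Ge v 0 (a j)) (ho : ∀ i, Ge v 0 (o i))
    (hB : ∀ j i, Ge v 0 (B j i)) :
    Ge v (-1) (Matrix.of fun j i => a j / π * o i + B j i).det := by
  classical
  let M : Matrix (Fin n) (Fin n) K := Matrix.of B
  let C : Matrix (Fin n) Unit K := Matrix.of fun j _ => a j / π
  let R : Matrix Unit (Fin n) K := Matrix.of fun _ i => - o i
  have h1 : Matrix.of (fun j i => a j / π * o i + B j i) = M - C * R := by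
    ext j i
    rw [Matrix.sub_apply, Matrix.mul_apply]
    simp only [M, C, R, Matrix.of_apply, Finset.univ_unique, Finset.sum_singleton]
    ring
  have h2 : (Matrix.of fun j i => a j / π * o i + B j i).det =
      (Matrix.fromBlocks (1 : Matrix Unit Unit K) R C M).det := by
    rw [Matrix.det_fromBlocks_one₁₁, h1]
  let Δ : Matrix (Unit ⊕ Fin n) (Unit ⊕ Fin n) K :=
    Matrix.fromBlocks (Matrix.of fun _ _ => π) 0 0 1
  have hΔ : Δ.det = π := by
    rw [Matrix.det_fromBlocks_zero₂₁]
    simp
  have h3 : (Matrix.fromBlocks (1 : Matrix Unit Unit K) R C M) * Δ =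
      Matrix.fromBlocks (Matrix.of fun _ _ => π) R (Matrix.of fun j _ => a j) M := by
    rw [Matrix.fromBlocks_multiply]
    congr 1
    · ext i j; simp
    · simp
    · ext j i
      simp only [Matrix.mul_zero, add_zero, Matrix.mul_apply, C, Matrix.of_apply,
        Finset.univ_unique, Finset.sum_singleton]
      field_simp
    · simp
  have h4 : Ge v 0 (Matrix.fromBlocks (Matrix.of fun _ _ => π) R
      (Matrix.of fun j _ => a j) M).det := by
    apply ge_det
    rintro (i | i) (j | j)
    · simp only [Matrix.fromBlocks_apply₁₁, Matrix.of_apply]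
      exact Or.inr (by omega)
    · simp only [Matrix.fromBlocks_apply₁₂, R, Matrix.of_apply]
      exact (ho j).neg
    · simp only [Matrix.fromBlocks_apply₂₁, Matrix.of_apply]
      exact ha i
    · simp only [Matrix.fromBlocks_apply₂₂, M, Matrix.of_apply]
      exact hB i j
  rw [← h3, Matrix.det_mul, hΔ, ← h2, mul_comm] at h4
  exact Ge.of_mul' (P := v) (N := -1) (m := 1) hπ0 hπ (by simpa using h4)

/-- the decomposition of the logarithmic derivatives -/
theorem dlog_decomp (v : Place k K) {π : K} (hπ0 : π ≠ 0) (hπ : v.ord π = 1)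
    {D : Derivation k K K} (hD : Pres v D) {z : K} (hz : z ≠ 0) :
    ∃ b, Ge v 0 b ∧ D z / z = D π / π * (v.ord z : K) + b := by
  have hu0 : z * π ^ (-(v.ord z)) ≠ 0 := mul_ne_zero hz (zpow_ne_zero _ hπ0)
  have hu : v.ord (z * π ^ (-(v.ord z))) = 0 := by
    rw [v.ord_mul hz (zpow_ne_zero _ hπ0), v.ord_zpow, hπ]; ring
  refine ⟨D (z * π ^ (-(v.ord z))) / (z * π ^ (-(v.ord z))), der_unit hD hu, ?_⟩
  rw [dlog_mul D hz (zpow_ne_zero _ hπ0), dlog_zpow D hπ0]
  push_cast
  ring

/-- **Prescribed logarithmic derivatives.** If the determinant of the logarithmic derivatives of the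
`z i` by regular derivations is not regular at `v`, and one of the `z i` has nonzero order, then
for all `μ` there is a logarithmic derivation with `D (z i) = μ i * z i`. -/
theorem exists_der {n : ℕ} (v : Place k K) (D : Fin n → Derivation k K K)
    (hD : ∀ j, Pres v (D j)) (z : Fin n → K) (hz : ∀ i, z i ≠ 0) {i0 : Fin n}
    (hi0 : v.ord (z i0) ≠ 0)
    (hdet : ¬ Ge v 0 (Matrix.of fun j i => D j (z i) / z i).det) (μ : Fin n → k) :
    ∃ D' : Derivation k K K, (∀ f, v.Reg (D' f / f)) ∧
      ∀ i, D' (z i) = algebraMap k K (μ i) * z i := by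
  classical
  obtain ⟨π, hπ0, hπ⟩ := v.surj
  choose b hb hdec using fun j i => dlog_decomp v hπ0 hπ (hD j) (hz i)
  set A : Matrix (Fin n) (Fin n) K := Matrix.of fun j i => D j (z i) / z i with hA
  have hAe : ∀ j i, A j i = D j π / π * (v.ord (z i) : K) + b j i := fun j i => hdec j i
  have hpi : ∀ j, Ge v 0 (D j π) := fun j => hD j π (Or.inr (by omega))
  have ho : ∀ i, Ge v 0 ((v.ord (z i) : ℤ) : K) := fun i => Ge.intCast (P := v) _
  have hd0 : A.det ≠ 0 := fun h => hdet (Or.inl h)
  have hdord : v.ord A.det = -1 := by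
    have h1 : Ge v (-1) A.det := by
      have h2 : A = Matrix.of fun j i => D j π / π * (v.ord (z i) : K) + b j i := by
        ext j i; exact hAe j i
      rw [h2]
      exact det_rank v hπ0 hπ (fun j => D j π) (fun i => (v.ord (z i) : K)) b hpi ho hb
    have h3 := h1.resolve_left hd0
    by_contra hne
    exact hdet (Or.inr (by omega))
  have hadj : ∀ i j, Ge v (-1) (A.adjugate i j) := by
    intro i j
    rw [Matrix.adjugate_apply]
    have h2 : A.updateRow j (Pi.single i 1) = Matrix.of fun l m =>
        (if l = j then 0 else D l π) / π * (v.ord (z m) : K) +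
          (if l = j then (Pi.single i (1 : K) : Fin n → K) m else b l m) := by
      ext l m
      rw [Matrix.of_apply, Matrix.updateRow_apply]
      by_cases hl : l = j
      · simp [hl]
      · simp only [if_neg hl]
        exact hAe l m
    rw [h2]
    refine det_rank v hπ0 hπ (fun l => if l = j then 0 else D l π)
      (fun i => (v.ord (z i) : K))
      (fun l m => if l = j then (Pi.single i (1 : K) : Fin n → K) m else b l m)
      (fun l => ?_) ho (fun l m => ?_)
    · by_cases hl : l = j
      · simp only [if_pos hl]; exact Ge.zero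
      · simp only [if_neg hl]; exact hpi l
    · by_cases hl : l = j
      · simp only [if_pos hl]
        by_cases hm : m = i
        · subst hm; simp only [Pi.single_eq_same]; exact Ge.one
        · simp only [Pi.single_eq_of_ne hm]; exact Ge.zero
      · simp only [if_neg hl]; exact hb l m
  let γ : Fin n → K := fun j => ∑ i, algebraMap k K (μ i) * (A.adjugate i j / A.det)
  have hγ : ∀ j, Ge v 0 (γ j) := by
    intro j
    refine Ge.sum _ _ fun i _ => ?_
    have h1 : Ge v 0 (A.adjugate i j / A.det) := by
      have h2 : Ge v (0 + -1) (A.det * (A.adjugate i j / A.det)) := by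
        rw [mul_div_cancel₀ _ hd0, zero_add]
        exact hadj i j
      exact Ge.of_mul' hd0 hdord h2
    have h3 := (Ge.const (P := v) (μ i)).mul h1
    simpa using h3
  have hγA : ∀ m, ∑ j, γ j * A j m = algebraMap k K (μ m) := by
    intro m
    have h1 : ∑ j, γ j * A j m =
        ∑ i, algebraMap k K (μ i) * ((A.adjugate * A) i m / A.det) := by
      simp only [γ, Finset.sum_mul, Matrix.mul_apply]
      rw [Finset.sum_comm]
      refine Finset.sum_congr rfl fun i _ => ?_
      rw [Finset.sum_div, Finset.mul_sum]
      refine Finset.sum_congr rfl fun j _ => ?_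
      ring
    rw [h1, Matrix.adjugate_mul]
    simp only [Matrix.smul_apply, Matrix.one_apply, smul_eq_mul]
    rw [Finset.sum_eq_single m]
    · simp [hd0]
    · intro i _ hi
      simp [hi]
    · simp
  let D' : Derivation k K K := ∑ j, γ j • D j
  have happ : ∀ f, D' f = ∑ j, γ j * D j f := by
    intro f
    change (∑ j, γ j • D j) f = _
    have : ∀ s : Finset (Fin n), (∑ j ∈ s, γ j • D j) f = ∑ j ∈ s, γ j * D j f := by
      intro s
      induction s using Finset.induction_on with
      | empty => simp
      | insert a s ha ih =>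
        rw [Finset.sum_insert ha, Finset.sum_insert ha, ← ih]
        rfl
    exact this _
  have hz' : ∀ i, D' (z i) = algebraMap k K (μ i) * z i := by
    intro i
    rw [happ, ← hγA i, Finset.sum_mul]
    refine Finset.sum_congr rfl fun j _ => ?_
    change _ = γ j * (D j (z i) / z i) * z i
    rw [mul_assoc, div_mul_cancel₀ _ (hz i)]
  have hpres : Pres v D' := by
    intro f hf
    rw [happ]
    exact Ge.sum _ _ fun j _ => by
      have := (hγ j).mul (hD j f hf)
      simpa using this
  refine ⟨D', ?_, hz'⟩
  obtain ⟨b', hb', hdec'⟩ := dlog_decomp v hπ0 hπ hpres (hz i0)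
  have h1 : D' (z i0) / z i0 = algebraMap k K (μ i0) := by
    rw [hz', mul_div_cancel_right₀ _ (hz i0)]
  rw [h1] at hdec'
  have hne : ((v.ord (z i0) : ℤ) : K) ≠ 0 := by
    have h2 : ((v.ord (z i0) : ℤ) : k) ≠ 0 := by exact_mod_cast hi0
    have h3 : algebraMap k K ((v.ord (z i0) : ℤ) : k) ≠ 0 := by
      rwa [Ne, map_eq_zero]
    rwa [map_intCast] at h3
  have h2 : v.Reg (D' π / π) := by
    have h3 : D' π / π = (algebraMap k K (μ i0) - b') *
        algebraMap k K ((v.ord (z i0) : ℤ) : k)⁻¹ := by
      rw [map_inv₀, map_intCast]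
      field_simp
      rw [hdec']
      field_simp
      ring
    rw [h3]
    have h4 := ((Ge.const (P := v) (μ i0)).sub hb').mul
      (Ge.const (P := v) (((v.ord (z i0) : ℤ) : k)⁻¹))
    rw [add_zero] at h4
    exact h4
  exact fun f => log_of_pres v D' hpres hπ0 hπ h2 f

/-- logarithmic derivations preserve the vanishing orders -/
theorem ge_der {v : Place k K} {D : Derivation k K K} (hD : ∀ f, v.Reg (D f / f)) {c : ℤ} {f : K}
    (hf : Ge v c f) : Ge v c (D f) := by
  by_cases h0 : f = 0
  · rw [h0, map_zero]; exact Ge.zero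
  have h1 : D f = f * (D f / f) := by field_simp
  rw [h1]
  have := hf.mul (hD f)
  simpa using this

/-- eigenvectors with different eigenvalues -/
theorem eigen {ι : Type*} (v : Place k K) {D : Derivation k K K} (hD : ∀ f, v.Reg (D f / f))
    (c : ℤ) (Z : ι → K) (l : ι → k) (s : Finset ι) (hZ : ∀ i ∈ s, Z i ≠ 0 ∧ v.ord (Z i) = c)
    (hl : ∀ i ∈ s, D (Z i) = algebraMap k K (l i) * Z i)
    (hinj : ∀ i ∈ s, ∀ j ∈ s, l i = l j → i = j) :
    ∀ α : ι → k, Ge v (c + 1) (∑ i ∈ s, algebraMap k K (α i) * Z i) → ∀ i ∈ s, α i = 0 := by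
  classical
  induction s using Finset.induction_on with
  | empty => intro α _ i hi; simp at hi
  | insert a s ha ih =>
    intro α hα
    have ih' := ih (fun i hi => hZ i (Finset.mem_insert_of_mem hi))
      (fun i hi => hl i (Finset.mem_insert_of_mem hi))
      (fun i hi j hj => hinj i (Finset.mem_insert_of_mem hi) j (Finset.mem_insert_of_mem hj))
    have h1 : Ge v (c + 1) (∑ i ∈ s, algebraMap k K (α i * (l i - l a)) * Z i) := by
      have h2 : (∑ i ∈ s, algebraMap k K (α i * (l i - l a)) * Z i) =
          D (∑ i ∈ insert a s, algebraMap k K (α i) * Z i) -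
            algebraMap k K (l a) * (∑ i ∈ insert a s, algebraMap k K (α i) * Z i) := by
        rw [map_sum, Finset.mul_sum, ← Finset.sum_sub_distrib]
        have h3 : ∀ i ∈ insert a s, D (algebraMap k K (α i) * Z i) -
            algebraMap k K (l a) * (algebraMap k K (α i) * Z i) =
            algebraMap k K (α i * (l i - l a)) * Z i := by
          intro i hi
          rw [D.leibniz, Derivation.map_algebraMap, smul_zero, add_zero, smul_eq_mul, hl i hi,
            map_mul, map_sub]
          ring
        rw [Finset.sum_congr rfl h3, Finset.sum_insert ha]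
        simp
      rw [h2]
      refine (ge_der hD hα).sub ?_
      have := (Ge.const (P := v) (l a)).mul hα
      simpa using this
    have h4 := ih' _ h1
    have h5 : ∀ i ∈ s, α i = 0 := by
      intro i hi
      rcases mul_eq_zero.1 (h4 i hi) with h | h
      · exact h
      · exfalso
        have h6 := hinj i (Finset.mem_insert_of_mem hi) a (Finset.mem_insert_self a s)
          (sub_eq_zero.1 h)
        exact ha (h6 ▸ hi)
    intro i hi
    rcases Finset.mem_insert.1 hi with rfl | hi
    · rw [Finset.sum_insert ha, Finset.sum_eq_zero (fun j hj => by rw [h5 j hj]; simp),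
        add_zero] at hα
      by_contra hne
      obtain ⟨h6, h7⟩ := hZ i (Finset.mem_insert_self i s)
      have h8 : algebraMap k K (α i) ≠ 0 := by rwa [Ne, map_eq_zero]
      rcases hα with h | h
      · exact (mul_ne_zero h8 h6) h
      · rw [v.ord_mul h8 h6, v.ord_const hne, h7] at h
        omega
    · exact h5 i hi

/-- separating finitely many integral vectors -/
theorem exists_sep {n : ℕ} (s : Finset (Fin n → ℤ)) : ∃ μ : Fin n → k,
    ∀ a ∈ s, ∀ b ∈ s, ∑ i, (a i : k) * μ i = ∑ i, (b i : k) * μ i → a = b := by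
  classical
  let p : (Fin n → ℤ) → Polynomial k := fun a => ∑ i : Fin n, Polynomial.monomial (i : ℕ) (a i : k)
  have hp : ∀ a : Fin n → ℤ, a ≠ 0 → p a ≠ 0 := by
    intro a ha h
    apply ha
    funext i
    have h1 : (p a).coeff (i : ℕ) = (a i : k) := by
      simp only [p, Polynomial.finset_sum_coeff, Polynomial.coeff_monomial]
      rw [Finset.sum_eq_single i]
      · simp
      · intro j _ hj
        rw [if_neg]
        intro h2
        exact hj (Fin.ext h2)
      · simp
    rw [h, Polynomial.coeff_zero] at h1
    have : (a i : k) = 0 := h1.symm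
    exact_mod_cast this
  let Q : Polynomial k := ∏ x ∈ (s ×ˢ s).filter (fun x => x.1 ≠ x.2), p (x.1 - x.2)
  have hQ : Q ≠ 0 := by
    refine Finset.prod_ne_zero_iff.2 fun x hx => hp _ ?_
    rw [Finset.mem_filter] at hx
    exact sub_ne_zero.2 hx.2
  obtain ⟨B, hB⟩ := Infinite.exists_notMem_finset Q.roots.toFinset
  have hB' : Q.eval B ≠ 0 := by
    intro h
    apply hB
    rw [Multiset.mem_toFinset, Polynomial.mem_roots hQ]
    exact h
  refine ⟨fun i => B ^ (i : ℕ), fun a ha b hb hab => ?_⟩
  by_contra hne
  apply hB'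
  rw [Polynomial.eval_prod]
  refine Finset.prod_eq_zero (i := (a, b)) ?_ ?_
  · rw [Finset.mem_filter, Finset.mem_product]
    exact ⟨⟨ha, hb⟩, hne⟩
  · simp only [p, Polynomial.eval_finset_sum, Polynomial.eval_monomial]
    rw [← sub_eq_zero] at hab
    rw [← Finset.sum_sub_distrib] at hab
    rw [← hab]
    refine Finset.sum_congr rfl fun i _ => ?_
    simp only [Pi.sub_apply]
    push_cast
    ring

end Pool.Agent.K4H40.TF
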