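import Mathlib

/-!
The spherical triples: polynomials `A`, `B`, `C` with `A ^ a - B ^ b = C ^ c`.
-/

set_option autoImplicit false

open Polynomial

namespace Pool.Agent.K4H40.TF

/-- there are polynomials, not all constant and without common roots, with `A ^ a - B ^ b = C ^ c` -/
def Sph (a b c : ℕ) : Prop := ∃ A B C : ℂ[X], A ^ a - B ^ b = C ^ c ∧
  (∀ z, ¬ (A.eval z = 0 ∧ C.eval z = 0)) ∧ ¬ (A.natDegree = 0 ∧ C.natDegree = 0)

theorem exists_root' (n : ℕ) (hn : n ≠ 0) (z : ℂ) : ∃ w : ℂ, w ^ n = z :=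
  IsAlgClosed.exists_pow_nat_eq z (Nat.pos_of_ne_zero hn)

theorem natDegree_pow_zero {p : ℂ[X]} {n : ℕ} (hn : n ≠ 0) (h : (p ^ n).natDegree = 0) :
    p.natDegree = 0 := by
  rw [natDegree_pow] at h
  exact (mul_eq_zero.1 h).resolve_left hn

theorem Sph.swap {a b c : ℕ} (ha : a ≠ 0) (hb : b ≠ 0) (hc : c ≠ 0) (h : Sph a b c) : Sph b a c := by
  obtain ⟨A, B, D, h1, h2, h3⟩ := h
  obtain ⟨ζ, hζ⟩ := exists_root' c hc (-1)
  have hζ0 : ζ ≠ 0 := by
    rintro rfl
    rw [zero_pow hc] at hζ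
    norm_num at hζ
  refine ⟨B, A, C ζ * D, ?_, ?_, ?_⟩
  · rw [mul_pow, ← C_pow, hζ, ← h1]
    simp
  · rintro z ⟨h4, h5⟩
    rw [eval_mul, eval_C] at h5
    have h6 := (mul_eq_zero.1 h5).resolve_left hζ0
    have h7 := congrArg (eval z) h1
    simp only [eval_sub, eval_pow, h4, h6, zero_pow hb, zero_pow hc, sub_zero] at h7
    exact h2 z ⟨pow_eq_zero_iff ha |>.1 h7, h6⟩
  · rintro ⟨h4, h5⟩
    rw [natDegree_C_mul hζ0] at h5
    apply h3
    refine ⟨natDegree_pow_zero ha ?_, h5⟩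
    have h6 : A ^ a = B ^ b + D ^ c := by rw [← h1]; ring
    rw [h6]
    have h7 : (B ^ b).natDegree = 0 := by rw [natDegree_pow, h4, mul_zero]
    have h8 : (D ^ c).natDegree = 0 := by rw [natDegree_pow, h5, mul_zero]
    have := natDegree_add_le (B ^ b) (D ^ c)
    rw [h7, h8] at this
    simpa using this

theorem Sph.flip {a b c : ℕ} (hb : b ≠ 0) (h : Sph a b c) : Sph c b a := by
  obtain ⟨A, B, D, h1, h2, h3⟩ := h
  obtain ⟨ζ, hζ⟩ := exists_root' b hb (-1)
  refine ⟨D, C ζ * B, A, ?_, fun z hz => h2 z ⟨hz.2, hz.1⟩, fun hz => h3 ⟨hz.2, hz.1⟩⟩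
  rw [mul_pow, ← C_pow, hζ, ← h1]
  simp

theorem sph_two_two (n : ℕ) (hn : n ≠ 0) : Sph 2 2 n := by
  obtain ⟨κ, hκ⟩ := exists_root' n hn 4
  have hκ0 : κ ≠ 0 := by
    rintro rfl
    rw [zero_pow hn] at hκ
    norm_num at hκ
  refine ⟨X ^ n + 1, X ^ n - 1, C κ * X, ?_, ?_, ?_⟩
  · rw [mul_pow, ← C_pow, hκ]
    have : (C (4 : ℂ) : ℂ[X]) = 4 := rfl
    rw [this]
    ring
  · rintro z ⟨h1, h2⟩
    simp only [eval_mul, eval_C, eval_X] at h2
    have h3 := (mul_eq_zero.1 h2).resolve_left hκ0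
    simp [h3, hn] at h1
  · rintro ⟨-, h⟩
    rw [natDegree_C_mul hκ0, natDegree_X] at h
    exact one_ne_zero h

theorem sph_233 : Sph 2 3 3 := by
  obtain ⟨ρ, hρ⟩ := exists_root' 2 two_ne_zero (-12)
  obtain ⟨κ, hκ⟩ := exists_root' 2 two_ne_zero (6 * ρ)
  have hρ0 : ρ ≠ 0 := by
    rintro rfl
    norm_num at hρ
  have hκ0 : κ ≠ 0 := by
    rintro rfl
    rw [zero_pow two_ne_zero] at hκ
    exact hρ0 (by simpa using hκ.symm)
  refine ⟨C κ * (X * (X ^ 4 - 1)), X ^ 4 + C ρ * X ^ 2 + 1, -(X ^ 4 - C ρ * X ^ 2 + 1), ?_, ?_, ?_⟩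
  · have h1 : (C κ) ^ 2 = (6 : ℂ[X]) * C ρ := by
      rw [← C_pow, hκ, C_mul]; rfl
    have h2 : (C ρ) ^ 2 = (-12 : ℂ[X]) := by
      rw [← C_pow, hρ]; simp; rfl
    have h3 : (C ρ) ^ 3 = (-12 : ℂ[X]) * C ρ := by rw [pow_succ, h2]
    rw [mul_pow, h1]
    ring_nf
    rw [h3]
    ring
  · rintro z ⟨h1, h2⟩
    simp only [eval_mul, eval_C, eval_X, eval_sub, eval_pow, eval_one, eval_neg, eval_add] at h1 h2
    have h3 := (mul_eq_zero.1 h1).resolve_left hκ0
    rcases mul_eq_zero.1 h3 with h4 | h4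
    · rw [h4] at h2
      norm_num at h2
    · have h5 : (z ^ 4 - ρ * z ^ 2 + 1) = 0 := by linear_combination -h2
      have h6 : z ^ 4 = 1 := by linear_combination h4
      have h7 : ρ * z ^ 2 = 2 := by linear_combination h6 - h5
      have h8 : (ρ * z ^ 2) ^ 2 = -12 := by
        have : (ρ * z ^ 2) ^ 2 = ρ ^ 2 * z ^ 4 := by ring
        rw [this, hρ, h6]; norm_num
      rw [h7] at h8
      norm_num at h8
  · rintro ⟨h, -⟩
    rw [natDegree_C_mul hκ0] at h
    have h1 : (X * (X ^ 4 - 1) : ℂ[X]).natDegree = 5 := by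
      compute_degree!
    rw [h1] at h
    omega

theorem sph_234 : Sph 2 3 4 := by
  obtain ⟨κ, hκ⟩ := exists_root' 4 four_ne_zero (-108)
  have hκ0 : κ ≠ 0 := by
    rintro rfl
    norm_num at hκ
  refine ⟨X ^ 12 - 33 * X ^ 8 - 33 * X ^ 4 + 1, X ^ 8 + 14 * X ^ 4 + 1, C κ * (X * (X ^ 4 - 1)),
    ?_, ?_, ?_⟩
  · have h1 : (C κ) ^ 4 = (-108 : ℂ[X]) := by
      rw [← C_pow, hκ]; simp; rfl
    rw [mul_pow, h1]
    ring
  · rintro z ⟨h1, h2⟩
    simp only [eval_mul, eval_C, eval_X, eval_sub, eval_pow, eval_one, eval_add,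
      eval_ofNat] at h1 h2
    rcases mul_eq_zero.1 ((mul_eq_zero.1 h2).resolve_left hκ0) with h4 | h4
    · rw [h4] at h1
      norm_num at h1
    · have h6 : z ^ 4 = 1 := by linear_combination h4
      have h7 : z ^ 12 - 33 * z ^ 8 - 33 * z ^ 4 + 1 = (z ^ 4) ^ 3 - 33 * (z ^ 4) ^ 2 - 33 * z ^ 4 + 1 := by
        ring
      rw [h7, h6] at h1
      norm_num at h1
  · rintro ⟨-, h⟩
    rw [natDegree_C_mul hκ0] at h
    have h1 : (X * (X ^ 4 - 1) : ℂ[X]).natDegree = 5 := by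
      compute_degree!
    rw [h1] at h
    omega

theorem sph_235 : Sph 2 3 5 := by
  obtain ⟨κ, hκ⟩ := exists_root' 5 (by norm_num) 1728
  have hκ0 : κ ≠ 0 := by
    rintro rfl
    norm_num at hκ
  refine ⟨X ^ 30 + 1 + 522 * (X ^ 25 - X ^ 5) - 10005 * (X ^ 20 + X ^ 10),
    X ^ 20 + 1 - 228 * (X ^ 15 - X ^ 5) + 494 * X ^ 10, C κ * (X * (X ^ 10 + 11 * X ^ 5 - 1)),
    ?_, ?_, ?_⟩
  · have h1 : (C κ) ^ 5 = (1728 : ℂ[X]) := by
      rw [← C_pow, hκ]; rfl
    rw [mul_pow, h1]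
    ring
  · rintro z ⟨h1, h2⟩
    simp only [eval_mul, eval_C, eval_X, eval_sub, eval_pow, eval_one, eval_add,
      eval_ofNat] at h1 h2
    rcases mul_eq_zero.1 ((mul_eq_zero.1 h2).resolve_left hκ0) with h4 | h4
    · rw [h4] at h1
      norm_num at h1
    · have h7 : z ^ 30 + 1 + 522 * (z ^ 25 - z ^ 5) - 10005 * (z ^ 20 + z ^ 10) =
        (z ^ 5) ^ 6 + 1 + 522 * ((z ^ 5) ^ 5 - z ^ 5) - 10005 * ((z ^ 5) ^ 4 + (z ^ 5) ^ 2) := by
        ring
      have h8 : (z ^ 5) ^ 2 = 1 - 11 * z ^ 5 := by linear_combination h4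
      rw [h7] at h1
      generalize z ^ 5 = v at h1 h8
      have h3 : v ^ 3 = -11 + 122 * v := by
        have : v ^ 3 = v * v ^ 2 := by ring
        rw [this, h8]
        linear_combination (-11) * h8
      have h4' : v ^ 4 = 122 - 1353 * v := by
        have : v ^ 4 = v * v ^ 3 := by ring
        rw [this, h3]
        linear_combination 122 * h8
      have h5 : v ^ 5 = -1353 + 15005 * v := by
        have : v ^ 5 = v * v ^ 4 := by ring
        rw [this, h4']
        linear_combination (-1353) * h8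
      have h6 : v ^ 6 = 15005 - 166408 * v := by
        have : v ^ 6 = v * v ^ 5 := by ring
        rw [this, h5]
        linear_combination 15005 * h8
      rw [h6, h5, h4', h8] at h1
      ring_nf at h1
      have h9 : v * 21312500 = 1921875 := by linear_combination h1
      have h10 : v = 1921875 / 21312500 := by
        field_simp
        linear_combination h9
      rw [h10] at h8
      norm_num at h8
  · rintro ⟨-, h⟩
    rw [natDegree_C_mul hκ0] at h
    have h1 : (X * (X ^ 10 + 11 * X ^ 5 - 1) : ℂ[X]).natDegree = 11 := by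
      compute_degree!
    rw [h1] at h
    omega

/-- **Spherical triples.** -/
theorem sph_of_lt {a b c : ℕ} (ha : 2 ≤ a) (hb : 2 ≤ b) (hc : 2 ≤ c)
    (h : (1 : ℚ) < 1 / a + 1 / b + 1 / c) : Sph a b c := by
  -- sorted triples
  have key : ∀ a b c : ℕ, 2 ≤ a → a ≤ b → b ≤ c → (1 : ℚ) < 1 / a + 1 / b + 1 / c → Sph a b c := by
    intro a b c ha hab hbc h
    have ha' : (2 : ℚ) ≤ a := by exact_mod_cast ha
    have hab' : (a : ℚ) ≤ b := by exact_mod_cast hab
    have hbc' : (b : ℚ) ≤ c := by exact_mod_cast hbc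
    have h1 : (1 : ℚ) / b ≤ 1 / a := one_div_le_one_div_of_le (by linarith) hab'
    have h2 : (1 : ℚ) / c ≤ 1 / b := one_div_le_one_div_of_le (by linarith) hbc'
    have ha3 : a < 3 := by
      by_contra hcon
      have h3 : (3 : ℚ) ≤ a := by exact_mod_cast not_lt.1 hcon
      have h4 : (1 : ℚ) / a ≤ 1 / 3 := one_div_le_one_div_of_le (by norm_num) h3
      linarith
    have ha2 : a = 2 := by omega
    subst ha2
    have hb4 : b < 4 := by
      by_contra hcon
      have h3 : (4 : ℚ) ≤ b := by exact_mod_cast not_lt.1 hcon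
      have h4 : (1 : ℚ) / b ≤ 1 / 4 := one_div_le_one_div_of_le (by norm_num) h3
      simp only [Nat.cast_ofNat] at h
      linarith
    by_cases hb2 : b = 2
    · subst hb2
      exact sph_two_two c (by omega)
    · have hb3 : b = 3 := by omega
      subst hb3
      have hc6 : c < 6 := by
        by_contra hcon
        have h3 : (6 : ℚ) ≤ c := by exact_mod_cast not_lt.1 hcon
        have h4 : (1 : ℚ) / c ≤ 1 / 6 := one_div_le_one_div_of_le (by norm_num) h3
        simp only [Nat.cast_ofNat] at h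
        linarith
      interval_cases c
      · exact sph_233
      · exact sph_234
      · exact sph_235
  have h0 : ∀ n : ℕ, 2 ≤ n → n ≠ 0 := fun n hn => by omega
  rcases le_total a b with h1 | h1 <;> rcases le_total b c with h2 | h2 <;>
    rcases le_total a c with h3 | h3
  · exact key a b c ha h1 h2 h
  · exact key a b c ha h1 h2 h
  · -- a ≤ c ≤ b
    have h4 := key a c b ha h3 h2 (by linarith)
    exact ((h4.swap (h0 a ha) (h0 c hc) (h0 b hb)).flip (h0 a ha)).swap (h0 b hb) (h0 a ha) (h0 c hc)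
  · -- c ≤ a ≤ b
    have h4 := key c a b hc h3 h1 (by linarith)
    exact (h4.flip (h0 a ha)).swap (h0 b hb) (h0 a ha) (h0 c hc)
  · -- b ≤ a, b ≤ c, a ≤ c
    have h4 := key b a c hb h1 h3 (by linarith)
    exact h4.swap (h0 b hb) (h0 a ha) (h0 c hc)
  · -- b ≤ c ≤ a
    have h4 := key b c a hb h2 h3 (by linarith)
    exact (h4.swap (h0 b hb) (h0 c hc) (h0 a ha)).flip (h0 b hb)
  · -- c ≤ b ≤ a
    have h4 := key c b a hc h2 h1 (by linarith)
    exact h4.flip (h0 b hb)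
  · have h4 := key c b a hc h2 h1 (by linarith)
    exact h4.flip (h0 b hb)

end Pool.Agent.K4H40.TF
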