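import Pool.Agent.K4H40.TF.Gauss

/-!
Polynomials in one element at a place, and the fundamental identity for the coverings of the line.
-/

set_option autoImplicit false
set_option linter.unusedSectionVars false
set_option linter.overlappingInstances false

open FF Pool.Agent.W602.GT Pool.Agent.W603.LV Pool.Agent.W619.PQ IntermediateField Polynomial

namespace Pool.Agent.K4H40.TF

section

variable {E : Type} [Field E] [Algebra ℂ E] (Q : Place ℂ E) {s : E}

theorem ord_poly_zero (h : ∀ s0 : ℂ, s - algebraMap ℂ E s0 ≠ 0 ∧ Q.ord (s - algebraMap ℂ E s0) = 0)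
    {p : ℂ[X]} (hp : p ≠ 0) : aeval s p ≠ 0 ∧ Q.ord (aeval s p) = 0 := by
  have h1 := (IsAlgClosed.splits p).eq_prod_roots
  have key : ∀ m : Multiset ℂ, aeval s ((m.map fun a => X - C a).prod) ≠ 0 ∧
      Q.ord (aeval s ((m.map fun a => X - C a).prod)) = 0 := by
    intro m
    induction m using Multiset.induction_on with
    | empty => simp [Q.ord_one]
    | cons a m ih =>
      rw [Multiset.map_cons, Multiset.prod_cons, map_mul]
      have h2 : aeval s (X - C a) = s - algebraMap ℂ E a := by simp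
      rw [h2]
      refine ⟨mul_ne_zero (h a).1 ih.1, ?_⟩
      rw [Q.ord_mul (h a).1 ih.1, (h a).2, ih.2, add_zero]
  have hl : p.leadingCoeff ≠ 0 := leadingCoeff_ne_zero.2 hp
  have hl' : algebraMap ℂ E p.leadingCoeff ≠ 0 := (map_ne_zero (algebraMap ℂ E)).2 hl
  rw [h1, map_mul, aeval_C]
  obtain ⟨h3, h4⟩ := key p.roots
  refine ⟨mul_ne_zero hl' h3, ?_⟩
  rw [Q.ord_mul hl' h3, Q.ord_const hl, h4, add_zero]

theorem ge_poly (hs : Ge Q 0 s) (p : ℂ[X]) : Ge Q 0 (aeval s p) := by
  rw [aeval_eq_sum_range]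
  refine Ge.sum _ _ fun i _ => ?_
  rw [Algebra.smul_def]
  have h1 : Ge Q 0 (algebraMap ℂ E (p.coeff i)) := by
    by_cases h : p.coeff i = 0
    · left; rw [h, map_zero]
    · right; rw [Q.ord_const h]
  have h2 := hs.pow i
  have := h1.mul h2
  simpa using this

theorem poly_at (s0 : ℂ) (hs : Ge Q 1 (s - algebraMap ℂ E s0)) (p : ℂ[X]) :
    Ge Q 1 (aeval s p - algebraMap ℂ E (p.eval s0)) := by
  obtain ⟨g, hg⟩ := X_sub_C_dvd_sub_C_eval (a := s0) (p := p)
  have h1 := congrArg (aeval s) hg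
  simp only [map_sub, map_mul, aeval_C, aeval_X] at h1
  rw [h1]
  have h2 : Ge Q 0 s := by
    have h3 : s = (s - algebraMap ℂ E s0) + algebraMap ℂ E s0 := by ring
    rw [h3]
    refine (hs.mono (by norm_num)).add ?_
    by_cases h : s0 = 0
    · left; rw [h, map_zero]
    · right; rw [Q.ord_const h]
  have := hs.mul (ge_poly Q h2 g)
  simpa using this

theorem poly_ne (s0 : ℂ) (hs : Ge Q 1 (s - algebraMap ℂ E s0)) {p : ℂ[X]} (hp : p.eval s0 ≠ 0) :
    aeval s p ≠ 0 ∧ Q.ord (aeval s p) = 0 := by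
  have h1 := poly_at Q s0 hs p
  have hc : algebraMap ℂ E (p.eval s0) ≠ 0 := (map_ne_zero (algebraMap ℂ E)).2 hp
  have h2 : aeval s p = algebraMap ℂ E (p.eval s0) + (aeval s p - algebraMap ℂ E (p.eval s0)) := by
    ring
  rcases h1 with h1 | h1
  · rw [sub_eq_zero.1 h1]
    exact ⟨hc, Q.ord_const hp⟩
  · by_cases h0 : aeval s p - algebraMap ℂ E (p.eval s0) = 0
    · rw [sub_eq_zero.1 h0]
      exact ⟨hc, Q.ord_const hp⟩
    · have h3 := Q.ord_add_eq hc h0 (by rw [Q.ord_const hp]; omega)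
      rw [← h2, Q.ord_const hp] at h3
      exact h3

theorem poly_pos (s0 : ℂ) (hs : Ge Q 1 (s - algebraMap ℂ E s0)) {p : ℂ[X]} (hp : p.eval s0 = 0)
    (h0 : aeval s p ≠ 0) : 0 < Q.ord (aeval s p) := by
  have h1 := poly_at Q s0 hs p
  rw [hp, map_zero, sub_zero] at h1
  have := h1.resolve_left h0
  omega

end

section

variable {K E : Type} [Field K] [Field E] [Algebra ℂ K] [Algebra ℂ E] [Algebra K E]
  [IsScalarTower ℂ K E] {F : IntermediateField ℂ K} [IsFF ℂ F]

/-- the data of a covering of the line -/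
structure CovData (F : Type) [Field F] [Algebra ℂ F] (μ : Place ℂ F → ℕ) (y : F)
    (qi : Place ℂ F) (N D : ℂ[X]) (R : Place ℂ F → ℂ[X]) : Prop where
  gen : ℂ⟮y⟯ = ⊤
  pole : qi.ord y = -1
  noroot : ∀ z, ¬ (N.eval z = 0 ∧ D.eval z = 0)
  deg : ¬ (N.natDegree = 0 ∧ D.natDegree = 0)
  inf : R qi ^ (μ qi) = D
  fin : ∀ q, q ≠ qi → ∃ a : ℂ, q.ord (y - algebraMap ℂ F a) = 1 ∧ R q ^ (μ q) = N - C a * D

variable {μ : Place ℂ F → ℕ} {y : F} {qi : Place ℂ F} {N D : ℂ[X]} {R : Place ℂ F → ℂ[X]}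

theorem CovData.D_ne (h : CovData F μ y qi N D R) : D ≠ 0 := by
  rintro rfl
  apply h.deg
  refine ⟨?_, natDegree_zero⟩
  by_contra hN
  have h1 : N.degree ≠ 0 := fun h0 => hN (natDegree_eq_of_degree_eq_some h0)
  obtain ⟨z, hz⟩ := IsAlgClosed.exists_root N h1
  exact h.noroot z ⟨hz, eval_zero⟩

theorem CovData.R_ne (h : CovData F μ y qi N D R) {q : Place ℂ F} (hq : μ q ≠ 0) : R q ≠ 0 := by
  intro h0
  by_cases hqi : q = qi
  · subst hqi
    have h1 := h.inf
    rw [h0, zero_pow hq] at h1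
    exact h.D_ne h1.symm
  · obtain ⟨a, -, ha⟩ := h.fin q hqi
    rw [h0, zero_pow hq] at ha
    have hNa : N = C a * D := (sub_eq_zero.1 ha.symm)
    apply h.deg
    have hD : D.natDegree = 0 := by
      by_contra hD
      have h1 : D.degree ≠ 0 := fun h0 => hD (natDegree_eq_of_degree_eq_some h0)
      obtain ⟨z, hz⟩ := IsAlgClosed.exists_root D h1
      refine h.noroot z ⟨?_, hz⟩
      have hz' : D.eval z = 0 := hz
      rw [hNa, eval_mul, hz', mul_zero]
    refine ⟨?_, hD⟩
    rw [hNa]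
    have := natDegree_C_mul_le a D
    omega

theorem CovData.trans (h : CovData F μ y qi N D R) {s : E}
    (hs : aeval s N = algebraMap K E (y : K) * aeval s D) : Transcendental ℂ s := by
  intro hs'
  have h1 : ∃ c : ℂ, algebraMap ℂ E c = s := by
    have h2 := minpoly.irreducible hs'.isIntegral
    have h3 := IsAlgClosed.degree_eq_one_of_irreducible ℂ h2
    have h4 := minpoly.mem_range_of_degree_eq_one ℂ s h3
    exact h4
  obtain ⟨c, rfl⟩ := h1
  rw [aeval_algebraMap_apply, aeval_algebraMap_apply, coe_aeval_eq_eval] at hs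
  by_cases hD : D.eval c = 0
  · rw [hD, map_zero, mul_zero] at hs
    exact h.noroot c ⟨(map_eq_zero (algebraMap ℂ E)).1 hs, hD⟩
  · have h2 : algebraMap K E (y : K) = algebraMap K E (algebraMap ℂ K (N.eval c / D.eval c)) := by
      rw [← IsScalarTower.algebraMap_apply ℂ K E, map_div₀, eq_div_iff, ← hs]
      exact (map_ne_zero (algebraMap ℂ E)).2 hD
    have h3 : (y : K) = algebraMap ℂ K (N.eval c / D.eval c) := (algebraMap K E).injective h2
    have h4 : y = algebraMap ℂ F (N.eval c / D.eval c) := Subtype.ext h3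
    apply transcendental_of_top h.gen
    rw [h4]
    exact isAlgebraic_algebraMap _

variable {s : E}

theorem CovData.value (h : CovData F μ y qi N D R)
    (hs : aeval s N = algebraMap K E (y : K) * aeval s D) (a : ℂ) :
    aeval s (N - C a * D) = algebraMap K E ((y - algebraMap ℂ F a : F) : K) * aeval s D := by
  have h1 : ((y - algebraMap ℂ F a : F) : K) = (y : K) - algebraMap ℂ K a := rfl
  rw [h1, map_sub, map_sub, map_mul, aeval_C, hs, ← IsScalarTower.algebraMap_apply ℂ K E]
  ring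

theorem CovData.sub_ne (h : CovData F μ y qi N D R) (a : ℂ) : y - algebraMap ℂ F a ≠ 0 := by
  intro h0
  apply transcendental_of_top h.gen
  rw [sub_eq_zero.1 h0]
  exact isAlgebraic_algebraMap _

/-- **The fundamental identity.** -/
theorem CovData.ident (h : CovData F μ y qi N D R)
    (hs : aeval s N = algebraMap K E (y : K) * aeval s D) {Q : Place ℂ E} {P : Place ℂ K}
    {q : Place ℂ F} {e ρ : ℕ} (hQP : Over Q P e) (hPq : Over P q ρ) {s0 : ℂ}
    (hs0 : Ge Q 1 (s - algebraMap ℂ E s0)) (q' : Place ℂ F) :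
    (q' = q → (μ q' : ℤ) * Q.ord (aeval s (R q')) = e * ρ) ∧
    (q' ≠ q → (μ q' : ℤ) * Q.ord (aeval s (R q')) = 0) := by
  have hst := h.trans hs
  have hinj : ∀ {p : ℂ[X]}, p ≠ 0 → aeval s p ≠ 0 := fun hp h0 => hp (transcendental_iff.1 hst _ h0)
  have hD0 := hinj h.D_ne
  have hQF : ∀ f : F, Q.ord (algebraMap K E (f : K)) = e * ρ * q.ord f := by
    intro f
    rw [hQP.2]
    have h1 : P.ord (f : K) = ρ * q.ord f := hPq.2 f
    rw [h1]; ring
  have he : (0 : ℤ) < e * ρ := by
    have h1 : (0 : ℤ) < e := by exact_mod_cast hQP.1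
    have h2 : (0 : ℤ) < ρ := by exact_mod_cast hPq.1
    positivity
  have hy0 : y ≠ 0 := by
    have := h.sub_ne 0
    rwa [map_zero, sub_zero] at this
  have hfin : ∀ p : Place ℂ F, p ≠ qi → ∃ a : ℂ, p.ord (y - algebraMap ℂ F a) = 1 ∧
      (μ p : ℤ) * Q.ord (aeval s (R p)) = Q.ord (aeval s (N - C a * D)) := by
    intro p hp
    obtain ⟨a, h1, h2⟩ := h.fin p hp
    refine ⟨a, h1, ?_⟩
    rw [← h2, map_pow, Q.ord_pow]
  have hinf : (μ qi : ℤ) * Q.ord (aeval s (R qi)) = Q.ord (aeval s D) := by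
    have h1 := congrArg (fun p => Q.ord (aeval s p)) h.inf
    simp only [map_pow, Q.ord_pow] at h1
    exact h1
  by_cases hD : D.eval s0 = 0
  · -- the point at infinity
    have hN : N.eval s0 ≠ 0 := fun hN => h.noroot s0 ⟨hN, hD⟩
    obtain ⟨h1, h2⟩ := poly_ne Q s0 hs0 hN
    have h3 := poly_pos Q s0 hs0 hD hD0
    have hyE : algebraMap K E (y : K) ≠ 0 := by
      intro h0
      rw [h0, zero_mul] at hs
      exact h1 hs
    have h4 : Q.ord (aeval s D) = - (e * ρ * q.ord y) := by
      have h5 := congrArg Q.ord hs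
      rw [h2, Q.ord_mul hyE hD0, hQF] at h5
      linarith
    have h5 : q.ord y < 0 := by
      by_contra hcon
      have := mul_nonneg he.le (not_lt.1 hcon)
      omega
    have hqqi : q = qi := ord_unique_pole h.gen h5 (by rw [h.pole]; norm_num)
    subst hqqi
    rw [h.pole] at h4
    refine ⟨?_, ?_⟩
    · rintro rfl
      rw [hinf, h4]; ring
    · intro hne
      obtain ⟨a, -, ha⟩ := hfin q' hne
      rw [ha]
      refine (poly_ne Q s0 hs0 ?_).2
      rw [eval_sub, eval_mul, hD, mul_zero, sub_zero]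
      exact hN
  · -- a finite point
    obtain ⟨h1, h2⟩ := poly_ne Q s0 hs0 hD
    have hreg : ∀ p : ℂ[X], Ge Q 0 (aeval s p) := by
      intro p
      by_cases hp : p.eval s0 = 0
      · by_cases hp0 : aeval s p = 0
        · exact Or.inl hp0
        · exact Or.inr (poly_pos Q s0 hs0 hp hp0).le
      · exact Or.inr (poly_ne Q s0 hs0 hp).2.ge
    have hyE : algebraMap K E (y : K) ≠ 0 := by
      intro h0
      have h5 : (y : K) = 0 := (map_eq_zero (algebraMap K E)).1 h0
      exact hy0 (Subtype.ext h5)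
    have hyord : 0 ≤ q.ord y := by
      have h3 := congrArg Q.ord hs
      rw [Q.ord_mul hyE h1, h2, hQF, add_zero] at h3
      have h4 : 0 ≤ Q.ord (aeval s N) := by
        rcases hreg N with h5 | h5
        · rw [h5, Q.ord_zero]
        · exact h5
      by_contra hcon
      have : (e * ρ : ℤ) * q.ord y < 0 := mul_neg_of_pos_of_neg he (not_le.1 hcon)
      omega
    have hqqi : q ≠ qi := by
      rintro rfl
      rw [h.pole] at hyord
      omega
    have hval : ∀ a : ℂ, Q.ord (aeval s (N - C a * D)) = e * ρ * q.ord (y - algebraMap ℂ F a) := by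
      intro a
      rw [h.value hs, Q.ord_mul _ h1, h2, hQF, add_zero]
      intro h0
      have h5 : ((y - algebraMap ℂ F a : F) : K) = 0 := (map_eq_zero (algebraMap K E)).1 h0
      exact h.sub_ne a (Subtype.ext h5)
    refine ⟨?_, ?_⟩
    · rintro rfl
      obtain ⟨a, ha1, ha⟩ := hfin q' hqqi
      rw [ha, hval, ha1, mul_one]
    · intro hne
      by_cases hq' : q' = qi
      · subst hq'
        rw [hinf, h2]
      · obtain ⟨a, ha1, ha⟩ := hfin q' hq'
        rw [ha, hval]
        have h6 : q.ord (y - algebraMap ℂ F a) = 0 := by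
          have h7 : ¬ 0 < q.ord (y - algebraMap ℂ F a) := fun h8 =>
            hne (ord_unique_zero (top_sub h.gen a) (by omega) h8)
          have h9 : Ge q 0 (y - algebraMap ℂ F a) := by
            refine Ge.sub (Or.inr hyord) ?_
            by_cases ha0 : a = 0
            · left; rw [ha0, map_zero]
            · right; rw [q.ord_const ha0]
          have h10 := h9.resolve_left (h.sub_ne a)
          omega
        rw [h6, mul_zero]

/-- the place is not trivial on the base curve -/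
theorem CovData.not_trivial (h : CovData F μ y qi N D R)
    (hs : aeval s N = algebraMap K E (y : K) * aeval s D) {Q : Place ℂ E} {P : Place ℂ K}
    {e : ℕ} (hQP : Over Q P e) {s0 : ℂ}
    (hs0 : Ge Q 1 (s - algebraMap ℂ E s0)) : ¬ TrivialOn F P := by
  intro htriv
  have hst := h.trans hs
  have hinj : ∀ {p : ℂ[X]}, p ≠ 0 → aeval s p ≠ 0 := fun hp h0 => hp (transcendental_iff.1 hst _ h0)
  have hD0 := hinj h.D_ne
  have hQF : ∀ f : F, f ≠ 0 → Q.ord (algebraMap K E (f : K)) = 0 := by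
    intro f hf
    rw [hQP.2, htriv f hf, mul_zero]
  have hne : ∀ f : F, f ≠ 0 → algebraMap K E (f : K) ≠ 0 := by
    intro f hf h0
    have h5 : (f : K) = 0 := (map_eq_zero (algebraMap K E)).1 h0
    exact hf (Subtype.ext h5)
  have hy0 : y ≠ 0 := by
    have := h.sub_ne 0
    rwa [map_zero, sub_zero] at this
  by_cases hD : D.eval s0 = 0
  · have hN : N.eval s0 ≠ 0 := fun hN => h.noroot s0 ⟨hN, hD⟩
    obtain ⟨h1, h2⟩ := poly_ne Q s0 hs0 hN
    have h3 := poly_pos Q s0 hs0 hD hD0
    have h5 := congrArg Q.ord hs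
    rw [h2, Q.ord_mul (hne y hy0) hD0, hQF y hy0] at h5
    omega
  · obtain ⟨h1, h2⟩ := poly_ne Q s0 hs0 hD
    have h3 := h.value hs (N.eval s0 / D.eval s0)
    have h4 : aeval s (N - C (N.eval s0 / D.eval s0) * D) ≠ 0 := by
      rw [h3]
      exact mul_ne_zero (hne _ (h.sub_ne _)) h1
    have h5 := poly_pos Q s0 hs0 (p := N - C (N.eval s0 / D.eval s0) * D) (by
      rw [eval_sub, eval_mul, eval_C, div_mul_cancel₀ _ hD, sub_self]) h4
    rw [h3, Q.ord_mul (hne _ (h.sub_ne _)) h1, hQF _ (h.sub_ne _), h2] at h5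
    omega

end

end Pool.Agent.K4H40.TF
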