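import Pool.Agent.Y199.NN.NegA1
import Pool.Agent.W602.GT.KPsef
import Pool.Agent.W636.PG.Trans
import Pool.Agent.K4H40.TF.Form

/-!
`A¹`-ruled fields: the images are `A¹`-uniruled and the log canonical bundle is not pseudo-effective.
These are the theorems of the starting files `Pool/Agent/R882/LOver`, `Pool/Agent/TH766/MC/A1`,
`Pool/Agent/W602/GT/KPsefS`, repeated here to keep the imports small.
-/

set_option autoImplicit false
set_option linter.unusedSectionVars false
set_option linter.overlappingInstances false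

open FF Pool.Agent.W602.GT Pool.Agent.W603.LV IntermediateField
open Pool.Agent.W619.PL (IsA1Uniruled LogKodairaNeg)

namespace Pool.Agent.K4H40.TF

section

variable {k K : Type} [Field k] [CharZero k] [Field K] [Algebra k K]

theorem fd_basis [Algebra.EssFiniteType k K] {n : ℕ} {Z : Fin n → K}
    (hZ : IsTranscendenceBasis k Z) :
    FiniteDimensional (IntermediateField.adjoin k (Set.range Z)) K := by
  set K0 := IntermediateField.adjoin k (Set.range Z) with hK0
  have hess : Algebra.EssFiniteType K0 K := Algebra.EssFiniteType.of_comp k K0 K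
  have halg : Algebra.IsAlgebraic K0 K := hZ.isAlgebraic_field
  obtain ⟨s, hs⟩ := IntermediateField.fg_top K0 K
  have h1 : FiniteDimensional K0 (IntermediateField.adjoin K0 (s : Set K)) :=
    IntermediateField.finiteDimensional_adjoin fun x _ => (halg.isAlgebraic x).isIntegral
  rw [hs] at h1
  exact h1.equiv IntermediateField.topEquiv.toLinearEquiv

theorem derReg_of_log {P : Place k K} {D : Derivation k K K} (h : DerLog P D) : DerReg P D := by
  intro f hf
  by_cases h0 : f = 0
  · rw [h0, map_zero]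
    exact P.reg_zero
  · have h3 := P.reg_mul (h f) hf
    rwa [div_mul_cancel₀ _ h0] at h3


end

section

variable {k K : Type} [Field k] [Field K] [Algebra k K]

/-- derivations vanish on elements which are algebraic over the constants -/
theorem der_of_alg [CharZero k] (D : Derivation k K K) {z : K} (hz : IsAlgebraic (consts D) z) :
    D z = 0 := by
  have hint : IsIntegral (consts D) z := hz.isIntegral
  have hchar : CharZero (consts D) := charZero_of_injective_algebraMap
    (algebraMap k (consts D)).injective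
  have h1 : overConsts D (Polynomial.aeval z (minpoly (consts D) z)) = 0 := by
    rw [minpoly.aeval, map_zero]
  rw [Derivation.map_aeval] at h1
  have h2 : Polynomial.aeval z (Polynomial.derivative (minpoly (consts D) z)) ≠ 0 :=
    (minpoly.irreducible hint).separable.aeval_derivative_ne_zero (minpoly.aeval _ _)
  rw [smul_eq_mul, overConsts_apply] at h1
  exact (mul_eq_zero.mp h1).resolve_left h2

end

/-- the two definitions of pseudo-effectivity agree -/
theorem psef_iff' {k F : Type} [Field k] [CharZero k] [IsAlgClosed k] [Field F] [Algebra k F] (n : ℕ)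
    (Bd : Place k F → Prop) :
    Psef k F n Bd ↔ Pool.Agent.W619.TW.IsPsef k F n Bd := by
  constructor
  · rintro ⟨S, h⟩
    refine ⟨S, fun M => ?_⟩
    obtain ⟨j, hj, ω, ⟨h1, h2, h3⟩, h4⟩ := h M
    exact ⟨j, hj, ω, ⟨h1, fun v hv hB D hD => h3 v hv hB D hD, fun v hv _ D hD => h2 v hv D hD⟩, h4⟩
  · rintro ⟨S, h⟩
    refine ⟨S, fun M => ?_⟩
    obtain ⟨j, hj, ω, ⟨h1, h2, h3⟩, h4⟩ := h M
    refine ⟨j, hj, ω, ⟨h1, fun v hv D hD => ?_, fun v hv hB D hD => h2 v hv hB D hD⟩, h4⟩
    by_cases hB : Bd v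
    · exact h3 v hv hB D hD
    · exact h2 v hv hB D fun l => derReg_of_log (hD l)


/-- The open variety with the function field `E` and the boundary `B` is `A¹`-ruled. -/
def A1Ruled {E : Type} [Field E] [Algebra ℂ E] (B : Place ℂ E → Prop) : Prop :=
  ∃ (δ : Derivation ℂ E E) (σ : E) (M : IntermediateField ℂ E), σ ≠ 0 ∧ δ σ = σ ∧ M.FG ∧
    M ≤ consts δ ∧ IntermediateField.adjoin M {σ} = ⊤ ∧
    ∀ P : Place ℂ E, (∀ c : E, δ c = 0 → c ≠ 0 → P.ord c = 0) → 0 ≤ P.ord σ → ¬ B P


theorem alg_map {A B K : Type} [Field A] [Field B] [Field K] [Algebra A K] [Algebra B K]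
    (j : A →+* B) (hj : ∀ a, algebraMap B K (j a) = algebraMap A K a) {z : K}
    (hz : IsAlgebraic A z) : IsAlgebraic B z := by
  obtain ⟨P, hP0, hP⟩ := hz
  refine ⟨P.map j, (Polynomial.map_ne_zero_iff j.injective).2 hP0, ?_⟩
  rw [Polynomial.aeval_def, Polynomial.eval₂_map]
  have h1 : (algebraMap B K).comp j = algebraMap A K := RingHom.ext hj
  rw [h1]
  exact hP


section

variable {n : ℕ} {K : Type} [Field K] [Algebra ℂ K]

theorem a1_of_delta (htr : Algebra.trdeg ℂ K = n) {Bd : Place ℂ K → Prop}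
    (δ : Derivation ℂ K K) {σ : K} (hσ0 : σ ≠ 0) (hσ : δ σ = σ) (E : IntermediateField ℂ K)
    (hfg : E.FG) (hE : E ≤ consts δ) (htop : E⟮σ⟯ = ⊤)
    (hBd : ∀ P : Place ℂ K, (∀ c : K, δ c = 0 → c ≠ 0 → P.ord c = 0) → 0 ≤ P.ord σ → ¬ Bd P) :
    Pool.Agent.W619.PL.IsA1Uniruled ℂ K n Bd := by
  classical
  have hcontr : ¬ IsAlgebraic (consts δ) σ := by
    intro h
    have h1 := der_of_alg δ h
    rw [hσ] at h1
    exact hσ0 h1
  have hσt : Transcendental E σ := fun h => hcontr (alg_map (inclusion hE).toRingHom (fun _ => rfl) h)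
  have hfin : FiniteDimensional E⟮σ⟯ K := by
    have h1 : Module.Finite E⟮σ⟯ K := by
      refine ⟨⟨{1}, ?_⟩⟩
      rw [eq_top_iff]
      intro z _
      have hz : z ∈ E⟮σ⟯ := by rw [htop]; exact mem_top
      rw [Finset.coe_singleton, Submodule.mem_span_singleton]
      exact ⟨⟨z, hz⟩, by rw [Algebra.smul_def, mul_one]; rfl⟩
    exact h1
  have hFF : IsFF E K := IsFF.of_finite hσt hfin
  have htr2 : Algebra.trdeg ℂ E + 1 = n := by
    have h1 := _root_.trdeg_add_eq ℂ E (A := K)
    rw [hFF.trdeg, htr] at h1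
    exact h1
  have hess : Algebra.EssFiniteType ℂ E := (IntermediateField.essFiniteType_iff).2 hfg
  let e1 : RatFunc E ≃ₐ[E] E⟮σ⟯ := RatFunc.algEquivOfTranscendental σ hσt
  let e2 : E⟮σ⟯ ≃ₐ[E] K := (equivOfEq htop).trans topEquiv
  let e3 : RatFunc E ≃ₐ[E] K := e1.trans e2
  have he3 : e3 RatFunc.X = σ := by
    change e2 (e1 RatFunc.X) = σ
    have : e1 RatFunc.X = AdjoinSimple.gen E σ := by
      rw [← RatFunc.algebraMap_X]
      change RatFunc.algEquivOfTranscendental σ hσt
        (algebraMap (Polynomial E) (RatFunc E) Polynomial.X) = _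
      rw [RatFunc.algEquivOfTranscendental_algebraMap]
      apply Subtype.ext
      simp
    rw [this]
    rfl
  refine ⟨E, inferInstance, inferInstance,
    ((e3.symm.restrictScalars ℂ : K ≃ₐ[ℂ] RatFunc E) : K →ₐ[ℂ] RatFunc E), hess, htr2, ?_⟩
  intro w hw v e he hwv
  have hwv' : ∀ f : K, w.ord (e3.symm f) = e * v.ord f := hwv
  refine hBd v (fun c hc hc0 => ?_) ?_
  · by_contra hne
    have h1 : w.ord (e3.symm c) ≠ 0 := by
      rw [hwv']
      have : (e : ℤ) ≠ 0 := by exact_mod_cast he.ne'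
      exact mul_ne_zero this hne
    have h2 : Transcendental E (e3.symm c) := w.transcendental_of_ord_ne h1
    have h3 : Transcendental E c := by
      intro h
      exact h2 (h.algHom (e3.symm : K →ₐ[E] RatFunc E))
    have h4 := (IsFF.isAlgebraic h3).isAlgebraic σ
    apply hcontr
    have hle : ∀ a ∈ E⟮c⟯, a ∈ consts δ := by
      have h5 : E⟮c⟯ ≤ IntermediateField.extendScalars hE := by
        rw [IntermediateField.adjoin_le_iff]
        rintro _ rfl
        exact hc
      exact fun a ha => h5 ha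
    exact alg_map ((algebraMap E⟮c⟯ K).codRestrict (consts δ) (fun a => hle _ a.2)) (fun _ => rfl) h4
  · have h1 := hwv' σ
    have h2 : e3.symm σ = RatFunc.X := by rw [← he3, AlgEquiv.symm_apply_apply]
    rw [h2] at h1
    have h3 : 0 ≤ w.ord RatFunc.X := by
      rcases hw with h | h
      · exact absurd h RatFunc.X_ne_zero
      · exact h
    rw [h1] at h3
    have : (0 : ℤ) < e := by exact_mod_cast he
    by_contra hcon
    push Not at hcon
    have := mul_neg_of_pos_of_neg this hcon
    omega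


end

section

variable {k : Type} [Field k]

theorem ord_pow_nonneg {K : Type} [Field K] [Algebra k K] (P : Place k K) {f : K} (h : P.Reg f)
    {N : ℕ} (h0 : f ^ N ≠ 0) : 0 ≤ P.ord (f ^ N) := by
  rw [P.ord_pow]
  by_cases hN : N = 0
  · rw [hN]; simp
  · have hf : f ≠ 0 := fun h1 => h0 (by rw [h1, zero_pow hN])
    have h1 := (Place.reg_iff _ hf).1 h
    positivity


/-- If a multiple of `K_X + D` is effective then `K_X + D` is pseudo-effective. -/
theorem psef_of_kodGe {K : Type} [Field K] [Algebra k K] {w : ℕ} {Bd : Place k K → Prop}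
    (h : KodGe k K w Bd 0) : Psef k K w Bd := by
  classical
  obtain ⟨N0, hN0, ω, hω, D, hD, -⟩ := h
  refine ⟨{1}, fun N => ⟨N0, hN0, fun D' => ω 0 D' ^ N, ⟨?_, ?_, ?_⟩, D, pow_ne_zero _ hD⟩⟩
  · intro A D'
    change ω 0 _ ^ N = _
    rw [(hω 0).1 A D', mul_pow, ← pow_mul]
  · intro P hP D' hD'
    by_cases h0 : ω 0 D' ^ N = 0
    · exact Or.inl h0
    · refine Or.inr ⟨1, by simp, one_ne_zero, ?_⟩
      rw [P.ord_one, mul_zero]
      have h1 := (hω 0).2.1 P hP D' hD'
      exact ord_pow_nonneg P h1 h0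
  · intro P hP hBd D' hD'
    by_cases h0 : ω 0 D' ^ N = 0
    · exact Or.inl h0
    · refine Or.inr ⟨1, by simp, one_ne_zero, ?_⟩
      rw [P.ord_one, mul_zero]
      have h1 := (hω 0).2.2 P hP hBd D' hD'
      exact ord_pow_nonneg P h1 h0


end

section

variable {L E : Type} [Field L] [Field E] [Algebra ℂ L] [Algebra ℂ E] [Algebra L E]
  [IsScalarTower ℂ L E] [FiniteDimensional L E] [Algebra.EssFiniteType ℂ L]
  [Algebra.EssFiniteType ℂ E] {n : ℕ}

/-- images of `A¹`-ruled varieties: the log canonical bundle -/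
theorem a1_not_psef (hE : Algebra.trdeg ℂ E = n) (hL : Algebra.trdeg ℂ L = n)
    {BE : Place ℂ E → Prop} {BL : Place ℂ L → Prop}
    (hB : ∀ (P : Place ℂ L) (Q : Place ℂ E) (e : ℕ), Over Q P e → BL P → BE Q)
    (h : A1Ruled BE) : ¬ Psef ℂ L n BL := by
  intro hps
  rw [psef_iff'] at hps
  have hT := (Pool.Agent.W636.PG.main Pool.Agent.Y199.NN.pull ℂ L E n hL (fun y hy => fd_basis hy) BL).1 hps
  rw [← psef_iff'] at hT
  obtain ⟨δ, σ, M, h1, h2, h3, h4, h5, h6⟩ := h
  refine not_psef hE δ h1 h2 ?_ (fun P hP hPσ hBP => ?_) hT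
  · have hle : (IntermediateField.adjoin M {σ}).toSubfield ≤
        (IntermediateField.adjoin (consts δ) {σ}).toSubfield := by
      change Subfield.closure _ ≤ _
      rw [Subfield.closure_le]
      rintro y (⟨c, rfl⟩ | hy)
      · exact (IntermediateField.adjoin (consts δ) {σ}).algebraMap_mem (⟨c, h4 c.2⟩ : consts δ)
      · rw [Set.mem_singleton_iff.mp hy]
        exact IntermediateField.mem_adjoin_simple_self _ _
    rw [eq_top_iff]
    intro y _
    have hy : y ∈ IntermediateField.adjoin M {σ} := by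
      rw [h5]
      exact IntermediateField.mem_top
    exact hle hy
  · obtain ⟨v, e, hv, hBv⟩ := hBP
    exact h6 P hP hPσ (hB v P e hv hBv)

/-- images of `A¹`-uniruled varieties are `A¹`-uniruled -/
theorem a1_down' {BE : Place ℂ E → Prop} {BL : Place ℂ L → Prop}
    (hB : ∀ (P : Place ℂ L) (Q : Place ℂ E) (e : ℕ), Over Q P e → BL P → BE Q)
    (hA : IsA1Uniruled ℂ E n BE) : IsA1Uniruled ℂ L n BL := by
  obtain ⟨M, _, _, φ, h1, h2, h3⟩ := hA
  refine ⟨M, inferInstance, inferInstance, φ.comp (IsScalarTower.toAlgHom ℂ L E), h1, h2,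
    fun w hX v e he hv hb => ?_⟩
  have hv' : ∀ f : L, w.ord (φ (algebraMap L E f)) = e * v.ord f := hv
  obtain ⟨t, ht0, ht⟩ := v.surj
  have he' : (0 : ℤ) < e := by exact_mod_cast he
  obtain ⟨w', a, ha, hw'⟩ := exists_restrict w (φ : E →+* RatFunc M)
    (fun c hc => by
      change w.ord (φ (algebraMap ℂ E c)) = 0
      rw [φ.commutes, IsScalarTower.algebraMap_apply ℂ M (RatFunc M)]
      exact w.ord_const (by simpa using hc)) (f0 := algebraMap L E t) (by
      have h4 := hv' t
      rw [ht, mul_one] at h4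
      change w.ord (φ (algebraMap L E t)) ≠ 0
      rw [h4]
      omega)
  have ha' : (0 : ℤ) < a := by exact_mod_cast ha
  have h5 : (a : ℤ) * w'.ord (algebraMap L E t) = e := by
    rw [← hw']
    have h4 := hv' t
    rw [ht, mul_one] at h4
    exact h4
  have h6 : 0 < w'.ord (algebraMap L E t) := by
    by_contra h
    have : (a : ℤ) * w'.ord (algebraMap L E t) ≤ 0 :=
      mul_nonpos_of_nonneg_of_nonpos ha'.le (not_lt.1 h)
    omega
  refine h3 w hX w' a ha (fun f => hw' f) (hB v w' (w'.ord (algebraMap L E t)).toNat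
    ⟨by omega, fun f => ?_⟩ hb)
  rw [Int.toNat_of_nonneg h6.le]
  have h7 : (a : ℤ) * w'.ord (algebraMap L E f) = e * v.ord f := by
    rw [← hw']
    exact hv' f
  apply mul_left_cancel₀ ha'.ne'
  rw [h7, ← h5]
  ring

end


end Pool.Agent.K4H40.TF
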