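import Pool.Agent.K4H40.TF.Local
import Pool.Agent.K4H40.TF.Defs

/-!
Toric fibrations: a place at which the logarithmic form of toric type is not regular is toric.
-/

set_option autoImplicit false
set_option linter.unusedSectionVars false

open FF Pool.Agent.W603.LV Pool.Agent.W619.PQ Pool.Agent.W619.TW

namespace Pool.Agent.K4H40.TF

section

variable {k K : Type*} [Field k] [CharZero k] [Field K] [Algebra k K]

/-- the logarithmic derivative of a Laurent monomial -/
theorem der_mono {n : ℕ} {D : Derivation k K K} {z : Fin n → K} (hz : ∀ i, z i ≠ 0) {μ : Fin n → k}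
    (hD : ∀ i, D (z i) = algebraMap k K (μ i) * z i) (T : Fin n → ℤ) :
    D (∏ i, z i ^ T i) = algebraMap k K (∑ i, (T i : k) * μ i) * ∏ i, z i ^ T i := by
  classical
  have key : ∀ s : Finset (Fin n), D (∏ i ∈ s, z i ^ T i) =
      algebraMap k K (∑ i ∈ s, (T i : k) * μ i) * ∏ i ∈ s, z i ^ T i := by
    intro s
    induction s using Finset.induction_on with
    | empty => simp
    | insert a s ha ih =>
      rw [Finset.prod_insert ha, Finset.sum_insert ha, D.leibniz, ih, smul_eq_mul, smul_eq_mul,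
        map_add, map_mul]
      have h1 : D (z a ^ T a) = algebraMap k K (T a : k) * algebraMap k K (μ a) * z a ^ T a := by
        have h2 := dlog_zpow D (hz a) (T a)
        rw [hD a, mul_div_cancel_right₀ _ (hz a)] at h2
        have h3 : z a ^ T a ≠ 0 := zpow_ne_zero _ (hz a)
        rw [div_eq_iff h3] at h2
        rw [h2, map_intCast]
      rw [h1]
      ring
  exact key _

end

section

variable {K : Type} [Field K] [Algebra ℂ K] {F : IntermediateField ℂ K} [IsFF ℂ F] {r : ℕ}
  {t : Fin r → K}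

theorem over_ge {P : Place ℂ K} {q : Place ℂ F} {e : ℕ} (hPq : Over P q e) {f : F} {c : ℤ}
    (hf : Ge q c f) : Ge P (e * c) (f : K) := by
  rcases hf with rfl | hf
  · left; rfl
  · right
    have := hPq.2 f
    change P.ord (f : K) = _ at this
    rw [this]
    have : (0 : ℤ) ≤ e := by positivity
    nlinarith

/-- **Toric places.** -/
theorem toric_of_not_reg {P : Place ℂ K} {q : Place ℂ F} {e : ℕ} (hPq : Over P q e)
    (ht0 : ∀ i, t i ≠ 0) {u : F} (hu : q.ord u = 1) (D : Fin (r + 1) → Derivation ℂ K K)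
    (hD : ∀ j, Pres P (D j)) {z : Fin (r + 1) → K} (hz : z = Fin.cons (u : K) t)
    (hdet : ¬ Ge P 0 (Matrix.of fun j i => D j (z i) / z i).det) : IsToric F t P := by
  classical
  intro g hg
  have hu0 : u ≠ 0 := by
    rintro rfl
    rw [q.ord_zero] at hu
    omega
  have huK : (u : K) ≠ 0 := by
    intro h; exact hu0 (Subtype.ext h)
  have hz0 : ∀ i, z i ≠ 0 := by
    intro i
    rw [hz]
    refine Fin.cases ?_ (fun j => ?_) i
    · exact huK
    · exact ht0 j
  have hordF : ∀ f : F, P.ord (f : K) = e * q.ord f := fun f => hPq.2 f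
  have he : (0 : ℤ) < e := by exact_mod_cast hPq.1
  set N : (Fin r →₀ ℕ) → ℤ := fun m => P.ord ((g.coeff m : F) : K) + ∑ i, (m i : ℤ) * P.ord (t i) with hN
  obtain ⟨m1, hm1, hmin⟩ := Finset.exists_min_image g.support N
    (Finset.nonempty_iff_ne_empty.2 (by rwa [Ne, MvPolynomial.support_eq_empty]))
  refine ⟨m1, hm1, ?_, hmin⟩
  set c := N m1 with hc
  change P.ord (MvPolynomial.aeval t g) = c
  by_contra hne
  -- the leading coefficients
  have hlead : ∀ m ∈ g.support, ∃ α : ℂ, α ≠ 0 ∧
      Ge q (q.ord (g.coeff m) + 1) (g.coeff m - algebraMap ℂ F α * u ^ (q.ord (g.coeff m))) := by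
    intro m hm
    have hm0 : g.coeff m ≠ 0 := MvPolynomial.mem_support_iff.1 hm
    have h1 : q.ord (g.coeff m * u ^ (-(q.ord (g.coeff m)))) = 0 := by
      rw [q.ord_mul hm0 (zpow_ne_zero _ hu0), q.ord_zpow, hu]; ring
    obtain ⟨α, hα⟩ := exists_const q (f := g.coeff m * u ^ (-(q.ord (g.coeff m)))) (Or.inr h1.ge)
    refine ⟨α, ?_, ?_⟩
    · rintro rfl
      rw [map_zero, sub_zero] at hα
      rcases hα with h | h
      · exact mul_ne_zero hm0 (zpow_ne_zero _ hu0) h
      · omega
    · have h2 : Ge q (q.ord (g.coeff m)) (u ^ (q.ord (g.coeff m))) := Or.inr (by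
        rw [q.ord_zpow, hu]; simp)
      have h3 := hα.mul h2
      have h4 : (g.coeff m * u ^ (-(q.ord (g.coeff m))) - algebraMap ℂ F α) *
          u ^ (q.ord (g.coeff m)) = g.coeff m - algebraMap ℂ F α * u ^ (q.ord (g.coeff m)) := by
        rw [sub_mul, mul_assoc, ← zpow_add₀ hu0]
        simp
      rw [h4, add_comm] at h3
      exact h3
  choose! α hα0 hα using hlead
  -- the monomials
  let T : (Fin r →₀ ℕ) → Fin (r + 1) → ℤ := fun m =>
    Fin.cons (q.ord (g.coeff m)) (fun i => (m i : ℤ))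
  let Z : (Fin r →₀ ℕ) → K := fun m => ∏ i, z i ^ T m i
  have hZe : ∀ m, Z m = (u : K) ^ (q.ord (g.coeff m)) * ∏ i, t i ^ m i := by
    intro m
    simp only [Z, T, hz, Fin.prod_univ_succ, Fin.cons_zero, Fin.cons_succ, zpow_natCast]
  have htm0 : ∀ m : Fin r →₀ ℕ, ∏ i, t i ^ m i ≠ 0 := fun m =>
    Finset.prod_ne_zero_iff.2 fun i _ => pow_ne_zero _ (ht0 i)
  have htm : ∀ m : Fin r →₀ ℕ, P.ord (∏ i, t i ^ m i) = ∑ i, (m i : ℤ) * P.ord (t i) := by
    intro m
    have : ∀ s : Finset (Fin r), P.ord (∏ i ∈ s, t i ^ m i) = ∑ i ∈ s, (m i : ℤ) * P.ord (t i) := by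
      intro s
      induction s using Finset.induction_on with
      | empty => simp [P.ord_one]
      | insert a s ha ih =>
        rw [Finset.prod_insert ha, Finset.sum_insert ha, P.ord_mul (pow_ne_zero _ (ht0 a))
          (Finset.prod_ne_zero_iff.2 fun i _ => pow_ne_zero _ (ht0 i)), ih, P.ord_pow]
    exact this _
  have hZ0 : ∀ m, Z m ≠ 0 := fun m => Finset.prod_ne_zero_iff.2 fun i _ => zpow_ne_zero _ (hz0 i)
  have hZord : ∀ m, P.ord (Z m) = N m := by
    intro m
    rw [hZe, P.ord_mul (zpow_ne_zero _ huK) (htm0 m), htm, P.ord_zpow, hordF u, hu]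
    simp only [hN, hordF]
    ring
  have hsum : MvPolynomial.aeval t g = ∑ m ∈ g.support, ((g.coeff m : F) : K) * ∏ i, t i ^ m i := by
    rw [MvPolynomial.aeval_def, MvPolynomial.eval₂_eq']
    rfl
  set s0 := g.support.filter (fun m => N m = c) with hs0
  -- the sum of the leading terms
  have hterm : ∀ m ∈ g.support, Ge P (N m) (((g.coeff m : F) : K) * ∏ i, t i ^ m i) := by
    intro m hm
    have hm0 : ((g.coeff m : F) : K) ≠ 0 := by
      intro h
      exact MvPolynomial.mem_support_iff.1 hm (Subtype.ext h)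
    right
    rw [P.ord_mul hm0 (htm0 m), htm]
  have htot : Ge P (c + 1) (MvPolynomial.aeval t g) := by
    have h1 : Ge P c (MvPolynomial.aeval t g) := by
      rw [hsum]
      exact Ge.sum _ _ fun m hm => (hterm m hm).mono (hmin m hm)
    by_cases h0 : MvPolynomial.aeval t g = 0
    · exact Or.inl h0
    · have := h1.resolve_left h0
      right
      omega
  have hmain : Ge P (c + 1) (∑ m ∈ s0, algebraMap ℂ K (α m) * Z m) := by
    have h1 : (∑ m ∈ s0, algebraMap ℂ K (α m) * Z m) = MvPolynomial.aeval t g -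
        (∑ m ∈ s0, (((g.coeff m : F) : K) * ∏ i, t i ^ m i - algebraMap ℂ K (α m) * Z m)) -
        ∑ m ∈ g.support.filter (fun m => ¬ N m = c), ((g.coeff m : F) : K) * ∏ i, t i ^ m i := by
      rw [hsum, ← Finset.sum_filter_add_sum_filter_not g.support (fun m => N m = c),
        Finset.sum_sub_distrib]
      ring
    rw [h1]
    refine (htot.sub (Ge.sum _ _ fun m hm => ?_)).sub (Ge.sum _ _ fun m hm => ?_)
    · rw [hs0, Finset.mem_filter] at hm
      have h2 := over_ge hPq (hα m hm.1)
      have h3 : ((g.coeff m : F) : K) * ∏ i, t i ^ m i - algebraMap ℂ K (α m) * Z m =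
          ((g.coeff m - algebraMap ℂ F (α m) * u ^ (q.ord (g.coeff m)) : F) : K) *
            ∏ i, t i ^ m i := by
        rw [hZe]
        push_cast
        have h7 : ((u ^ (q.ord (g.coeff m)) : F) : K) = (u : K) ^ (q.ord (g.coeff m)) :=
          map_zpow₀ (algebraMap F K) u _
        rw [h7]
        ring
      rw [h3]
      have h4 : Ge P (∑ i, (m i : ℤ) * P.ord (t i)) (∏ i, t i ^ m i) := Or.inr (by rw [htm])
      refine (h2.mul h4).mono ?_
      have h5 : N m = e * q.ord (g.coeff m) + ∑ i, (m i : ℤ) * P.ord (t i) := by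
        simp only [hN, hordF]
      rw [← hm.2, h5]
      nlinarith
    · rw [Finset.mem_filter] at hm
      refine (hterm m hm.1).mono ?_
      have := hmin m hm.1
      have h2 : N m ≠ c := hm.2
      omega
  -- the derivation
  obtain ⟨μ, hμ⟩ := exists_sep (k := ℂ) (s0.image T)
  have hi0 : P.ord (z 0) ≠ 0 := by
    rw [hz, Fin.cons_zero, hordF u, hu]
    omega
  obtain ⟨D', hD', hD'z⟩ := exists_der P D hD z hz0 hi0 hdet μ
  have heig := eigen P hD' c Z (fun m => ∑ i, (T m i : ℂ) * μ i) s0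
    (fun m hm => ⟨hZ0 m, by
      rw [hZord]
      exact (Finset.mem_filter.1 hm).2⟩)
    (fun m _ => der_mono hz0 hD'z (T m))
    (fun m hm m' hm' h => by
      have h1 := hμ (T m) (Finset.mem_image_of_mem _ hm) (T m') (Finset.mem_image_of_mem _ hm') h
      ext i
      have h2 := congrFun h1 i.succ
      simp only [T, Fin.cons_succ] at h2
      exact_mod_cast h2) α hmain
  have hm1s : m1 ∈ s0 := Finset.mem_filter.2 ⟨hm1, rfl⟩
  exact hα0 m1 hm1 (heig m1 hm1s)

end

end Pool.Agent.K4H40.TF
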