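import Pool.Agent.K4H40.TF.Final

/-!
Varieties with a torus action of complexity one.
-/

set_option autoImplicit false
set_option linter.unusedSectionVars false
set_option linter.overlappingInstances false

open FF Pool.Agent.W602.GT Pool.Agent.W603.LV Pool.Agent.W619.PQ IntermediateField
open Pool.Agent.W619.PL (IsA1Uniruled LogKodairaNeg)

namespace Pool.Agent.K4H40.TF

section

variable {K : Type} [Field K] [Algebra ℂ K] {F : IntermediateField ℂ K} [IsFF ℂ F] {r : ℕ}
  {t : Fin r → K}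

/-- Let the torus act on `P ^ N` with the weights `w i`, and let `Q l` be forms of the weights
`c l`. The set of the one-parameter subgroups `u` such that the limit of `u(s) x` for `s → 0` is a
point of the open subvariety `X` (where some `Q l` is not zero) for the general point `x` of `X`: the
limit has the coordinates `y j` for which `⟨w j, u⟩` is minimal. -/
def Limits {N : ℕ} {ι : Type} (y : Fin (N + 1) → K) (Q : ι → MvPolynomial (Fin (N + 1)) ℂ)
    (w : Fin (N + 1) → Fin r → ℤ) (c : ι → Fin r → ℤ) : Set (Fin r → ℤ) :=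
  {u | ∃ l, MvPolynomial.aeval y (Q l) ≠ 0 ∧ ∃ j, y j ≠ 0 ∧
    (∀ i, y i ≠ 0 → ∑ k, w j k * u k ≤ ∑ k, w i k * u k) ∧
    ∑ k, c l k * u k = (Q l).totalDegree * ∑ k, w j k * u k}

theorem ord_mono (P : Place ℂ K) (ht0 : ∀ i, t i ≠ 0) (v : Fin r → ℤ) :
    ∏ j, t j ^ v j ≠ 0 ∧ P.ord (∏ j, t j ^ v j) = ∑ j, v j * P.ord (t j) := by
  classical
  refine ⟨Finset.prod_ne_zero_iff.2 fun i _ => zpow_ne_zero _ (ht0 i), ?_⟩
  have : ∀ s : Finset (Fin r), P.ord (∏ j ∈ s, t j ^ v j) = ∑ j ∈ s, v j * P.ord (t j) := by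
    intro s
    induction s using Finset.induction_on with
    | empty => simp [P.ord_one]
    | insert b s hb ih =>
      rw [Finset.prod_insert hb, Finset.sum_insert hb, P.ord_mul (zpow_ne_zero _ (ht0 b))
        (Finset.prod_ne_zero_iff.2 fun i _ => zpow_ne_zero _ (ht0 i)), ih, P.ord_zpow]
  exact this _

theorem zpow_sum' {ι : Type} {a : K} (ha : a ≠ 0) (s : Finset ι) (v : ι → ℤ) :
    a ^ (∑ i ∈ s, v i) = ∏ i ∈ s, a ^ v i := by
  classical
  induction s using Finset.induction_on with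
  | empty => simp
  | insert b s hb ih => rw [Finset.sum_insert hb, Finset.prod_insert hb, zpow_add₀ ha, ih]

theorem torus_H (ht : AlgebraicIndependent F t) {N : ℕ} {ι : Type}
    {y : Fin (N + 1) → K} {Q : ι → MvPolynomial (Fin (N + 1)) ℂ}
    {w : Fin (N + 1) → Fin r → ℤ} {c : ι → Fin r → ℤ} {f : Fin (N + 1) → F}
    (hyf : ∀ i, y i = (f i : K) * ∏ j, t j ^ w i j)
    (hQw : ∀ l, ∀ m ∈ (Q l).support, ∀ k, ∑ i, (m i : ℤ) * w i k = c l k)
    (P : Place ℂ K) (hP : TrivialOn F P) :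
    HasCentre y Q P ↔ (fun i => P.ord (t i)) ∈ Limits y Q w c := by
  classical
  have ht0 : ∀ i, t i ≠ 0 := fun i => ht.ne_zero i
  have hy : ∀ i, y i ≠ 0 → P.ord (y i) = ∑ k, w i k * P.ord (t k) := by
    intro i hi
    have hf : f i ≠ 0 := by
      intro h0
      apply hi
      rw [hyf, h0]
      simp
    have hfK : (f i : K) ≠ 0 := fun h => hf (Subtype.ext h)
    obtain ⟨h1, h2⟩ := ord_mono P ht0 (w i)
    rw [hyf, P.ord_mul hfK h1, h2, hP _ hf, zero_add]
  have hQ : ∀ l, MvPolynomial.aeval y (Q l) ≠ 0 →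
      P.ord (MvPolynomial.aeval y (Q l)) = ∑ k, c l k * P.ord (t k) := by
    intro l hl
    have h1 : MvPolynomial.aeval y (Q l) =
        ((MvPolynomial.aeval f (Q l) : F) : K) * ∏ k, t k ^ c l k := by
      rw [MvPolynomial.aeval_def, MvPolynomial.eval₂_eq', MvPolynomial.aeval_def,
        MvPolynomial.eval₂_eq']
      change _ = algebraMap F K _ * _
      rw [map_sum, Finset.sum_mul]
      refine Finset.sum_congr rfl fun m hm => ?_
      rw [map_mul, map_prod]
      have h2 : ∏ i, y i ^ m i = (∏ i, algebraMap F K (f i ^ m i)) * ∏ k, t k ^ c l k := by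
        have h3 : ∀ i, y i ^ m i = algebraMap F K (f i ^ m i) * ∏ k, t k ^ ((m i : ℤ) * w i k) := by
          intro i
          rw [hyf, mul_pow, map_pow, ← Finset.prod_pow]
          congr 1
          refine Finset.prod_congr rfl fun k _ => ?_
          rw [← zpow_natCast, ← zpow_mul, mul_comm]
        rw [Finset.prod_congr rfl (fun i _ => h3 i), Finset.prod_mul_distrib]
        congr 1
        rw [Finset.prod_comm]
        refine Finset.prod_congr rfl fun k _ => ?_
        rw [← hQw l m hm k, zpow_sum' (ht0 k)]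
      rw [h2, ← mul_assoc]
      rfl
    have h2 : (MvPolynomial.aeval f (Q l) : F) ≠ 0 := by
      intro h0
      apply hl
      rw [h1, h0]
      simp
    have h3 : ((MvPolynomial.aeval f (Q l) : F) : K) ≠ 0 := fun h => h2 (Subtype.ext h)
    obtain ⟨h4, h5⟩ := ord_mono P ht0 (c l)
    rw [h1, P.ord_mul h3 h4, h5, hP _ h2, zero_add]
  unfold HasCentre Limits
  constructor
  · rintro ⟨l, hl, j, hj, h1, h2⟩
    refine ⟨l, hl, j, hj, fun i hi => ?_, ?_⟩
    · rw [← hy j hj, ← hy i hi]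
      exact h1 i hi
    · rw [← hQ l hl, ← hy j hj, h2]
  · rintro ⟨l, hl, j, hj, h1, h2⟩
    refine ⟨l, hl, j, hj, fun i hi => ?_, ?_⟩
    · rw [hy j hj, hy i hi]
      exact h1 i hi
    · rw [hQ l hl, hy j hj, h2]

/-- **Torus actions of complexity one.** -/
theorem torus_tfae (ht : AlgebraicIndependent F t)
    (htop : IntermediateField.adjoin F (Set.range t) = ⊤) {N : ℕ} {ι : Type}
    {y : Fin (N + 1) → K} {Q : ι → MvPolynomial (Fin (N + 1)) ℂ} (hy : y ≠ 0)
    (hQ : ∃ l, MvPolynomial.aeval y (Q l) ≠ 0)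
    {w : Fin (N + 1) → Fin r → ℤ} {c : ι → Fin r → ℤ} {f : Fin (N + 1) → F}
    (hyf : ∀ i, y i = (f i : K) * ∏ j, t j ^ w i j)
    (hQw : ∀ l, ∀ m ∈ (Q l).support, ∀ k, ∑ i, (m i : ℤ) * w i k = c l k) :
    [¬ KodGe ℂ K (r + 1) (fun P => ¬ HasCentre y Q P) 0,
      ¬ Psef ℂ K (r + 1) (fun P => ¬ HasCentre y Q P),
      IsA1Uniruled ℂ K (r + 1) (fun P => ¬ HasCentre y Q P),
      (∃ u ∈ Limits y Q w c, u ≠ 0) ∨ ((∃ x : F, ℂ⟮x⟯ = ⊤) ∧
        ∑ᶠ q : Place ℂ F, (1 - 1 / (mult F t (fun P => ¬ HasCentre y Q P) q : ℚ)) < 2)].TFAE := by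
  classical
  have hS0 : (0 : Fin r → ℤ) ∈ Limits y Q w c := by
    obtain ⟨l, hl⟩ := hQ
    obtain ⟨j, hj⟩ := Function.ne_iff.1 hy
    refine ⟨l, hl, j, hj, fun i _ => ?_, ?_⟩ <;> simp
  have hS : ∀ (k : ℕ) (u : Fin r → ℤ), 0 < k → (k • u ∈ Limits y Q w c ↔ u ∈ Limits y Q w c) := by
    intro k u hk
    have hk' : (0 : ℤ) < k := by exact_mod_cast hk
    have h1 : ∀ v : Fin r → ℤ, ∑ i, v i * (k • u) i = k * ∑ i, v i * u i := by
      intro v
      rw [Finset.mul_sum]
      refine Finset.sum_congr rfl fun i _ => ?_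
      rw [Pi.smul_apply, nsmul_eq_mul]
      ring
    unfold Limits
    simp only [Set.mem_ofPred_eq, h1]
    refine exists_congr fun l => and_congr_right fun _ => exists_congr fun j =>
      and_congr_right fun _ => and_congr (forall_congr' fun i => imp_congr_right fun _ => ?_) ?_
    · constructor
      · intro h; exact le_of_mul_le_mul_left h hk'
      · intro h; exact mul_le_mul_of_nonneg_left h hk'.le
    · constructor
      · intro h
        apply mul_left_cancel₀ hk'.ne'
        rw [h]; ring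
      · intro h
        rw [h]; ring
  have h := main_tfae ht htop hy hQ hS0 hS (fun P hP => torus_H ht hyf hQw P hP)
  have h2 : (Limits y Q w c ≠ {0}) ↔ (∃ u ∈ Limits y Q w c, u ≠ 0) := by
    constructor
    · intro h3
      by_contra hcon
      push Not at hcon
      apply h3
      ext u
      rw [Set.mem_singleton_iff]
      exact ⟨hcon u, fun h => by rw [h]; exact hS0⟩
    · rintro ⟨u, hu, hu0⟩ h3
      rw [h3, Set.mem_singleton_iff] at hu
      exact hu0 hu
  rw [h2] at h
  exact h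

end

end Pool.Agent.K4H40.TF
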