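import Pool.Agent.K4H40.TF.Poly

/-!
Toric fibrations over a spherical orbifold are `A¹`-uniruled.
-/

set_option autoImplicit false
set_option linter.unusedSectionVars false
set_option linter.overlappingInstances false

open FF Pool.Agent.W602.GT Pool.Agent.W603.LV Pool.Agent.W619.PQ IntermediateField Polynomial

namespace Pool.Agent.K4H40.TF

section

variable {K E : Type} [Field K] [Field E] [Algebra ℂ K] [Algebra ℂ E] [Algebra K E]
  [IsScalarTower ℂ K E] {F : IntermediateField ℂ K} [IsFF ℂ F] {r : ℕ} {t : Fin r → K}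

theorem vert_core [FiniteDimensional K E] (ht : AlgebraicIndependent F t)
    (htop : IntermediateField.adjoin F (Set.range t) = ⊤) {Bd : Place ℂ K → Prop}
    (hhor : ∀ P : Place ℂ K, TrivialOn F P → (∀ i, P.ord (t i) = 0) → ¬ Bd P)
    (μ : Place ℂ F → ℕ) (A : Finset (Place ℂ F))
    (hA : ∀ q, q ∉ A → ∀ P : Place ℂ K, Over P q 1 → IsToric F t P → (∀ i, P.ord (t i) = 0) → ¬ Bd P)
    (PP : Place ℂ F → Place ℂ K)
    (hPP : ∀ q ∈ A, μ q ≠ 0 → Over (PP q) q (μ q) ∧ IsToric F t (PP q) ∧ ¬ Bd (PP q))
    {y : F} {qi : Place ℂ F} {N D : ℂ[X]} {R : Place ℂ F → ℂ[X]} (h : CovData F μ y qi N D R)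
    {s : E} (hs : aeval s N = algebraMap K E (y : K) * aeval s D)
    (hEs : IntermediateField.adjoin K {s} = ⊤) :
    A1Ruled (fun Q : Place ℂ E => ∃ (P : Place ℂ K) (e : ℕ), Over Q P e ∧ Bd P) := by
  classical
  have hst := h.trans hs
  have hFFL : IsFF ℂ ℂ⟮s⟯ := isFF_simple hst
  have hinj : ∀ {p : ℂ[X]}, p ≠ 0 → aeval s p ≠ 0 := fun hp h0 => hp (transcendental_iff.1 hst _ h0)
  have hs0 : s ≠ 0 := by
    intro h0
    have := hinj X_ne_zero
    rw [aeval_X] at this
    exact this h0
  have hD0 := hinj h.D_ne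
  have ht0 : ∀ i, t i ≠ 0 := fun i => ht.ne_zero i
  have hTinj : ∀ {z : K}, z ≠ 0 → algebraMap K E z ≠ 0 := fun hz => (map_ne_zero (algebraMap K E)).2 hz
  set L := ℂ⟮s⟯ with hL
  have hsL : s ∈ L := mem_adjoin_simple_self ℂ s
  have hpL : ∀ p : ℂ[X], aeval s p ∈ L := by
    intro p
    exact (IntermediateField.mem_adjoin_simple_iff ℂ _).2 ⟨p, 1, by simp⟩
  have hyL : algebraMap K E (y : K) ∈ L := by
    have h1 : algebraMap K E (y : K) = aeval s N / aeval s D := by
      rw [hs, mul_div_cancel_right₀ _ hD0]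
    rw [h1]
    exact div_mem (hpL N) (hpL D)
  have hFy : ∀ f : F, ∃ a b : ℂ[X], f = aeval y a / aeval y b := by
    intro f
    have h1 : f ∈ ℂ⟮y⟯ := by rw [h.gen]; trivial
    exact (IntermediateField.mem_adjoin_simple_iff ℂ f).1 h1
  have hmapF : ∀ f : F, ∃ a b : ℂ[X], algebraMap K E (f : K) =
      aeval (algebraMap K E (y : K)) a / aeval (algebraMap K E (y : K)) b := by
    intro f
    obtain ⟨a, b, rfl⟩ := hFy f
    refine ⟨a, b, ?_⟩
    have h5 : ∀ p : ℂ[X], ((aeval y p : F) : K) = aeval (y : K) p := by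
      intro p
      rw [← IntermediateField.aeval_coe]
    rw [IntermediateField.coe_div, h5, h5, map_div₀, aeval_algebraMap_apply, aeval_algebraMap_apply]
  have hpolL : ∀ (z : E) (hz : z ∈ L) (p : ℂ[X]), aeval z p ∈ L := by
    intro z hz p
    rw [aeval_eq_sum_range]
    refine sum_mem fun i _ => ?_
    rw [Algebra.smul_def]
    exact mul_mem (IntermediateField.algebraMap_mem L _) (pow_mem hz i)
  have hFL : ∀ f : F, algebraMap K E (f : K) ∈ L := by
    intro f
    obtain ⟨a, b, hab⟩ := hmapF f
    rw [hab]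
    exact div_mem (hpolL _ hyL a) (hpolL _ hyL b)
  set A' := A.filter (fun q => μ q ≠ 0) with hA'
  let ρ : Place ℂ F → L := fun q => ⟨aeval s (R q), hpL _⟩
  have hρ0 : ∀ q ∈ A', ρ q ≠ 0 := by
    intro q hq h0
    have h1 := (Finset.mem_filter.1 hq).2
    exact hinj (h.R_ne h1) (congrArg Subtype.val h0)
  let τ : Fin r → L := fun i => ∏ q ∈ A', ρ q ^ ((PP q).ord (t i))
  have hτ0 : ∀ i, τ i ≠ 0 := fun i => Finset.prod_ne_zero_iff.2 fun q hq => zpow_ne_zero _ (hρ0 q hq)
  have hτE0 : ∀ i, (τ i : E) ≠ 0 := fun i h0 => hτ0 i (Subtype.ext h0)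
  let t' : Fin r → E := fun i => algebraMap K E (t i) / (τ i : E)
  have ht't : ∀ i, algebraMap K E (t i) = (τ i : E) * t' i := by
    intro i
    simp only [t']
    rw [mul_div_cancel₀ _ (hτE0 i)]
  have ht'0 : ∀ i, t' i ≠ 0 := fun i => div_ne_zero (hTinj (ht0 i)) (hτE0 i)
  let M : IntermediateField ℂ E := IntermediateField.adjoin ℂ (Set.range t')
  have hMfg : M.FG := by
    refine ⟨Finset.univ.image t', ?_⟩
    simp [M]
  have hMs : ∀ z : E, z ∈ IntermediateField.adjoin M {s} := by
    -- the subfield contains `K` and `s`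
    set G := IntermediateField.adjoin M {s} with hG
    have hsG : s ∈ G := mem_adjoin_simple_self M s
    have hLG : ∀ z ∈ L, z ∈ G := by
      intro z hz
      obtain ⟨a, b, rfl⟩ := (IntermediateField.mem_adjoin_simple_iff ℂ z).1 hz
      have : ∀ p : ℂ[X], aeval s p ∈ G := by
        intro p
        rw [aeval_eq_sum_range]
        refine sum_mem fun i _ => ?_
        rw [Algebra.smul_def]
        refine mul_mem ?_ (pow_mem hsG i)
        have h1 : algebraMap ℂ E (p.coeff i) = algebraMap M E (algebraMap ℂ M (p.coeff i)) := rfl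
        rw [h1]
        exact G.algebraMap_mem _
      exact div_mem (this a) (this b)
    have htG : ∀ i, algebraMap K E (t i) ∈ G := by
      intro i
      rw [ht't]
      refine mul_mem (hLG _ (τ i).2) ?_
      have h1 : t' i ∈ M := IntermediateField.subset_adjoin _ _ ⟨i, rfl⟩
      exact G.algebraMap_mem ⟨t' i, h1⟩
    have hKG : ∀ z : K, algebraMap K E z ∈ G := by
      intro z
      have hz : z ∈ IntermediateField.adjoin F (Set.range t) := by rw [htop]; trivial
      induction hz using IntermediateField.adjoin_induction with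
      | mem a ha =>
        obtain ⟨i, rfl⟩ := ha
        exact htG i
      | algebraMap a => exact hLG _ (hFL a)
      | add a b _ _ ha hb => rw [map_add]; exact add_mem ha hb
      | mul a b _ _ ha hb => rw [map_mul]; exact mul_mem ha hb
      | inv a _ ha => rw [map_inv₀]; exact inv_mem ha
    intro z
    have hz : z ∈ IntermediateField.adjoin K {s} := by rw [hEs]; trivial
    induction hz using IntermediateField.adjoin_induction with
    | mem a ha =>
      rw [Set.mem_singleton_iff.1 ha]
      exact hsG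
    | algebraMap a => exact hKG a
    | add a b _ _ ha hb => exact add_mem ha hb
    | mul a b _ _ ha hb => exact mul_mem ha hb
    | inv a _ ha => exact inv_mem ha
  have hMtop : IntermediateField.adjoin M {s} = ⊤ := by
    rw [eq_top_iff]
    exact fun z _ => hMs z
  -- the transcendence basis
  let v : Fin (r + 1) → E := Fin.cons s t'
  have htrE : Algebra.trdeg ℂ E = ((r + 1 : ℕ) : Cardinal) := by
    have h1 := _root_.trdeg_add_eq ℂ K (A := E)
    have h2 : Algebra.trdeg K E = 0 := by
      have : Algebra.IsAlgebraic K E := inferInstance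
      exact trdeg_eq_zero (R := K) (A := E)
    rw [h2, add_zero, trdeg_K ht htop] at h1
    exact h1.symm
  have hvtop : IntermediateField.adjoin ℂ (Set.range v) = ⊤ := by
    rw [eq_top_iff]
    intro z _
    have hMv : M ≤ IntermediateField.adjoin ℂ (Set.range v) := by
      apply IntermediateField.adjoin.mono
      rintro _ ⟨i, rfl⟩
      exact ⟨i.succ, by simp [v]⟩
    have hsv : s ∈ IntermediateField.adjoin ℂ (Set.range v) :=
      IntermediateField.subset_adjoin _ _ ⟨0, by simp [v]⟩
    have hz := hMs z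
    induction hz using IntermediateField.adjoin_induction with
    | mem a ha =>
      rw [Set.mem_singleton_iff.1 ha]
      exact hsv
    | algebraMap a => exact hMv a.2
    | add a b _ _ ha hb => exact add_mem (ha trivial) (hb trivial)
    | mul a b _ _ ha hb => exact mul_mem (ha trivial) (hb trivial)
    | inv a _ ha => exact inv_mem (ha trivial)
  have hvb : IsTranscendenceBasis ℂ v := by
    have halg : Algebra.IsAlgebraic (Algebra.adjoin ℂ (Set.range v)) E := by
      refine alg_adjoin fun z => ?_
      have h1 : z ∈ IntermediateField.adjoin ℂ (Set.range v) := by rw [hvtop]; trivial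
      exact isAlgebraic_algebraMap (⟨z, h1⟩ : IntermediateField.adjoin ℂ (Set.range v))
    refine Algebra.IsAlgebraic.isTranscendenceBasis_of_le_trdeg_of_finite ℂ v ?_
    rw [htrE]
    simp
  have ht'ind : AlgebraicIndependent ℂ t' := by
    have h1 := hvb.1.comp (Fin.succ : Fin r → Fin (r + 1)) (Fin.succ_injective r)
    have h2 : v ∘ (Fin.succ : Fin r → Fin (r + 1)) = t' := by
      funext i; simp [v]
    rwa [h2] at h1
  obtain ⟨δ, hδ⟩ := Pool.Agent.W602.GT.exists_der (L := ℂ) v hvb (Fin.cons s (fun _ => 0))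
  have hδs : δ s = s := by
    have := hδ 0
    simpa [v] using this
  have hδt : ∀ i, δ (t' i) = 0 := by
    intro i
    have := hδ i.succ
    simpa [v] using this
  have hMc : M ≤ consts δ := by
    rw [IntermediateField.adjoin_le_iff]
    rintro _ ⟨i, rfl⟩
    exact hδt i
  refine ⟨δ, s, M, hs0, hδs, hMfg, hMc, hMtop, fun Q hQ hQs => ?_⟩
  rintro ⟨P, e, hQP, hBd⟩
  have he : (0 : ℤ) < e := by exact_mod_cast hQP.1
  -- the place is trivial on the polynomials in `t'`
  have hg : ∀ g : MvPolynomial (Fin r) ℂ, g ≠ 0 → MvPolynomial.aeval t' g ≠ 0 ∧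
      Q.ord (MvPolynomial.aeval t' g) = 0 := by
    intro g hg0
    have h1 : MvPolynomial.aeval t' g ≠ 0 := by
      intro h0
      exact hg0 ((injective_iff_map_eq_zero _).1 ht'ind g h0)
    refine ⟨h1, hQ _ ?_ h1⟩
    have h2 : MvPolynomial.aeval t' g ∈ M := by
      have h3 : MvPolynomial.aeval t' g ∈ Algebra.adjoin ℂ (Set.range t') := by
        rw [Algebra.adjoin_range_eq_range_aeval]
        exact ⟨g, rfl⟩
      exact IntermediateField.algebra_adjoin_le_adjoin ℂ _ h3
    exact hMc h2
  have ht'ord : ∀ i, Q.ord (t' i) = 0 := fun i => hQ _ (hδt i) (ht'0 i)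
  have hQt : ∀ i, e * P.ord (t i) = ∑ q ∈ A', (PP q).ord (t i) * Q.ord (aeval s (R q)) := by
    intro i
    rw [← hQP.2, ht't, Q.ord_mul (hτE0 i) (ht'0 i), ht'ord, add_zero]
    have h1 : (τ i : E) = ∏ q ∈ A', (aeval s (R q)) ^ ((PP q).ord (t i)) := by
      change algebraMap L E (∏ q ∈ A', ρ q ^ (PP q).ord (t i)) = _
      rw [map_prod]
      refine Finset.prod_congr rfl fun q _ => ?_
      exact map_zpow₀ (algebraMap L E) (ρ q) _
    rw [h1]
    have : ∀ S : Finset (Place ℂ F), S ⊆ A' → Q.ord (∏ q ∈ S, (aeval s (R q)) ^ ((PP q).ord (t i))) =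
        ∑ q ∈ S, (PP q).ord (t i) * Q.ord (aeval s (R q)) := by
      intro S
      induction S using Finset.induction_on with
      | empty => intro _; simp [Q.ord_one]
      | insert b S hb ih =>
        intro hS
        have hSA : S ⊆ A' := (Finset.subset_insert _ _).trans hS
        have hR0 : ∀ q ∈ A', aeval s (R q) ≠ 0 := fun q hq =>
          hinj (h.R_ne (Finset.mem_filter.1 hq).2)
        rw [Finset.prod_insert hb, Finset.sum_insert hb,
          Q.ord_mul (zpow_ne_zero _ (hR0 b (hS (Finset.mem_insert_self _ _))))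
          (Finset.prod_ne_zero_iff.2 fun q hq => zpow_ne_zero _ (hR0 q (hSA hq))), ih hSA,
          Q.ord_zpow]
    exact this A' le_rfl
  by_cases hcase : ∃ s0 : ℂ, Ge Q 1 (s - algebraMap ℂ E s0)
  · -- vertical places
    obtain ⟨s0, hs0⟩ := hcase
    rcases trivial_or_over F P with htriv | ⟨q, ρ', hPq⟩
    · exact h.not_trivial hs hQP hs0 htriv
    have hρ' : (0 : ℤ) < ρ' := by exact_mod_cast hPq.1
    have hid := fun q' => h.ident hs hQP hPq hs0 q'
    have hne' : ∀ q' ∈ A', q' ≠ q → Q.ord (aeval s (R q')) = 0 := by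
      intro q' hq' hne
      have h1 := (hid q').2 hne
      have h2 : (μ q' : ℤ) ≠ 0 := by exact_mod_cast (Finset.mem_filter.1 hq').2
      exact (mul_eq_zero.1 h1).resolve_left h2
    -- the place is toric
    have hQL : ∃ (q'' : Place ℂ L) (e'' : ℕ), Over Q q'' e'' := by
      rcases trivial_or_over L Q with h1 | h1
      · exfalso
        have h2 : s - algebraMap ℂ E s0 ≠ 0 := by
          intro h0
          apply hst
          rw [sub_eq_zero.1 h0]
          exact isAlgebraic_algebraMap _
        have h3 : s - algebraMap ℂ E s0 ∈ L := sub_mem hsL (IntermediateField.algebraMap_mem L _)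
        have h4 := h1 ⟨_, h3⟩ (fun h0 => h2 (congrArg Subtype.val h0))
        have h5 := hs0.resolve_left h2
        simp only at h4
        omega
      · exact h1
    obtain ⟨q'', e'', hq''⟩ := hQL
    have htor : IsToric F t P := toric_below hQP hq'' hg hFL τ hτ0 ht't
    by_cases hqA : q ∈ A
    · have hμq : μ q ≠ 0 := by
        intro h0
        have h1 := (hid q).1 rfl
        rw [h0] at h1
        have : (0 : ℤ) < e * ρ' := by positivity
        simp at h1
        rcases h1 with h1 | h1
        · omega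
        · omega
      have hqA' : q ∈ A' := Finset.mem_filter.2 ⟨hqA, hμq⟩
      obtain ⟨h1, h2, h3⟩ := hPP q hqA hμq
      set x := Q.ord (aeval s (R q)) with hx
      have hμx : (μ q : ℤ) * x = e * ρ' := (hid q).1 rfl
      have hμ' : (0 : ℤ) < μ q := by exact_mod_cast Nat.pos_of_ne_zero hμq
      have hx0 : 0 < x := by
        by_contra hcon
        have h4 : (μ q : ℤ) * x ≤ 0 := mul_nonpos_of_nonneg_of_nonpos hμ'.le (not_lt.1 hcon)
        have : (0 : ℤ) < e * ρ' := by positivity
        omega
      have hPP' : P = PP q := by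
        refine toric_unique htop htor h2 he hx0 (fun f => ?_) (fun i => ?_)
        · have h4 : P.ord (f : K) = ρ' * q.ord f := hPq.2 f
          have h5 : (PP q).ord (f : K) = μ q * q.ord f := h1.2 f
          rw [h4, h5]
          linear_combination (- (q.ord f)) * hμx
        · rw [hQt i, Finset.sum_eq_single q]
          · ring
          · intro q' hq' hne
            rw [hne' q' hq' hne, mul_zero]
          · intro h4; exact absurd hqA' h4
      rw [hPP'] at hBd
      exact h3 hBd
    · -- the fibre is general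
      have hPt : ∀ i, P.ord (t i) = 0 := by
        intro i
        have h1 : e * P.ord (t i) = 0 := by
          rw [hQt i]
          refine Finset.sum_eq_zero fun q' hq' => ?_
          have hne : q' ≠ q := by
            rintro rfl
            exact hqA (Finset.mem_filter.1 hq').1
          rw [hne' q' hq' hne, mul_zero]
        exact (mul_eq_zero.1 h1).resolve_left he.ne'
      have hterm : ∀ (g : MvPolynomial (Fin r) F) (m : Fin r →₀ ℕ), (ρ' : ℤ) ∣ termOrd F t P g m := by
        intro g m
        unfold termOrd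
        rw [Finset.sum_eq_zero (fun i _ => by rw [hPt i, mul_zero]), add_zero]
        exact ⟨_, hPq.2 _⟩
      have hpol : ∀ g : MvPolynomial (Fin r) F, MvPolynomial.aeval t g ≠ 0 →
          (ρ' : ℤ) ∣ P.ord (MvPolynomial.aeval t g) := by
        intro g hg
        have hg0 : g ≠ 0 := by rintro rfl; exact hg (map_zero _)
        obtain ⟨m, -, h1, -⟩ := htor g hg0
        rw [h1]
        exact hterm g m
      have h1 : (ρ' : ℤ) ∣ 1 := by
        obtain ⟨z, hz0, hz⟩ := P.surj
        obtain ⟨a, b, ha, hb, rfl⟩ := exists_quot htop hz0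
        rw [← hz, P.ord_div ha hb]
        exact dvd_sub (hpol a ha) (hpol b hb)
      have h2 : ρ' = 1 := by
        have := Int.eq_one_of_dvd_one hρ'.le h1
        exact_mod_cast this
      subst h2
      exact hA q hqA P hPq htor hPt hBd
  · -- horizontal places
    have hz : ∀ s0 : ℂ, s - algebraMap ℂ E s0 ≠ 0 ∧ Q.ord (s - algebraMap ℂ E s0) = 0 := by
      intro s0
      have h1 : ¬ Ge Q 1 (s - algebraMap ℂ E s0) := fun h1 => hcase ⟨s0, h1⟩
      have h2 : s - algebraMap ℂ E s0 ≠ 0 := fun h0 => h1 (Or.inl h0)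
      refine ⟨h2, ?_⟩
      have h3 : Ge Q 0 (s - algebraMap ℂ E s0) := by
        refine Ge.sub (Or.inr hQs) ?_
        by_cases ha0 : s0 = 0
        · left; rw [ha0, map_zero]
        · right; rw [Q.ord_const ha0]
      have h4 := h3.resolve_left h2
      have h5 : ¬ (1 ≤ Q.ord (s - algebraMap ℂ E s0)) := fun h5 => h1 (Or.inr h5)
      omega
    have hpoly := fun (p : ℂ[X]) (hp : p ≠ 0) => ord_poly_zero Q hz hp
    have hL0 : ∀ z ∈ L, Q.ord z = 0 := by
      intro z hz'
      by_cases hz0 : z = 0
      · rw [hz0, Q.ord_zero]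
      obtain ⟨a, b, rfl⟩ := (IntermediateField.mem_adjoin_simple_iff ℂ z).1 hz'
      have ha : a ≠ 0 := by rintro rfl; rw [map_zero, zero_div] at hz0; exact hz0 rfl
      have hb : b ≠ 0 := by rintro rfl; rw [map_zero, div_zero] at hz0; exact hz0 rfl
      rw [Q.ord_div (hpoly a ha).1 (hpoly b hb).1, (hpoly a ha).2, (hpoly b hb).2, sub_zero]
    refine hhor P (fun f hf => ?_) (fun i => ?_) hBd
    · have h1 := hL0 _ (hFL f)
      rw [hQP.2] at h1
      exact (mul_eq_zero.1 h1).resolve_left he.ne'
    · have h1 : e * P.ord (t i) = 0 := by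
        rw [hQt i]
        refine Finset.sum_eq_zero fun q' hq' => ?_
        rw [hL0 _ (hpL _), mul_zero]
      exact (mul_eq_zero.1 h1).resolve_left he.ne'

end

end Pool.Agent.K4H40.TF
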