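import Pool.Agent.K4H40.TF.Vert

/-!
Toric fibrations over a spherical orbifold are `A¹`-uniruled: the existence of the cover; Gauss places.
-/

set_option autoImplicit false
set_option linter.unusedSectionVars false
set_option linter.overlappingInstances false

open FF Pool.Agent.W602.GT Pool.Agent.W603.LV Pool.Agent.W619.PQ IntermediateField Polynomial

namespace Pool.Agent.K4H40.TF

section

open Pool.Agent.W619.PL (IsA1Uniruled)

variable {K : Type} [Field K] [Algebra ℂ K] {F : IntermediateField ℂ K} [IsFF ℂ F] {r : ℕ}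
  {t : Fin r → K}

theorem finite_of_top {M K : Type} [Field M] [Field K] [Algebra M K] {y : K} (h : M⟮y⟯ = ⊤) :
    Module.Finite M⟮y⟯ K := by
  refine ⟨⟨{1}, ?_⟩⟩
  rw [eq_top_iff]
  intro z _
  have hz : z ∈ M⟮y⟯ := by rw [h]; exact mem_top
  rw [Finset.coe_singleton, Submodule.mem_span_singleton]
  exact ⟨⟨z, hz⟩, by rw [Algebra.smul_def, mul_one]; rfl⟩

/-- the Gauss place over a point of the base -/
theorem gauss_exists (ht : AlgebraicIndependent F t)
    (htop : IntermediateField.adjoin F (Set.range t) = ⊤) {x : F} (hx : ℂ⟮x⟯ = ⊤) (q : Place ℂ F) :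
    ∃ P : Place ℂ K, Over P q 1 ∧ IsToric F t P ∧ ∀ i, P.ord (t i) = 0 := by
  classical
  obtain ⟨y0, hy0, hqy0⟩ := mob1 hx q
  set y : F := y0⁻¹ with hydef
  have hy : ℂ⟮y⟯ = ⊤ := top_inv hy0
  have hqy : q.ord y = 1 := by rw [hydef, q.ord_inv, hqy0]; norm_num
  have ht0 : ∀ i, t i ≠ 0 := fun i => ht.ne_zero i
  let M : IntermediateField ℂ K := IntermediateField.adjoin ℂ (Set.range t)
  have htM : ∀ i, t i ∈ M := fun i => IntermediateField.subset_adjoin _ _ ⟨i, rfl⟩
  have hFy : ∀ f : F, (f : K) ∈ IntermediateField.adjoin M {(y : K)} := by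
    intro f
    have h1 : f ∈ ℂ⟮y⟯ := by rw [hy]; trivial
    obtain ⟨a, b, rfl⟩ := (IntermediateField.mem_adjoin_simple_iff ℂ f).1 h1
    have h5 : ∀ p : ℂ[X], ((aeval y p : F) : K) = aeval (y : K) p := by
      intro p
      rw [← IntermediateField.aeval_coe]
    rw [IntermediateField.coe_div, h5, h5]
    set G := IntermediateField.adjoin M {(y : K)} with hG
    have hyG : (y : K) ∈ G := mem_adjoin_simple_self M _
    have h6 : ∀ p : ℂ[X], aeval (y : K) p ∈ G := by
      intro p
      rw [aeval_eq_sum_range]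
      refine sum_mem fun i _ => ?_
      rw [Algebra.smul_def]
      refine mul_mem ?_ (pow_mem hyG i)
      have h1 : algebraMap ℂ K (p.coeff i) = algebraMap M K (algebraMap ℂ M (p.coeff i)) := rfl
      rw [h1]
      exact G.algebraMap_mem _
    exact div_mem (h6 a) (h6 b)
  have hMtop : IntermediateField.adjoin M {(y : K)} = ⊤ := by
    rw [eq_top_iff]
    intro z _
    have hz : z ∈ IntermediateField.adjoin F (Set.range t) := by rw [htop]; trivial
    induction hz using IntermediateField.adjoin_induction with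
    | mem a ha =>
      obtain ⟨i, rfl⟩ := ha
      exact (IntermediateField.adjoin M {(y : K)}).algebraMap_mem ⟨t i, htM i⟩
    | algebraMap a => exact hFy a
    | add a b _ _ ha hb => exact add_mem (ha trivial) (hb trivial)
    | mul a b _ _ ha hb => exact mul_mem (ha trivial) (hb trivial)
    | inv a _ ha => exact inv_mem (ha trivial)
  have hyt : Transcendental M (y : K) := by
    intro halg
    have h1 : Algebra.IsAlgebraic M (IntermediateField.adjoin M {(y : K)}) :=
      IntermediateField.isAlgebraic_adjoin_simple halg.isIntegral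
    have h2 : Algebra.IsAlgebraic (Algebra.adjoin ℂ (Set.range t)) K := by
      refine Pool.Agent.W619.PQ.alg_adjoin fun z => ?_
      have hz : z ∈ IntermediateField.adjoin M {(y : K)} := by rw [hMtop]; trivial
      have h3 := h1.isAlgebraic ⟨z, hz⟩
      exact h3.algebraMap (A := K)
    have h3 := Algebra.IsAlgebraic.trdeg_le_cardinalMk ℂ (Set.range t)
    rw [trdeg_K ht htop] at h3
    have h4 : Cardinal.mk (Set.range t) ≤ (r : Cardinal) := by
      have := Cardinal.mk_range_le (f := t)
      simpa using this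
    have h5 : ((r + 1 : ℕ) : Cardinal) ≤ (r : Cardinal) := h3.trans h4
    have h6 : r + 1 ≤ r := by exact_mod_cast h5
    omega
  have hfin : FiniteDimensional M⟮(y : K)⟯ K := finite_of_top hMtop
  have hFF : IsFF M K := IsFF.of_finite hyt hfin
  have hcz : CharZero M := charZero_of_injective_algebraMap (algebraMap ℂ M).injective
  obtain ⟨S, hS, hSd, hsum⟩ := zeros (k := M) (K := K) hyt
  rw [hMtop, IntermediateField.finrank_top] at hsum
  have hne : S.Nonempty := by
    rw [Finset.nonempty_iff_ne_empty]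
    rintro rfl
    simp at hsum
  obtain ⟨P, hP⟩ := hne
  have h2 : (P.ord (y : K)).toNat * P.deg ≤ 1 := by
    rw [← hsum]
    exact Finset.single_le_sum (f := fun w : Place M K => (w.ord (y : K)).toNat * w.deg)
      (fun _ _ => Nat.zero_le _) hP
  have h3 : 0 < P.ord (y : K) := (hS P).1 hP
  have h4 := hSd P hP
  have hPy : P.ord (y : K) = 1 := by
    have h5 : (P.ord (y : K)).toNat ≤ 1 := by
      calc (P.ord (y : K)).toNat = (P.ord (y : K)).toNat * 1 := (mul_one _).symm
        _ ≤ (P.ord (y : K)).toNat * P.deg := Nat.mul_le_mul_left _ h4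
        _ ≤ 1 := h2
    omega
  let P' : Place ℂ K :=
    { ord := P.ord
      ord_zero := P.ord_zero
      ord_mul := P.ord_mul
      ord_add := P.ord_add
      ord_const := by
        intro c hc
        have h5 : algebraMap ℂ K c = algebraMap M K (algebraMap ℂ M c) := rfl
        rw [h5]
        exact P.ord_const ((map_ne_zero (algebraMap ℂ M)).2 hc)
      surj := P.surj }
  have hPM : ∀ z ∈ M, z ≠ 0 → P'.ord z = 0 := by
    intro z hz hz0
    exact P.ord_const (c := (⟨z, hz⟩ : M)) (fun h => hz0 (congrArg Subtype.val h))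
  have hPt : ∀ i, P'.ord (t i) = 0 := fun i => hPM _ (htM i) (ht0 i)
  have hover : Over P' q 1 := by
    rcases trivial_or_over F P' with h5 | ⟨q', e, h5⟩
    · exfalso
      have h6 : y ≠ 0 := by
        intro h; rw [h, q.ord_zero] at hqy; omega
      have h7 := h5 y h6
      have h8 : P'.ord (y : K) = 1 := hPy
      omega
    · have h6 : P'.ord (y : K) = e * q'.ord y := h5.2 y
      have h8 : P'.ord (y : K) = 1 := hPy
      rw [h8] at h6
      have h9 : (0 : ℤ) < e := by exact_mod_cast h5.1
      have h10 : (e : ℤ) = 1 := Int.eq_one_of_mul_eq_one_right h9.le h6.symm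
      have h11 : e = 1 := by exact_mod_cast h10
      subst h11
      have h12 : q' = q := by
        refine ord_unique_zero hy (by push_cast at h6; omega) (by omega)
      rw [← h12]
      exact h5
  refine ⟨P', hover, ?_, hPt⟩
  have htind : AlgebraicIndependent ℂ t := by
    have h1 := (basis_K ht htop (transcendental_of_top hx)).1.comp
      (Fin.succ : Fin r → Fin (r + 1)) (Fin.succ_injective r)
    have h2 : (Fin.cons (x : K) t : Fin (r + 1) → K) ∘ (Fin.succ : Fin r → Fin (r + 1)) = t := by
      funext i; simp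
    rwa [h2] at h1
  refine toric_below (E := K) (Q := P') (P := P') (e := 1) ⟨one_pos, fun f => by simp⟩ hover
    (t' := t) (fun g hg => ?_) (fun f => f.2) (fun _ => 1) (fun _ => one_ne_zero) (fun i => by simp)
  have h1 : MvPolynomial.aeval t g ≠ 0 := by
    intro h0
    exact hg ((injective_iff_map_eq_zero _).1 htind g h0)
  refine ⟨h1, hPM _ ?_ h1⟩
  have h3 : MvPolynomial.aeval t g ∈ Algebra.adjoin ℂ (Set.range t) := by
    rw [Algebra.adjoin_range_eq_range_aeval]
    exact ⟨g, rfl⟩
  exact IntermediateField.algebra_adjoin_le_adjoin ℂ _ h3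

/-- **Spherical bases.** -/
theorem vertical (ht : AlgebraicIndependent F t)
    (htop : IntermediateField.adjoin F (Set.range t) = ⊤) {Bd : Place ℂ K → Prop}
    (hhor : ∀ P : Place ℂ K, TrivialOn F P → (∀ i, P.ord (t i) = 0) → ¬ Bd P)
    {x : F} (hx : ℂ⟮x⟯ = ⊤) (A : Finset (Place ℂ F))
    (hA : ∀ q, q ∉ A → ∀ P : Place ℂ K, Over P q 1 → IsToric F t P → (∀ i, P.ord (t i) = 0) → ¬ Bd P)
    (hA1 : ∀ q, q ∉ A → mult F t Bd q = 1)
    (hsum : ∑ q ∈ A, (1 - 1 / (mult F t Bd q : ℚ)) < 2) :
    ¬ Psef ℂ K (r + 1) Bd ∧ IsA1Uniruled ℂ K (r + 1) Bd := by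
  classical
  obtain ⟨y, qi, N, D, R, h1, h2, h3, h4, h5, h6⟩ := cover hx (mult F t Bd) A hA1 hsum
  have hcov : CovData F (mult F t Bd) y qi N D R := ⟨h1, h2, h3, h4, h5, h6⟩
  have hPP : ∀ q : Place ℂ F, mult F t Bd q ≠ 0 → ∃ P : Place ℂ K, Over P q (mult F t Bd q) ∧
      IsToric F t P ∧ ¬ Bd P := by
    intro q hq
    have h7 : {e : ℕ | ∃ P : Place ℂ K, Over P q e ∧ IsToric F t P ∧ ¬ Bd P}.Nonempty := by
      by_contra hcon
      rw [Set.not_nonempty_iff_eq_empty] at hcon
      apply hq
      rw [mult, hcon, Nat.sInf_empty]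
    exact Nat.sInf_mem h7
  obtain ⟨P0, -⟩ := gauss_exists ht htop hx qi
  have : Nonempty (Place ℂ K) := ⟨P0⟩
  choose! PP hPP' using hPP
  -- the covering
  have hyt : Transcendental ℂ y := transcendental_of_top h1
  let Ω := AlgebraicClosure K
  let p : K[X] := N.map (algebraMap ℂ K) - C (y : K) * D.map (algebraMap ℂ K)
  have hp : p.natDegree ≠ 0 := by
    intro h0
    have hcoef : ∀ d, 0 < d → N.coeff d = 0 ∧ D.coeff d = 0 := by
      intro d hd
      have h7 : p.coeff d = 0 := coeff_eq_zero_of_natDegree_lt (by omega)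
      simp only [p, coeff_sub, coeff_C_mul, coeff_map] at h7
      have h8 : D.coeff d = 0 := by
        by_contra hD
        have h9 : (y : K) = algebraMap ℂ K (N.coeff d / D.coeff d) := by
          rw [map_div₀, eq_div_iff ((map_ne_zero (algebraMap ℂ K)).2 hD)]
          linear_combination -h7
        have h10 : y = algebraMap ℂ F (N.coeff d / D.coeff d) := Subtype.ext h9
        apply hyt
        rw [h10]
        exact isAlgebraic_algebraMap _
      rw [h8, map_zero, mul_zero, sub_zero] at h7
      exact ⟨(map_eq_zero (algebraMap ℂ K)).1 h7, h8⟩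
    apply h4
    constructor
    · by_contra hN
      have h7 := (hcoef _ (Nat.pos_of_ne_zero hN)).1
      rw [coeff_natDegree, leadingCoeff_eq_zero] at h7
      rw [h7] at hN
      exact hN natDegree_zero
    · by_contra hN
      have h7 := (hcoef _ (Nat.pos_of_ne_zero hN)).2
      rw [coeff_natDegree, leadingCoeff_eq_zero] at h7
      rw [h7] at hN
      exact hN natDegree_zero
  obtain ⟨s, hs⟩ := IsAlgClosed.exists_aeval_eq_zero Ω p (fun h => hp (natDegree_eq_of_degree_eq_some h))
  have hsint : IsIntegral K s := by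
    have : IsAlgebraic K s := ⟨p, fun h => hp (by rw [h, natDegree_zero]), hs⟩
    exact this.isIntegral
  let E : IntermediateField K Ω := K⟮s⟯
  have hEfin : FiniteDimensional K E := IntermediateField.adjoin.finiteDimensional hsint
  let s' : E := AdjoinSimple.gen K s
  have hs' : aeval s' N = algebraMap K E (y : K) * aeval s' D := by
    apply Subtype.ext
    have h7 : ∀ q : ℂ[X], ((aeval s' q : E) : Ω) = aeval s q := by
      intro q
      have h8 : ((aeval s' q : E) : Ω) = algebraMap E Ω (aeval s' q) := rfl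
      have h9 : (algebraMap E Ω).comp (algebraMap ℂ E) = algebraMap ℂ Ω := RingHom.ext fun c => rfl
      rw [h8, aeval_def, hom_eval₂, h9, aeval_def]
      rfl
    rw [h7]
    change _ = algebraMap K Ω (y : K) * ((aeval s' D : E) : Ω)
    rw [h7]
    have h8 : aeval s p = aeval s N - algebraMap K Ω (y : K) * aeval s D := by
      simp only [p, map_sub, map_mul, aeval_C, aeval_map_algebraMap]
    rw [h8, sub_eq_zero] at hs
    exact hs
  have hEs : IntermediateField.adjoin K {s'} = ⊤ := by
    rw [eq_top_iff]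
    rintro ⟨z, hz⟩ -
    obtain ⟨a, b, rfl⟩ := (IntermediateField.mem_adjoin_simple_iff K z).1 hz
    rw [IntermediateField.mem_adjoin_simple_iff]
    refine ⟨a, b, Subtype.ext ?_⟩
    have h5 : ∀ p : K[X], ((aeval (AdjoinSimple.gen K s) p : K⟮s⟯) : Ω) = aeval s p := by
      intro p
      rw [← IntermediateField.aeval_coe, AdjoinSimple.coe_gen]
    change _ = ((aeval (AdjoinSimple.gen K s) a / aeval (AdjoinSimple.gen K s) b : K⟮s⟯) : Ω)
    rw [IntermediateField.coe_div, h5, h5]
  have hess := ess_K (F := F) (t := t) htop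
  have hessE : Algebra.EssFiniteType ℂ E := Algebra.EssFiniteType.comp ℂ K E
  have htrE : Algebra.trdeg ℂ E = ((r + 1 : ℕ) : Cardinal) := by
    have h1 := _root_.trdeg_add_eq ℂ K (A := E)
    have h2 : Algebra.trdeg K E = 0 := by
      have : Algebra.IsAlgebraic K E := inferInstance
      exact trdeg_eq_zero (R := K) (A := E)
    rw [h2, add_zero, trdeg_K ht htop] at h1
    exact h1.symm
  have hcore := vert_core (E := E) ht htop hhor (mult F t Bd) A hA PP
    (fun q _ hq => hPP' q hq) hcov hs' hEs
  exact of_ruled htrE (trdeg_K ht htop) (fun P Q e hQP hb => ⟨P, e, hQP, hb⟩) hcore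

end

end Pool.Agent.K4H40.TF
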